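import Pool.Agent.H61.KU.TC

/-!
# Kuiper board, C13: adjacency of `x` and the elements of `T` if `T + x` is a face
-/

open Set

namespace Pool.Agent.H61.KU

theorem pf_adj (h2 : T_S2) (h4 : T_S4) (hK : T_KEY) : T_ADJ := by
  intro ι W _ _ _ _ _ v E h9 hfam T x hT hxT hF y hy
  obtain ⟨y0, hy0, hT'⟩ := h2 ι W v E h9 hfam T x hT hxT hF
  have hxy : x ≠ y := fun h => hxT (h ▸ hy)
  by_cases h : y = y0
  · subst h
    obtain ⟨T'', hT'', -, hall⟩ := h4 ι W v E h9 hfam T y hT hy
    have h1 : x ∈ T'' := hall x hT'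
    have h2' : y ∈ T'' := by
      refine hall y ?_
      rw [Finset.insert_erase hy]
      exact hT
    exact hK ι W v E h9 hfam T'' hT'' x h1 y h2' hxy
  · refine hK ι W v E h9 hfam _ hT' x (Finset.mem_insert_self _ _) y ?_ hxy
    exact Finset.mem_insert_of_mem (Finset.mem_erase.2 ⟨h, hy⟩)

end Pool.Agent.H61.KU
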