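import Pool.Agent.H61.KU.UnqDefs

/-!
# Kuiper board, uniqueness of the family of 4-simplices: the certificate
-/

namespace Pool.Agent.H61.KU.Cert

open Pool.Agent.H61.KU

def c0 : Tr := .sp 220 (.sp 236 (.sp 410 (.sp 355 (.cA 99 8) (.sp 409 (.cB 408 0 1 2) (.sp 346
  (.sp 419 (.cA 163 8) (.sp 345 (.cB 344 0 1 2) (.sp 214 (.cA 86 7) (.sp 342 (.cA 86 8) (.sp 341
  (.sp 339 (.cA 83 8) (.sp 406 (.cA 150 8) (.sp 405 (.sp 403 (.cA 147 8) (.sp 233 (.sp 234 (.cA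
  277 6) (.sp 122 (.cA 389 1) (.sp 186 (.cA 325 1) (.sp 121 (.cA 390 0) (.sp 185 (.cA 326 0)
  (.sp 230 (.sp 421 (.cA 90 8) (.sp 422 (.sp 357 (.cA 154 8) (.sp 358 (.sp 124 (.cB 60 0 1 6)
  (.sp 188 (.cB 60 0 1 7) (.sp 218 (.sp 217 (.cA 294 6) (.dis
  67334730055200805915070228913671238629047970286474364153248102061757914394717465565609708741248389298353418721465724613929727950848))
  (.cC 293 7)))) (.cC 153 6))) (.cC 89 7))) (.cC 198 0))))))) (.cC 278 7))) (.cC 149 6)))) (.cC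
  85 7)))))) (.cC 165 8)))) (.cC 101 8)) (.cC 204 4)) (.cC 204 5)

def c1 : Tr := .sp 361 (.sp 364 (.sp 433 (.sp 434 (.sp 369 (.sp 370 (.sp 110 (.cA 401 5) (.sp
  174 (.cA 337 5) (.sp 109 (.cA 402 5) (.sp 173 (.cA 338 5) (.sp 301 (.cB 45 1 4 8) (.sp 206
  (.cA 78 7) (.sp 334 (.cA 78 8) (.sp 333 (.cA 77 8) (.sp 331 (.sp 327 (.sp 398 (.cA 142 8) (.sp
  397 (.cA 141 8) (.sp 395 (.sp 391 (.sp 241 (.sp 242 (.sp 244 (.cA 267 6) (.sp 248 (.cA 263 6)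
  (.sp 118 (.cA 393 1) (.sp 182 (.cA 329 1) (.sp 117 (.cA 394 0) (.sp 181 (.cA 330 0) (.sp 412
  (.sp 348 c0 (.cC 332 5)) (.cC 396 5)))))))) (.cC 269 7)) (.cC 270 7)) (.cC 135 6)) (.cC 139
  6)))) (.cC 71 7)) (.cC 75 7)))))))))) (.cC 368 0)) (.cC 368 1)) (.cC 432 0)) (.cC 432 1)) (.cC
  360 0)) (.cC 360 2)

def c2 : Tr := .sp 91 (.cB 27 2 5 6) (.sp 155 (.cB 27 2 5 7) (.sp 283 (.cB 27 2 5 8) (.sp 313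
  (.cA 198 0) (.sp 314 (.cA 197 1) (.sp 316 (.cA 195 2) (.sp 376 (.cA 135 6) (.sp 440 (.cA 71 7)
  (.sp 309 (.cA 202 0) (.sp 310 (.cA 201 1) (.sp 211 (.cB 195 2 3 4) (.sp 227 (.cB 195 2 3 5)
  (.sp 451 (.cB 195 2 3 8) (.sp 372 (.cA 139 6) (.sp 436 (.cA 75 7) (.sp 302 (.cA 209 2) (.sp
  205 (.cB 197 1 3 4) (.sp 229 (.cB 197 1 4 5) (.sp 362 (.cA 149 6) (.sp 426 (.cA 85 7) (.sp 62
  (.sp 94 (.cB 30 0 5 6) (.sp 158 (.cB 30 0 5 7) (.sp 286 (.cB 30 0 5 8) (.sp 61 (.sp 93 (.cB 29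
  1 5 6) (.sp 157 (.cB 29 1 5 7) (.sp 285 (.cB 29 1 5 8) (.sp 425 (.sp 428 c1 (.cC 424 0)) (.cC
  424 2))))) (.cC 450 5))))) (.cC 449 5)))))))))))))))))))))

def c3 : Tr := .cut [(31, true), (47, true), (55, true), (59, true), (199, true), (203, true),
  (213, true)] (.sp 481 (.cA 30 0) (.sp 482 (.cA 29 1) (.sp 484 (.cA 27 2) (.sp 488 (.cA 23 3)
  (.sp 496 (.cA 15 4) (.sp 465 (.cA 46 0) (.sp 466 (.cA 45 1) (.sp 468 (.cA 43 2) (.sp 472 (.cA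
  39 3) (.sp 79 (.cB 15 4 5 6) (.sp 143 (.cB 15 4 5 7) (.sp 271 (.cB 15 4 5 8) (.sp 457 (.cA 54
  0) (.sp 458 (.cA 53 1) (.sp 460 (.cA 51 2) (.sp 103 (.cB 39 3 4 6) (.sp 167 (.cB 39 3 4 7)
  (.sp 295 (.cB 39 3 4 8) (.sp 87 (.cB 23 3 5 6) (.sp 151 (.cB 23 3 5 7) (.sp 279 (.cB 23 3 5 8)
  (.sp 453 (.cA 58 0) (.sp 454 (.cA 57 1) (.sp 115 (.cB 51 2 3 6) (.sp 179 (.cB 51 2 3 7) (.sp
  307 (.cB 51 2 3 8) (.sp 107 (.cB 43 2 4 6) (.sp 171 (.cB 43 2 4 7) (.sp 299 (.cB 43 2 4 8)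
  c2))))))))))))))))))))))))))))) (.sp 213 (.ref 0 [0, 1, 2, 3, 4, 5, 6, 7, 8]) (.sp 214 (.sp
  217 (.sp 229 (.sp 362 (.sp 426 (.sp 218 (.cB 210 2 3 5) (.sp 230 (.cB 198 0 4 5) (.sp 361 (.cA
  150 6) (.sp 425 (.cA 86 7) (.sp 233 (.cB 201 1 4 5) (.sp 358 (.cA 153 6) (.sp 422 (.cA 89 7)
  (.sp 346 (.cA 165 6) (.sp 410 (.cA 101 7) (.sp 405 (.cA 106 8) (.sp 341 (.cA 170 8) (.sp 234
  (.sp 357 (.sp 421 (.sp 345 (.sp 409 (.sp 406 (.sp 342 (.ref 0 [0, 1, 2, 3, 5, 4, 6, 7, 8])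
  (.cC 169 8)) (.cC 105 8)) (.cC 102 8)) (.cC 166 8)) (.cC 90 8)) (.cC 154 8)) (.cC 202
  0))))))))))))) (.cC 85 8)) (.cC 149 8)) (.cC 197 1)) (.cC 209 5)) (.cC 212 3)))

def c4 : Tr := .sp 331 (.sp 327 (.sp 398 (.cA 142 8) (.sp 397 (.cA 141 8) (.sp 395 (.sp 391 (.sp
  241 (.sp 242 (.sp 244 (.cA 267 6) (.sp 248 (.cA 263 6) (.sp 118 (.cA 393 1) (.sp 182 (.cA 329
  1) (.sp 117 (.cA 394 0) (.sp 181 (.cA 330 0) (.sp 412 (.sp 428 (.sp 348 (.sp 364 (.sp 220 (.sp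
  236 (.sp 355 (.cA 99 8) (.sp 419 (.cA 163 8) (.sp 339 (.cA 83 8) (.sp 403 (.cA 147 8) (.sp 122
  (.cA 389 1) (.sp 186 (.cA 325 1) (.sp 121 (.cA 390 0) (.sp 185 (.cA 326 0) (.sp 124 (.cB 60 0
  1 6) (.sp 188 (.cB 60 0 1 7) c3)))))))))) (.cC 204 4)) (.cC 204 5)) (.cC 332 4)) (.cC 332 5))
  (.cC 396 4)) (.cC 396 5)))))))) (.cC 269 7)) (.cC 270 7)) (.cC 135 6)) (.cC 139 6)))) (.cC 71
  7)) (.cC 75 7)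

def c5 : Tr := .sp 440 (.cA 71 7) (.sp 309 (.cA 202 0) (.sp 310 (.cA 201 1) (.sp 211 (.cB 195 2
  3 4) (.sp 227 (.cB 195 2 3 5) (.sp 451 (.cB 195 2 3 8) (.sp 372 (.cA 139 6) (.sp 436 (.cA 75
  7) (.sp 62 (.sp 94 (.cB 30 0 5 6) (.sp 158 (.cB 30 0 5 7) (.sp 286 (.cB 30 0 5 8) (.sp 61 (.sp
  93 (.cB 29 1 5 6) (.sp 157 (.cB 29 1 5 7) (.sp 285 (.cB 29 1 5 8) (.sp 433 (.sp 434 (.sp 369
  (.sp 370 (.sp 110 (.cA 401 5) (.sp 174 (.cA 337 5) (.sp 302 (.cB 46 0 4 8) (.sp 109 (.cA 402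
  5) (.sp 173 (.cA 338 5) (.sp 301 (.cB 45 1 4 8) (.sp 206 (.cA 78 7) (.sp 334 (.cA 78 8) (.sp
  205 (.cA 77 7) (.sp 333 (.cA 77 8) c4)))))))))) (.cC 368 0)) (.cC 368 1)) (.cC 432 0)) (.cC
  432 1))))) (.cC 450 5))))) (.cC 449 5)))))))))

def c6 : Tr := .sp 466 (.cA 45 1) (.sp 468 (.cA 43 2) (.sp 472 (.cA 39 3) (.sp 79 (.cB 15 4 5 6)
  (.sp 143 (.cB 15 4 5 7) (.sp 271 (.cB 15 4 5 8) (.sp 457 (.cA 54 0) (.sp 458 (.cA 53 1) (.sp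
  460 (.cA 51 2) (.sp 103 (.cB 39 3 4 6) (.sp 167 (.cB 39 3 4 7) (.sp 295 (.cB 39 3 4 8) (.sp 87
  (.cB 23 3 5 6) (.sp 151 (.cB 23 3 5 7) (.sp 279 (.cB 23 3 5 8) (.sp 453 (.cA 58 0) (.sp 454
  (.cA 57 1) (.sp 115 (.cB 51 2 3 6) (.sp 179 (.cB 51 2 3 7) (.sp 307 (.cB 51 2 3 8) (.sp 107
  (.cB 43 2 4 6) (.sp 171 (.cB 43 2 4 7) (.sp 299 (.cB 43 2 4 8) (.sp 91 (.cB 27 2 5 6) (.sp 155
  (.cB 27 2 5 7) (.sp 283 (.cB 27 2 5 8) (.sp 313 (.cA 198 0) (.sp 314 (.cA 197 1) (.sp 316 (.cA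
  195 2) (.sp 376 (.cA 135 6) c5)))))))))))))))))))))))))))))

def c7 : Tr := .sp 331 (.cA 75 8) (.sp 327 (.sp 398 (.cA 142 8) (.sp 397 (.sp 395 (.cA 139 8)
  (.sp 391 (.sp 241 (.sp 242 (.cA 269 6) (.sp 244 (.sp 248 (.cA 263 6) (.sp 118 (.cA 393 2) (.sp
  182 (.cA 329 2) (.sp 218 (.sp 234 (.sp 117 (.cB 53 1 3 6) (.sp 181 (.cB 53 1 3 7) (.sp 410
  (.sp 346 (.sp 357 (.cA 293 6) (.sp 421 (.cA 293 7) (.sp 426 (.sp 362 (.sp 341 (.cA 277 6) (.sp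
  405 (.cA 277 7) (.sp 122 (.cA 389 1) (.sp 186 (.cA 325 1) (.sp 121 (.cA 390 0) (.sp 185 (.cA
  326 0) (.sp 124 (.cB 60 0 1 6) (.sp 188 (.cB 60 0 1 7) (.ref 0 [0, 2, 1, 3, 4, 5, 6, 7,
  8]))))))))) (.cC 149 8)) (.cC 85 8)))) (.cC 165 8)) (.cC 101 8)))) (.cC 202 4)) (.cC 202
  5))))) (.cC 267 7))) (.cC 270 7)) (.cC 135 6))) (.cC 141 6))) (.cC 71 7))

def c8 : Tr := .sp 376 (.cA 135 6) (.sp 440 (.cA 71 7) (.sp 310 (.cA 201 2) (.sp 372 (.sp 436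
  (.sp 309 (.cB 308 0 6 7) (.sp 213 (.cB 197 1 3 4) (.sp 229 (.cB 197 1 3 5) (.sp 370 (.cA 141
  6) (.sp 434 (.cA 77 7) (.sp 62 (.sp 94 (.cB 30 0 5 6) (.sp 158 (.cB 30 0 5 7) (.sp 286 (.cB 30
  0 5 8) (.sp 61 (.sp 93 (.cB 29 1 5 6) (.sp 157 (.cB 29 1 5 7) (.sp 285 (.cB 29 1 5 8) (.sp 433
  (.sp 369 (.sp 451 (.cA 449 1) (.sp 110 (.cA 401 5) (.sp 174 (.cA 337 5) (.sp 302 (.cB 46 0 4
  8) (.sp 109 (.cB 45 1 4 6) (.sp 173 (.cB 45 1 4 7) (.sp 301 (.cB 45 1 4 8) (.sp 206 (.cA 78 7)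
  (.sp 334 (.cA 78 8) (.sp 333 c7 (.cC 77 7))))))))))) (.cC 368 2)) (.cC 432 2))))) (.cC 450
  0))))) (.cC 449 1))))))) (.cC 75 8)) (.cC 139 8))))

def c9 : Tr := .sp 465 (.cA 46 0) (.sp 466 (.cA 45 1) (.sp 468 (.cA 43 2) (.sp 472 (.cA 39 3)
  (.sp 79 (.cB 15 4 5 6) (.sp 143 (.cB 15 4 5 7) (.sp 271 (.cB 15 4 5 8) (.sp 457 (.cA 54 0)
  (.sp 458 (.cA 53 1) (.sp 460 (.cA 51 2) (.sp 103 (.cB 39 3 4 6) (.sp 167 (.cB 39 3 4 7) (.sp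
  295 (.cB 39 3 4 8) (.sp 87 (.cB 23 3 5 6) (.sp 151 (.cB 23 3 5 7) (.sp 279 (.cB 23 3 5 8) (.sp
  453 (.cA 58 0) (.sp 454 (.cA 57 1) (.sp 115 (.cB 51 2 3 6) (.sp 179 (.cB 51 2 3 7) (.sp 307
  (.cB 51 2 3 8) (.sp 107 (.cB 43 2 4 6) (.sp 171 (.cB 43 2 4 7) (.sp 299 (.cB 43 2 4 8) (.sp 91
  (.cB 27 2 5 6) (.sp 155 (.cB 27 2 5 7) (.sp 283 (.cB 27 2 5 8) (.sp 313 (.cA 198 0) (.sp 314
  (.cA 197 1) (.sp 316 (.cA 195 2) c8)))))))))))))))))))))))))))))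

def c10 : Tr := .cut [(31, true), (47, true), (55, true), (59, true), (199, true), (203, false),
  (205, true)] (.sp 481 (.cA 30 0) (.sp 482 (.cA 29 1) (.sp 484 (.cA 27 2) (.sp 488 (.cA 23 3)
  (.sp 496 (.cA 15 4) c9))))) (.sp 205 (.ref 1 [0, 1, 2, 3, 4, 5, 6, 7, 8]) (.sp 217 (.sp 233
  (.sp 370 (.sp 434 (.sp 358 (.cA 153 6) (.sp 422 (.cA 89 7) (.sp 342 (.cA 169 6) (.sp 406 (.cA
  105 7) (.sp 369 (.cB 368 0 1 2) (.sp 397 (.cA 114 8) (.sp 433 (.cB 432 0 1 2) (.sp 333 (.cA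
  178 8) (.sp 334 (.sp 409 (.sp 398 (.sp 345 (.sp 425 (.sp 361 (.sp 206 (.sp 241 (.cA 113 7)
  (.sp 242 (.sp 230 (.cA 281 6) (.sp 214 (.cA 297 6) (.ref 1 [0, 4, 3, 5, 1, 2, 6, 7, 8]))) (.cC
  269 7))) (.cC 305 7)) (.cC 150 6)) (.cC 86 7)) (.cC 166 6)) (.cC 390 0)) (.cC 102 7)) (.cC 326
  0)))))))))) (.cC 77 8)) (.cC 141 8)) (.cC 201 4)) (.cC 201 5)))

def c11 : Tr := .sp 173 (.cB 45 1 4 7) (.sp 301 (.cB 45 1 4 8) (.sp 327 (.sp 391 (.sp 248 (.cA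
  263 6) (.sp 118 (.cB 54 0 3 6) (.sp 182 (.cB 54 0 3 7) (.sp 310 (.cB 54 0 3 8) (.sp 117 (.cB
  53 1 3 6) (.sp 181 (.cB 53 1 3 7) (.sp 309 (.cB 53 1 3 8) (.sp 122 (.cA 389 1) (.sp 186 (.cA
  325 1) (.sp 121 (.cA 390 0) (.sp 185 (.cA 326 0) (.sp 124 (.cB 60 0 1 6) (.sp 188 (.cB 60 0 1
  7) (.cut [(31, true), (47, true), (55, true), (59, true), (199, true), (203, true)] (.sp 481
  (.cA 30 0) (.sp 482 (.cA 29 1) (.sp 484 (.cA 27 2) (.sp 488 (.cA 23 3) (.sp 496 (.cA 15 4)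
  (.sp 465 (.cA 46 0) c6)))))) (.sp 203 (.ref 0 [0, 1, 2, 3, 4, 5, 6, 7, 8]) (.sp 372 (.sp 436
  (.sp 395 (.cA 116 8) (.sp 331 (.cA 180 8) (.sp 244 c10 (.cC 267 7)))) (.cC 75 8)) (.cC 139
  8))))))))))))))))) (.cC 135 6)) (.cC 71 7)))

def c12 : Tr := .sp 279 (.cB 23 3 5 8) (.sp 453 (.cA 58 0) (.sp 454 (.cA 57 1) (.sp 115 (.cB 51
  2 3 6) (.sp 179 (.cB 51 2 3 7) (.sp 307 (.cB 51 2 3 8) (.sp 107 (.cB 43 2 4 6) (.sp 171 (.cB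
  43 2 4 7) (.sp 299 (.cB 43 2 4 8) (.sp 91 (.cB 27 2 5 6) (.sp 155 (.cB 27 2 5 7) (.sp 283 (.cB
  27 2 5 8) (.sp 313 (.cA 198 0) (.sp 314 (.cA 197 1) (.sp 316 (.cA 195 2) (.sp 376 (.cA 135 6)
  (.sp 440 (.cA 71 7) (.sp 62 (.sp 94 (.cB 30 0 5 6) (.sp 158 (.cB 30 0 5 7) (.sp 286 (.cB 30 0
  5 8) (.sp 61 (.sp 93 (.cB 29 1 5 6) (.sp 157 (.cB 29 1 5 7) (.sp 285 (.cB 29 1 5 8) (.sp 451
  (.cA 449 1) (.sp 110 (.cB 46 0 4 6) (.sp 174 (.cB 46 0 4 7) (.sp 302 (.cB 46 0 4 8) (.sp 109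
  (.cB 45 1 4 6) c11)))))))) (.cC 450 0))))) (.cC 449 1))))))))))))))))))

def c13 : Tr := .sp 124 (.cB 60 0 1 6) (.sp 188 (.cB 60 0 1 7) (.sp 316 (.cB 60 0 1 8) (.cut
  [(31, true), (47, true), (55, true), (59, true), (199, true)] (.sp 481 (.cA 30 0) (.sp 482
  (.cA 29 1) (.sp 484 (.cA 27 2) (.sp 488 (.cA 23 3) (.sp 496 (.cA 15 4) (.sp 465 (.cA 46 0)
  (.sp 466 (.cA 45 1) (.sp 468 (.cA 43 2) (.sp 472 (.cA 39 3) (.sp 79 (.cB 15 4 5 6) (.sp 143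
  (.cB 15 4 5 7) (.sp 271 (.cB 15 4 5 8) (.sp 457 (.cA 54 0) (.sp 458 (.cA 53 1) (.sp 460 (.cA
  51 2) (.sp 103 (.cB 39 3 4 6) (.sp 167 (.cB 39 3 4 7) (.sp 295 (.cB 39 3 4 8) (.sp 87 (.cB 23
  3 5 6) (.sp 151 (.cB 23 3 5 7) c12)))))))))))))))))))) (.sp 199 (.ref 0 [0, 1, 2, 3, 4, 5, 6,
  7, 8]) (.sp 376 (.sp 440 (.sp 391 (.cA 120 8) (.sp 327 (.cA 184 8) (.sp 248 (.ref 0 [3, 4, 5,
  0, 1, 2, 6, 7, 8]) (.cC 263 7)))) (.cC 71 8)) (.cC 135 8))))))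

def c14 : Tr := .sp 91 (.cB 27 2 5 6) (.sp 155 (.cB 27 2 5 7) (.sp 283 (.cB 27 2 5 8) (.sp 62
  (.sp 94 (.cB 30 0 5 6) (.sp 158 (.cB 30 0 5 7) (.sp 286 (.cB 30 0 5 8) (.sp 61 (.sp 93 (.cB 29
  1 5 6) (.sp 157 (.cB 29 1 5 7) (.sp 285 (.cB 29 1 5 8) (.sp 451 (.cA 449 1) (.sp 110 (.cB 46 0
  4 6) (.sp 174 (.cB 46 0 4 7) (.sp 302 (.cB 46 0 4 8) (.sp 109 (.cB 45 1 4 6) (.sp 173 (.cB 45
  1 4 7) (.sp 301 (.cB 45 1 4 8) (.sp 118 (.cB 54 0 3 6) (.sp 182 (.cB 54 0 3 7) (.sp 310 (.cB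
  54 0 3 8) (.sp 117 (.cB 53 1 3 6) (.sp 181 (.cB 53 1 3 7) (.sp 309 (.cB 53 1 3 8) (.sp 122
  (.cB 58 0 2 6) (.sp 186 (.cB 58 0 2 7) (.sp 314 (.cB 58 0 2 8) (.sp 121 (.cB 57 1 2 6) (.sp
  185 (.cB 57 1 2 7) (.sp 313 (.cB 57 1 2 8) c13)))))))))))))))))))))) (.cC 450 0))))) (.cC 449
  1))))

def c15 : Tr := .sp 213 (.cB 197 1 4 8) (.sp 229 (.cB 197 1 5 8) (.sp 121 (.cA 390 0) (.sp 185
  (.cA 326 0) (.sp 206 (.cB 198 0 3 8) (.sp 214 (.cB 198 0 4 8) (.sp 230 (.cB 198 0 5 8) (.sp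
  124 (.cA 60 6) (.sp 188 (.cA 60 7) (.sp 203 (.cB 195 2 3 8) (.sp 211 (.cB 195 2 4 8) (.sp 227
  (.cB 195 2 5 8) (.sp 395 (.cB 387 2 3 6) (.sp 403 (.cB 387 2 4 6) (.sp 419 (.cB 387 2 5 6)
  (.sp 331 (.cB 323 2 3 7) (.sp 339 (.cB 323 2 4 7) (.sp 355 (.cB 323 2 5 7) (.sp 334 (.cB 326 0
  3 7) (.sp 342 (.cB 326 0 4 7) (.sp 358 (.cB 326 0 5 7) (.sp 333 (.cB 325 1 3 7) (.sp 341 (.cB
  325 1 4 7) (.sp 357 (.cB 325 1 5 7) (.sp 398 (.cB 390 0 3 6) (.sp 406 (.cB 390 0 4 6) (.sp 422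
  (.cB 390 0 5 6) (.sp 397 (.cB 389 1 3 6) (.sp 405 (.cB 389 1 4 6) (.sp 421 (.cB 389 1 5 6)
  (.ref 0 [0, 1, 2, 6, 7, 8, 3, 4, 5]))))))))))))))))))))))))))))))

def c16 : Tr := .sp 468 (.cA 43 2) (.sp 472 (.cA 39 3) (.sp 79 (.cB 15 4 5 6) (.sp 143 (.cB 15 4
  5 7) (.sp 271 (.cB 15 4 5 8) (.sp 457 (.cA 54 0) (.sp 458 (.cA 53 1) (.sp 460 (.cA 51 2) (.sp
  103 (.cB 39 3 4 6) (.sp 167 (.cB 39 3 4 7) (.sp 295 (.cB 39 3 4 8) (.sp 87 (.cB 23 3 5 6) (.sp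
  151 (.cB 23 3 5 7) (.sp 279 (.cB 23 3 5 8) (.sp 453 (.sp 454 (.sp 313 (.cA 198 0) (.sp 314
  (.cA 197 1) (.sp 316 (.cA 195 2) (.sp 376 (.cA 135 6) (.sp 440 (.cA 71 7) (.sp 62 (.cA 449 2)
  (.sp 61 (.cA 450 2) (.sp 451 (.sp 327 (.sp 391 (.sp 248 (.cA 263 6) (.sp 122 (.cA 389 1) (.sp
  186 (.cA 325 1) (.sp 205 (.cB 197 1 3 8) c15)))) (.cC 135 6)) (.cC 71 7)) (.cC 449 2)))))))))
  (.cC 452 0)) (.cC 452 1)))))))))))))))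

def c17 : Tr := .sp 94 (.sp 419 (.cA 92 1) (.sp 218 (.cB 90 0 2 7) (.sp 214 (.cB 86 3 7 8) (.sp
  433 (.cA 78 4) (.sp 158 (.cB 30 0 6 7) (.sp 434 (.sp 403 (.sp 220 (.sp 179 (.sp 301 (.sp 206
  (.sp 357 (.sp 361 (.sp 307 (.cA 305 1) (.sp 109 (.cA 402 0) (.sp 333 (.cA 178 0) (.sp 364 (.cA
  147 5) (.iso [0, 3, 7, 1, 5, 6, 4, 8, 2]))))) (.cC 150 8)) (.cC 154 8)) (.cC 202 5)) (.cC 210
  8)) (.cC 163 6)) (.cC 291 4)) (.cC 387 6)) (.cC 418 3))))))) (.sp 419 (.sp 218 (.sp 214 (.sp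
  433 (.sp 158 (.sp 434 (.cB 418 0 3 4) (.sp 403 (.cB 387 4 5 6) (.sp 220 (.cA 291 7) (.sp 179
  (.cB 163 4 6 8) (.sp 301 (.cA 210 2) (.sp 206 (.cB 202 2 4 5) (.sp 357 (.cA 154 2) (.sp 361
  (.cA 150 3) (.sp 307 (.sp 109 (.sp 333 (.sp 364 (.iso [0, 4, 6, 2, 5, 7, 3, 8, 1]) (.cC 147
  8)) (.cC 178 8)) (.cC 402 6)) (.cC 305 7)))))))))) (.cC 30 0)) (.cC 78 7)) (.cC 86 8)) (.cC 90
  0)) (.cC 92 7))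

def c18 : Tr := .sp 93 (.sp 419 (.cA 92 0) (.sp 345 (.cB 89 1 2 8) (.sp 341 (.cB 85 3 7 8) (.sp
  434 (.cA 77 4) (.sp 285 (.cB 29 1 6 8) (.sp 433 (.sp 403 (.sp 307 (.sp 348 (.sp 174 (.sp 333
  (.sp 230 (.sp 234 (.sp 179 (.cA 178 0) (.sp 110 (.cA 401 1) (.sp 206 (.cA 305 1) (.sp 236 (.cA
  275 5) (.iso [0, 5, 6, 2, 4, 7, 3, 8, 1]))))) (.cC 277 7)) (.cC 281 7)) (.cC 329 5)) (.cC 337
  7)) (.cC 163 4)) (.cC 291 6)) (.cC 387 6)) (.cC 417 3))))))) (.sp 419 (.sp 345 (.sp 341 (.sp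
  434 (.sp 285 (.sp 433 (.cB 417 1 3 4) (.sp 403 (.cB 387 4 5 6) (.sp 307 (.cB 291 4 6 7) (.sp
  348 (.cA 163 8) (.sp 174 (.cA 337 2) (.sp 333 (.cB 329 2 4 5) (.sp 230 (.cA 281 2) (.sp 234
  (.cA 277 3) (.sp 179 (.sp 110 (.sp 206 (.sp 236 (.iso [0, 3, 7, 1, 4, 6, 5, 8, 2]) (.cC 275
  7)) (.cC 305 7)) (.cC 401 6)) (.cC 178 8)))))))))) (.cC 29 1)) (.cC 77 8)) (.cC 85 7)) (.cC 89
  1)) (.cC 92 8))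

def c19 : Tr := .sp 157 (.sp 355 (.cA 156 0) (.sp 358 (.cA 153 2) (.sp 213 (.cB 149 3 5 6) (.sp
  173 (.cB 141 4 5 8) (.sp 93 (.cB 29 1 6 7) (.sp 285 (.cB 29 1 7 8) (.sp 339 (.sp 227 (.sp 342
  (.sp 302 (.sp 409 (.sp 211 (.cA 209 1) (.sp 229 (.sp 426 (.sp 174 (.cA 172 1) (.sp 236 (.cA
  172 6) (.sp 425 (.cA 169 8) (.sp 345 (.sp 341 (.cA 85 8) (.sp 286 (.cA 284 1) (.sp 348 (.cA
  284 6) (.sp 230 (.cA 281 6) (.sp 234 (.sp 110 (.cB 46 0 6 8) (.sp 410 (.cB 408 0 1 5) c17))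
  (.cC 277 7)))))) (.cC 89 1))))) (.cC 85 8)) (.cC 197 8))) (.cC 153 2)) (.cC 294 4)) (.cC 326
  7)) (.cC 99 3)) (.cC 323 7)))))))) (.sp 358 (.sp 213 (.sp 173 (.sp 355 (.sp 357 (.cB 356 0 1
  4) (.sp 364 (.cB 356 1 3 4) (.sp 342 (.cB 326 4 5 7) (.sp 302 (.cB 294 3 4 6) (.sp 409 (.cA
  102 8) (.sp 214 (.cB 212 0 1 5) (.sp 220 (.cB 212 0 3 5) (.sp 211 (.sp 229 (.cB 197 4 5 8)
  (.sp 426 (.cA 85 7) (.sp 339 (.cA 172 0) (.sp 425 (.sp 109 (.cB 45 1 6 7) (.sp 301 (.cB 45 1 7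
  8) (.sp 158 (.cA 353 1) (.sp 227 (.cB 99 3 7 8) (.sp 361 (.sp 218 (.sp 410 (.sp 286 (.sp 94
  (.cA 86 3) c18) (.cC 278 5)) (.cC 101 8)) (.cC 293 7)) (.cC 353 1)))))) (.cC 169 2))))) (.cC
  209 2))))))))) (.cC 354 2)) (.cC 141 8)) (.cC 149 5)) (.cC 153 8))

def c20 : Tr := .sp 412 (.cA 99 3) (.sp 203 (.cB 75 4 5 7) (.sp 331 (.cB 75 4 5 8) (.sp 334 (.cA
  177 2) (.sp 346 (.cA 165 4) (.sp 362 (.cA 149 5) (.sp 61 (.cB 53 1 3 7) (.sp 117 (.cB 53 1 6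
  7) (.sp 309 (.cB 53 1 7 8) (.sp 62 (.cA 449 2) (.sp 451 (.sp 327 (.cA 71 8) (.sp 372 (.sp 391
  (.cA 135 8) (.sp 369 (.cB 368 0 2 3) (.sp 244 (.sp 248 (.sp 241 (.cB 240 0 2 3) (.sp 398 (.sp
  395 (.cA 139 8) (.sp 186 (.cA 325 7) (.sp 121 (.cA 390 3) (.sp 185 (.cA 326 7) (.sp 124 (.cB
  120 2 7 8) (.sp 188 (.cB 184 2 6 8) (.sp 310 (.sp 217 (.cA 294 4) (.sp 182 (.cB 180 0 1 6)
  (.sp 205 (.cA 306 2) (.sp 233 (.cA 278 5) c19)))) (.cC 308 6)))))))) (.cC 396 0))) (.cC 263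
  7)) (.cC 267 7)))) (.cC 139 8))) (.cC 450 2)))))))))))

def c21 : Tr := .sp 458 (.cA 53 1) (.sp 460 (.cA 51 2) (.sp 103 (.cB 39 3 4 6) (.sp 167 (.cB 39
  3 4 7) (.sp 295 (.cB 39 3 4 8) (.sp 87 (.cB 23 3 5 6) (.sp 151 (.cB 23 3 5 7) (.sp 279 (.cB 23
  3 5 8) (.sp 171 (.cB 43 2 6 7) (.sp 299 (.cB 43 2 6 8) (.sp 155 (.cB 27 2 6 7) (.sp 283 (.cB
  27 2 6 8) (.sp 453 (.sp 454 (.sp 313 (.cA 198 8) (.sp 314 (.cA 197 8) (.sp 376 (.sp 440 (.sp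
  316 (.cB 312 2 6 7) (.sp 421 (.cA 90 0) (.sp 422 (.cA 89 1) (.sp 428 (.cA 83 3) (.sp 436 (.cA
  75 4) (.sp 115 (.cA 396 0) (.sp 118 (.cA 393 2) (.sp 122 (.cA 389 3) (.sp 242 (.cA 269 7) (.sp
  370 (.cA 141 8) (.sp 405 (.cA 106 0) (.sp 406 (.cA 105 1) c20)))))))))))) (.cC 71 8)) (.cC 135
  8)))) (.cC 452 0)) (.cC 452 1)))))))))))))

def c22 : Tr := .sp 186 (.cA 325 7) (.sp 121 (.cA 390 3) (.sp 185 (.cA 326 7) (.sp 124 (.cB 120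
  2 7 8) (.sp 188 (.cB 184 2 6 8) (.sp 117 (.cA 113 2) (.cut [(31, true), (47, true), (55,
  true), (59, false), (199, false), (91, true), (397, true), (107, true), (181, true)] (.sp 481
  (.cA 30 0) (.sp 482 (.cA 29 1) (.sp 484 (.cA 27 2) (.sp 488 (.cA 23 3) (.sp 496 (.cA 15 4)
  (.sp 465 (.cA 46 0) (.sp 466 (.cA 45 1) (.sp 468 (.cA 43 2) (.sp 472 (.cA 39 3) (.sp 79 (.cB
  15 4 5 6) (.sp 143 (.cB 15 4 5 7) (.sp 271 (.cB 15 4 5 8) (.sp 457 (.cA 54 0) c21)))))))))))))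
  (.sp 181 (.ref 2 [0, 1, 2, 3, 4, 5, 6, 7, 8]) (.sp 182 (.sp 309 (.sp 333 (.cA 178 2) (.sp 345
  (.cA 166 4) (.sp 361 (.cA 150 5) (.sp 310 (.cB 54 0 7 8) (.sp 206 (.cA 305 2) (.sp 218 (.cA
  293 4) (.sp 234 (.cA 277 5) (.ref 2 [0, 1, 2, 3, 4, 5, 6, 8, 7])))))))) (.cC 53 1)) (.cC 180
  6)))))))))

def c23 : Tr := .sp 314 (.cA 197 8) (.sp 376 (.sp 440 (.sp 316 (.cB 312 2 6 7) (.sp 421 (.cA 90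
  0) (.sp 422 (.cA 89 1) (.sp 428 (.cA 83 3) (.sp 436 (.cA 75 4) (.sp 115 (.cA 396 0) (.sp 118
  (.cA 393 2) (.sp 122 (.cA 389 3) (.sp 242 (.cA 269 7) (.sp 370 (.cA 141 8) (.sp 405 (.cA 106
  0) (.sp 406 (.cA 105 1) (.sp 412 (.cA 99 3) (.sp 203 (.cB 75 4 5 7) (.sp 331 (.cB 75 4 5 8)
  (.sp 62 (.cA 449 2) (.sp 61 (.cA 450 2) (.sp 451 (.sp 327 (.cA 71 8) (.sp 372 (.sp 391 (.cA
  135 8) (.sp 369 (.cB 368 0 2 3) (.sp 244 (.sp 248 (.sp 241 (.cB 240 0 2 3) (.sp 398 (.sp 395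
  (.cA 139 8) c22) (.cC 396 0))) (.cC 263 7)) (.cC 267 7)))) (.cC 139 8))) (.cC 449
  2))))))))))))))))))) (.cC 71 8)) (.cC 135 8))

def c24 : Tr := .sp 426 (.cA 85 3) (.sp 434 (.cA 77 4) (.sp 285 (.cB 29 1 6 8) (.sp 348 (.sp 333
  (.sp 230 (.sp 174 (.sp 425 (.sp 117 (.sp 299 (.sp 341 (.cA 170 2) (.sp 433 (.sp 403 (.sp 307
  (.sp 179 (.cA 178 0) (.sp 234 (.sp 171 (.cA 340 3) (.sp 94 (.cB 92 0 1 8) (.sp 220 (.cB 92 0 7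
  8) (.sp 357 (.cB 325 3 5 7) (.sp 236 (.cB 228 0 1 3) (.sp 206 (.cB 198 3 5 8) (.sp 214 (.cB
  198 4 5 8) (.sp 110 (.cB 102 3 7 8) (.sp 369 (.cA 142 5) (.sp 395 (.cB 393 1 2 5) (.sp 372
  (.sp 309 (.cB 53 1 6 8) (.sp 218 (.sp 158 (.ref 2 [0, 1, 2, 5, 3, 4, 8, 6, 7]) (.cC 30 0))
  (.cC 202 5))) (.cC 116 0)))))))))))) (.cC 277 5))) (.cC 306 2)) (.cC 402 2)) (.cC 432 3)))
  (.cC 298 6)) (.cC 394 0)) (.cC 424 4)) (.cC 166 6)) (.cC 281 7)) (.cC 329 1)) (.cC 344 5))))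

def c25 : Tr := .sp 233 (.cA 278 7) (.sp 181 (.cA 330 0) (.sp 229 (.sp 217 (.cA 153 6) (.sp 409
  (.cA 153 8) (.sp 213 (.cA 149 6) (.sp 310 (.sp 361 (.cA 105 8) (.sp 410 (.cA 101 7) (.sp 182
  (.cB 54 0 7 8) (.sp 241 (.sp 244 (.cA 180 6) (.sp 286 (.cA 270 4) (.sp 93 (.sp 419 (.cA 92 0)
  (.sp 345 (.cB 89 1 2 8) c24)) (.sp 345 (.sp 434 (.sp 285 (.sp 348 (.cB 344 0 2 5) (.sp 174
  (.cA 337 3) (.sp 333 (.cB 329 1 2 4) (.sp 230 (.cA 281 2) (.sp 433 (.cB 432 0 1 3) (.sp 403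
  (.cB 402 0 2 5) (.sp 307 (.cB 306 0 2 7) (.sp 179 (.sp 234 (.cA 277 3) (.sp 236 (.sp 110 (.ref
  2 [0, 3, 6, 4, 1, 8, 2, 5, 7]) (.cC 46 0)) (.cC 172 0))) (.cC 178 8))))))))) (.cC 29 1)) (.cC
  77 8)) (.cC 89 1))))) (.cC 209 1))))) (.cC 201 8))))) (.cC 165 3)))

def c26 : Tr := .sp 346 (.cA 165 3) (.sp 157 (.cB 141 4 5 8) (.sp 205 (.cB 141 5 6 8) (.sp 61
  (.cB 45 1 4 7) (.sp 109 (.cB 45 1 6 7) (.sp 301 (.cB 45 1 7 8) (.sp 62 (.cA 449 2) (.sp 451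
  (.sp 327 (.cA 71 8) (.sp 391 (.cA 135 8) (.sp 248 (.sp 211 (.sp 364 (.cA 147 6) (.sp 405 (.cB
  389 3 4 6) (.sp 186 (.cA 325 7) (.sp 121 (.cA 390 6) (.sp 185 (.cA 326 7) (.sp 124 (.cB 120 2
  7 8) (.sp 188 (.cB 184 2 6 8) (.sp 302 (.cA 300 1) (.sp 203 (.cB 195 3 4 8) (.sp 227 (.cB 195
  4 5 8) (.sp 406 (.sp 412 (.sp 331 (.sp 355 (.cA 99 8) (.sp 398 (.cB 396 0 1 4) (.sp 358 (.sp
  362 (.sp 334 (.cB 326 3 5 7) c25) (.cC 354 2)) (.cC 354 3)))) (.cC 75 4)) (.cC 404 1)) (.cC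
  404 3)))))))))))) (.cC 83 3)) (.cC 263 7)))) (.cC 450 2))))))))

def c27 : Tr := .sp 271 (.cB 15 4 5 8) (.sp 457 (.cA 54 0) (.sp 458 (.cA 53 1) (.sp 460 (.cA 51
  2) (.sp 103 (.cB 39 3 4 6) (.sp 167 (.cB 39 3 4 7) (.sp 295 (.cB 39 3 4 8) (.sp 87 (.cB 23 3 5
  6) (.sp 151 (.cB 23 3 5 7) (.sp 279 (.cB 23 3 5 8) (.sp 155 (.cB 27 2 6 7) (.sp 283 (.cB 27 2
  6 8) (.sp 453 (.sp 454 (.sp 313 (.cA 198 8) (.sp 314 (.cA 197 8) (.sp 376 (.sp 440 (.sp 316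
  (.cB 312 2 6 7) (.sp 421 (.cA 90 0) (.sp 422 (.cA 89 1) (.sp 428 (.cA 83 3) (.sp 436 (.cA 75
  4) (.sp 115 (.cA 396 0) (.sp 118 (.cA 393 2) (.sp 122 (.cA 389 3) (.sp 242 (.cA 269 7) (.sp
  370 (.cA 141 5) (.sp 339 (.cA 172 0) (.sp 342 (.cA 169 2) c26)))))))))))) (.cC 71 8)) (.cC 135
  8)))) (.cC 452 0)) (.cC 452 1)))))))))))))

def c28 : Tr := .cut [(31, true), (47, true), (55, true), (59, false), (199, false), (91, true),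
  (397, true), (107, false), (173, true)] (.sp 481 (.cA 30 0) (.sp 482 (.cA 29 1) (.sp 484 (.cA
  27 2) (.sp 488 (.cA 23 3) (.sp 496 (.cA 15 4) (.sp 465 (.cA 46 0) (.sp 466 (.cA 45 1) (.sp 468
  (.cA 43 2) (.sp 472 (.cA 39 3) (.sp 79 (.cB 15 4 5 6) (.sp 143 (.cB 15 4 5 7) c27)))))))))))
  (.sp 173 (.ref 3 [0, 1, 2, 3, 4, 5, 6, 7, 8]) (.sp 301 (.sp 211 (.cA 300 0) (.sp 214 (.cA 297
  2) (.sp 218 (.cA 293 3) (.sp 285 (.cB 269 4 5 7) (.sp 333 (.cB 269 5 6 7) (.sp 203 (.sp 339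
  (.sp 309 (.cA 202 0) (.sp 357 (.sp 230 (.sp 234 (.sp 341 (.cB 325 4 5 7) (.sp 206 (.cB 202 0 2
  5) (.sp 310 (.cA 201 1) (.sp 372 (.cA 139 6) (.sp 331 (.cB 75 4 7 8) (.sp 174 (.cA 337 1) (.sp
  236 (.cA 275 6) (.sp 158 (.cA 353 2) (.sp 345 (.cA 166 6) (.sp 369 (.sp 182 (.ref 3 [0, 1, 2,
  3, 4, 5, 6, 8, 7]) (.cC 54 0)) (.cC 337 1))))))))))) (.cC 277 6)) (.cC 281 6)) (.cC 154 2)))
  (.cC 83 3)) (.cC 195 8))))))) (.cC 45 1)))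

def c29 : Tr := .cut [(31, true), (47, true), (55, true), (59, false), (199, false), (91, true),
  (397, true), (107, true)] (.sp 481 (.cA 30 0) (.sp 482 (.cA 29 1) (.sp 484 (.cA 27 2) (.sp 488
  (.cA 23 3) (.sp 496 (.cA 15 4) (.sp 465 (.cA 46 0) (.sp 466 (.cA 45 1) (.sp 468 (.cA 43 2)
  (.sp 472 (.cA 39 3) (.sp 79 (.cB 15 4 5 6) (.sp 143 (.cB 15 4 5 7) (.sp 271 (.cB 15 4 5 8)
  (.sp 457 (.cA 54 0) (.sp 458 (.cA 53 1) (.sp 460 (.cA 51 2) (.sp 103 (.cB 39 3 4 6) (.sp 167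
  (.cB 39 3 4 7) (.sp 295 (.cB 39 3 4 8) (.sp 87 (.cB 23 3 5 6) (.sp 151 (.cB 23 3 5 7) (.sp 279
  (.cB 23 3 5 8) (.sp 171 (.cB 43 2 6 7) (.sp 299 (.cB 43 2 6 8) (.sp 155 (.cB 27 2 6 7) (.sp
  283 (.cB 27 2 6 8) (.sp 453 (.sp 454 (.sp 313 (.cA 198 8) c23) (.cC 452 0)) (.cC 452
  1))))))))))))))))))))))))))) (.sp 107 (.ref 2 [0, 1, 2, 3, 4, 5, 6, 7, 8]) (.sp 406 (.sp 412
  (.sp 109 (.cA 402 2) (.sp 398 (.cB 390 3 4 6) (.sp 233 (.cA 278 7) (.sp 361 (.cA 150 8) (.sp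
  409 (.cB 408 0 2 5) (.sp 410 (.cB 408 1 2 5) (.sp 227 (.cA 284 7) (.sp 355 (.cA 156 8)
  c28)))))))) (.cC 404 1)) (.cC 404 3)))

def c30 : Tr := .sp 155 (.cB 27 2 6 7) (.sp 283 (.cB 27 2 6 8) (.sp 453 (.sp 454 (.sp 313 (.cA
  198 8) (.sp 314 (.cA 197 8) (.sp 376 (.sp 440 (.sp 316 (.cB 312 2 6 7) (.sp 421 (.cA 90 0)
  (.sp 422 (.cA 89 1) (.sp 428 (.cA 83 3) (.sp 436 (.cA 75 4) (.sp 115 (.cA 396 0) (.sp 118 (.cA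
  393 2) (.sp 122 (.cA 389 3) (.sp 242 (.cA 269 7) (.sp 370 (.cA 141 8) (.sp 62 (.cA 449 2) (.sp
  61 (.cA 450 2) (.sp 451 (.sp 327 (.cA 71 8) (.sp 391 (.cA 135 8) (.sp 248 (.sp 405 (.cB 389 3
  4 6) (.sp 186 (.cA 325 7) (.sp 121 (.cA 390 6) (.sp 185 (.cA 326 7) (.sp 124 (.cB 120 2 7 8)
  (.sp 188 (.cB 184 2 6 8) c29)))))) (.cC 263 7)))) (.cC 449 2)))))))))))))) (.cC 71 8)) (.cC
  135 8)))) (.cC 452 0)) (.cC 452 1)))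

def c31 : Tr := .sp 124 (.cB 120 2 7 8) (.sp 188 (.cB 184 2 6 8) (.cut [(31, true), (47, true),
  (55, true), (59, false), (199, false), (91, true), (397, true)] (.sp 481 (.cA 30 0) (.sp 482
  (.cA 29 1) (.sp 484 (.cA 27 2) (.sp 488 (.cA 23 3) (.sp 496 (.cA 15 4) (.sp 465 (.cA 46 0)
  (.sp 466 (.cA 45 1) (.sp 468 (.cA 43 2) (.sp 472 (.cA 39 3) (.sp 79 (.cB 15 4 5 6) (.sp 143
  (.cB 15 4 5 7) (.sp 271 (.cB 15 4 5 8) (.sp 457 (.cA 54 0) (.sp 458 (.cA 53 1) (.sp 460 (.cA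
  51 2) (.sp 103 (.cB 39 3 4 6) (.sp 167 (.cB 39 3 4 7) (.sp 295 (.cB 39 3 4 8) (.sp 87 (.cB 23
  3 5 6) (.sp 151 (.cB 23 3 5 7) (.sp 279 (.cB 23 3 5 8) c30))))))))))))))))))))) (.sp 397 (.ref
  2 [0, 1, 2, 3, 4, 5, 6, 7, 8]) (.sp 405 (.sp 107 (.cA 404 0) (.sp 110 (.cA 401 2) (.sp 234
  (.cA 277 7) (.sp 362 (.cA 149 8) (.ref 2 [0, 1, 2, 4, 3, 5, 6, 7, 8]))))) (.cC 389 6)))))

def c32 : Tr := .sp 460 (.cA 51 2) (.sp 103 (.cB 39 3 4 6) (.sp 167 (.cB 39 3 4 7) (.sp 295 (.cB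
  39 3 4 8) (.sp 87 (.cB 23 3 5 6) (.sp 151 (.cB 23 3 5 7) (.sp 279 (.cB 23 3 5 8) (.sp 155 (.cB
  27 2 6 7) (.sp 283 (.cB 27 2 6 8) (.sp 453 (.sp 454 (.sp 313 (.cA 198 8) (.sp 314 (.cA 197 8)
  (.sp 376 (.sp 440 (.sp 316 (.cB 312 2 6 7) (.sp 421 (.cA 90 0) (.sp 422 (.cA 89 1) (.sp 428
  (.cA 83 3) (.sp 436 (.cA 75 4) (.sp 62 (.cA 449 2) (.sp 61 (.cA 450 2) (.sp 451 (.sp 327 (.cA
  71 8) (.sp 391 (.cA 135 8) (.sp 248 (.sp 122 (.cA 389 6) (.sp 186 (.cA 325 7) (.sp 121 (.cA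
  390 6) (.sp 185 (.cA 326 7) c31)))) (.cC 263 7)))) (.cC 449 2))))))))) (.cC 71 8)) (.cC 135
  8)))) (.cC 452 0)) (.cC 452 1))))))))))

def c33 : Tr := .sp 103 (.cB 39 3 4 6) (.sp 167 (.cB 39 3 4 7) (.sp 295 (.cB 39 3 4 8) (.sp 87
  (.cB 23 3 5 6) (.sp 151 (.cB 23 3 5 7) (.sp 279 (.cB 23 3 5 8) (.sp 283 (.cB 27 2 7 8) (.sp
  453 (.sp 454 (.sp 313 (.cA 198 8) (.sp 314 (.cA 197 8) (.sp 376 (.sp 440 (.sp 316 (.cB 312 2 6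
  7) (.sp 357 (.cA 154 0) (.sp 358 (.cA 153 1) (.sp 364 (.cA 147 3) (.sp 372 (.cA 139 4) (.sp 62
  (.cA 449 2) (.sp 61 (.cA 450 2) (.sp 451 (.sp 327 (.cA 71 8) (.sp 391 (.cA 135 8) (.sp 248
  (.sp 122 (.cA 389 6) (.sp 186 (.cA 325 7) (.sp 121 (.cA 390 6) (.sp 185 (.cA 326 7) (.sp 124
  (.cB 120 2 7 8) (.sp 188 (.cB 184 2 6 8) (.ref 2 [0, 1, 2, 3, 4, 5, 7, 6, 8]))))))) (.cC 263
  7)))) (.cC 449 2))))))))) (.cC 71 8)) (.cC 135 8)))) (.cC 452 0)) (.cC 452 1))))))))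

def c34 : Tr := .cut [(31, true), (47, true), (55, true), (59, false), (199, false), (91, true)]
  (.sp 481 (.cA 30 0) (.sp 482 (.cA 29 1) (.sp 484 (.cA 27 2) (.sp 488 (.cA 23 3) (.sp 496 (.cA
  15 4) (.sp 465 (.cA 46 0) (.sp 466 (.cA 45 1) (.sp 468 (.cA 43 2) (.sp 472 (.cA 39 3) (.sp 79
  (.cB 15 4 5 6) (.sp 143 (.cB 15 4 5 7) (.sp 271 (.cB 15 4 5 8) (.sp 457 (.cA 54 0) (.sp 458
  (.cA 53 1) c32)))))))))))))) (.sp 91 (.ref 2 [0, 1, 2, 3, 4, 5, 6, 7, 8]) (.cut [(31, true),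
  (47, true), (55, true), (59, false), (199, false), (91, false), (155, true)] (.sp 481 (.cA 30
  0) (.sp 482 (.cA 29 1) (.sp 484 (.cA 27 2) (.sp 488 (.cA 23 3) (.sp 496 (.cA 15 4) (.sp 465
  (.cA 46 0) (.sp 466 (.cA 45 1) (.sp 468 (.cA 43 2) (.sp 472 (.cA 39 3) (.sp 79 (.cB 15 4 5 6)
  (.sp 143 (.cB 15 4 5 7) (.sp 271 (.cB 15 4 5 8) (.sp 457 (.cA 54 0) (.sp 458 (.cA 53 1) (.sp
  460 (.cA 51 2) c33))))))))))))))) (.sp 155 (.ref 3 [0, 1, 2, 3, 4, 5, 6, 7, 8]) (.sp 283 (.sp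
  229 (.cA 282 0) (.sp 230 (.cA 281 1) (.sp 236 (.cA 275 3) (.sp 244 (.cA 267 4) (.ref 3 [0, 1,
  2, 3, 4, 5, 6, 8, 7]))))) (.cC 27 2)))))

def c35 : Tr := .cut [(31, true), (47, true), (55, true), (59, true)] (.sp 481 (.cA 30 0) (.sp
  482 (.cA 29 1) (.sp 484 (.cA 27 2) (.sp 488 (.cA 23 3) (.sp 496 (.cA 15 4) (.sp 465 (.cA 46 0)
  (.sp 466 (.cA 45 1) (.sp 468 (.cA 43 2) (.sp 472 (.cA 39 3) (.sp 79 (.cB 15 4 5 6) (.sp 143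
  (.cB 15 4 5 7) (.sp 271 (.cB 15 4 5 8) (.sp 457 (.cA 54 0) (.sp 458 (.cA 53 1) (.sp 460 (.cA
  51 2) (.sp 103 (.cB 39 3 4 6) (.sp 167 (.cB 39 3 4 7) (.sp 295 (.cB 39 3 4 8) (.sp 87 (.cB 23
  3 5 6) (.sp 151 (.cB 23 3 5 7) (.sp 279 (.cB 23 3 5 8) (.sp 453 (.cA 58 0) (.sp 454 (.cA 57 1)
  (.sp 115 (.cB 51 2 3 6) (.sp 179 (.cB 51 2 3 7) (.sp 307 (.cB 51 2 3 8) (.sp 107 (.cB 43 2 4
  6) (.sp 171 (.cB 43 2 4 7) (.sp 299 (.cB 43 2 4 8) c14))))))))))))))))))))))))))))) (.sp 59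
  (.ref 0 [0, 1, 2, 3, 4, 5, 6, 7, 8]) (.sp 453 (.sp 454 (.sp 62 (.cA 449 2) (.sp 122 (.cA 389
  6) (.sp 186 (.cA 325 7) (.sp 314 (.cA 197 8) (.sp 61 (.cA 450 2) (.sp 121 (.cA 390 6) (.sp 185
  (.cA 326 7) (.sp 313 (.cA 198 8) (.sp 451 (.sp 124 (.cA 60 6) (.sp 188 (.cA 60 7) (.sp 316
  (.cA 60 8) (.cut [(31, true), (47, true), (55, true), (59, false), (199, true)] (.sp 481 (.cA
  30 0) (.sp 482 (.cA 29 1) (.sp 484 (.cA 27 2) (.sp 488 (.cA 23 3) (.sp 496 (.cA 15 4) (.sp 465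
  (.cA 46 0) (.sp 466 (.cA 45 1) c16))))))) (.sp 199 (.ref 1 [0, 1, 2, 3, 4, 5, 6, 7, 8]) (.sp
  376 (.sp 440 (.sp 391 (.cA 120 8) (.sp 327 (.cA 184 8) (.sp 248 c34 (.cC 263 7)))) (.cC 71 8))
  (.cC 135 8))))))) (.cC 449 2)))))))))) (.cC 452 0)) (.cC 452 1)))

def c36 : Tr := .sp 115 (.sp 397 (.cA 114 0) (.sp 117 (.cB 113 1 2 7) (.sp 107 (.cB 99 2 3 4)
  (.sp 227 (.cB 99 2 4 7) (.sp 91 (.cB 83 2 3 5) (.sp 211 (.cB 83 2 5 7) (.sp 460 (.cA 51 6)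
  (.sp 395 (.sp 370 (.sp 372 (.cA 116 8) (.sp 458 (.sp 157 (.cA 354 4) (.sp 173 (.cA 338 5) (.sp
  205 (.cA 306 6) (.sp 61 (.cA 450 3) (.sp 309 (.cA 202 8) (.ref 0 [0, 1, 6, 2, 4, 5, 3, 7,
  8])))))) (.cC 394 0))) (.cC 114 0)) (.cC 393 6))))))))) (.sp 397 (.sp 117 (.sp 460 (.sp 395
  (.cB 393 1 2 6) (.sp 370 (.cA 141 8) (.sp 372 (.sp 109 (.cB 101 1 3 4) (.sp 229 (.cB 101 1 4
  7) (.sp 93 (.cB 85 1 3 5) (.sp 213 (.cB 85 1 5 7) (.sp 458 (.cA 53 6) (.sp 59 (.cA 452 3) (.sp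
  307 (.cA 204 8) (.sp 155 (.cA 139 4) (.sp 171 (.cA 139 5) (.sp 203 (.cA 139 6) (.ref 0 [0, 2,
  6, 1, 4, 5, 3, 7, 8]))))))))))) (.cC 116 0)))) (.cC 396 0)) (.cC 113 7)) (.cC 114 8))

def c37 : Tr := .sp 107 (.sp 405 (.cA 106 0) (.sp 109 (.cB 105 1 2 7) (.sp 227 (.cB 99 2 3 7)
  (.sp 436 (.cA 75 5) (.sp 59 (.cB 43 2 4 6) (.sp 171 (.cB 43 2 6 7) (.sp 403 (.sp 362 (.sp 364
  (.cA 108 8) (.sp 229 (.sp 434 (.sp 316 (.sp 341 (.sp 157 (.cA 354 3) (.sp 181 (.cA 330 5) (.sp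
  314 (.cB 298 2 4 6) (.sp 283 (.cA 228 0) (.sp 453 (.sp 346 (.cA 165 6) (.sp 93 (.cA 418 4)
  (.sp 333 (.cA 178 8) (.sp 451 (.cA 60 8) (.sp 186 (.cA 325 4) (.ref 0 [0, 1, 5, 2, 3, 6, 4, 7,
  8])))))) (.cC 197 5)))))) (.cC 170 4)) (.cC 195 8)) (.cC 402 0)) (.cC 101 1))) (.cC 106 0))
  (.cC 401 5)))))))) (.sp 405 (.sp 109 (.sp 227 (.sp 436 (.sp 403 (.cB 401 1 2 5) (.sp 362 (.cA
  149 8) (.sp 364 (.sp 229 (.cB 101 1 3 7) (.sp 434 (.cA 77 5) (.sp 61 (.cB 45 1 4 6) (.sp 173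
  (.cB 45 1 6 7) (.sp 285 (.cA 226 0) (.sp 316 (.cA 195 5) (.sp 348 (.cA 163 6) (.sp 91 (.cA 420
  4) (.sp 331 (.cA 180 8) (.sp 155 (.cA 147 3) (.sp 179 (.cA 147 5) (.sp 314 (.sp 453 (.cA 197
  8) (.sp 451 (.sp 339 (.sp 188 (.cA 60 7) (.ref 0 [0, 2, 5, 1, 3, 6, 4, 7, 8])) (.cC 172 4))
  (.cC 60 7))) (.cC 298 2))))))))))))) (.cC 108 0)))) (.cC 404 0)) (.cC 99 2)) (.cC 105 7)) (.cC
  106 8))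

def c38 : Tr := .sp 214 (.sp 299 (.cA 212 1) (.sp 301 (.cA 210 2) (.sp 313 (.cA 198 4) (.sp 406
  (.cB 150 3 6 8) (.sp 342 (.cB 86 0 7 8) (.sp 233 (.sp 234 (.cB 232 0 1 4) (.sp 236 (.cB 232 0
  2 4) (.sp 203 (.cB 201 1 5 8) (.sp 205 (.cB 201 2 5 8) c37)))) (.cC 278 7))))))) (.sp 406 (.sp
  342 (.sp 107 (.cA 404 1) (.sp 109 (.cA 402 2) (.sp 422 (.cB 390 3 4 5) (.sp 454 (.cB 390 3 4
  6) (.sp 233 (.cA 278 6) (.sp 171 (.cA 340 1) (.sp 173 (.cA 338 2) (.sp 185 (.cA 326 4) (.sp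
  227 (.sp 229 (.sp 358 (.sp 345 (.sp 313 (.sp 348 (.cA 163 6) (.sp 346 (.cA 165 6) (.sp 155
  (.cA 153 1) (.sp 157 (.cA 153 2) (.sp 285 (.cA 226 0) (.sp 316 (.cA 195 5) (.sp 283 (.cA 228
  0) (.sp 314 (.cA 197 5) (.sp 230 (.cB 102 0 7 8) (.sp 331 (.cB 329 1 4 7) (.sp 333 (.cB 329 2
  4 7) (.sp 307 (.cB 305 1 3 7) (.sp 309 (.cB 305 2 3 7) (.ref 0 [0, 5, 6, 1, 2, 7, 3, 4,
  8])))))))))))))) (.cC 198 5)) (.cC 166 6)) (.cC 294 3)) (.cC 101 1)) (.cC 99 2)))))))))) (.cC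
  86 0)) (.cC 150 3))

def c39 : Tr := .sp 107 (.sp 405 (.cA 106 0) (.sp 109 (.cB 105 1 2 8) (.sp 355 (.cB 99 2 3 8)
  (.sp 436 (.cA 75 5) (.sp 59 (.cB 43 2 4 6) (.sp 299 (.cB 43 2 6 8) (.sp 403 (.sp 234 (.sp 236
  (.cA 108 7) (.sp 357 (.sp 434 (.sp 188 (.sp 213 (.sp 285 (.cA 226 3) (.sp 309 (.cA 202 5) (.sp
  186 (.cB 170 2 4 6) (.sp 155 (.cA 356 0) (.sp 453 (.sp 218 (.cA 293 6) (.sp 93 (.cA 418 4)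
  (.sp 205 (.cA 306 7) (.sp 451 (.cA 60 7) (.sp 314 (.cA 197 4) (.ref 0 [0, 1, 5, 2, 3, 6, 4, 7,
  8])))))) (.cC 325 5)))))) (.cC 298 4)) (.cC 323 7)) (.cC 402 0)) (.cC 101 1))) (.cC 106 0))
  (.cC 401 5)))))))) (.sp 405 (.sp 109 (.sp 355 (.sp 436 (.sp 403 (.cB 401 1 2 5) (.sp 234 (.cA
  277 7) (.sp 236 (.sp 357 (.cB 101 1 3 8) (.sp 434 (.cA 77 5) (.sp 61 (.cB 45 1 4 6) (.sp 301
  (.cB 45 1 6 8) (.sp 157 (.cA 354 0) (.sp 188 (.cA 323 5) (.sp 220 (.cA 291 6) (.sp 91 (.cA 420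
  4) (.sp 203 (.cA 308 7) (.sp 283 (.cA 275 3) (.sp 307 (.cA 275 5) (.sp 186 (.sp 453 (.cA 325
  7) (.sp 451 (.sp 211 (.sp 316 (.cA 60 8) (.ref 0 [0, 2, 5, 1, 3, 6, 4, 7, 8])) (.cC 300 4))
  (.cC 60 8))) (.cC 170 2))))))))))))) (.cC 108 0)))) (.cC 404 0)) (.cC 99 2)) (.cC 105 8)) (.cC
  106 7))

def c40 : Tr := .sp 214 (.sp 299 (.cA 212 1) (.sp 301 (.cA 210 2) (.sp 313 (.cA 198 4) (.sp 361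
  (.cA 150 6) (.sp 342 (.cB 86 0 7 8) (.sp 355 (.sp 357 (.sp 406 (.sp 157 (.cA 354 0) (.sp 188
  (.cA 323 5) (.sp 220 (.cA 291 6) (.sp 107 (.cB 99 2 3 8) (.sp 155 (.cA 356 0) (.sp 186 (.cA
  325 5) (.sp 218 (.cA 293 6) (.sp 109 (.cB 101 1 3 8) (.sp 422 (.cB 390 3 4 5) (.sp 454 (.cB
  390 3 4 6) (.sp 185 (.sp 217 (.sp 358 (.cA 153 5) (.sp 230 (.sp 179 (.cB 177 1 3 8) (.sp 181
  (.cB 177 2 3 8) (.sp 203 (.cB 201 1 4 8) (.sp 205 (.cB 201 2 4 8) (.sp 283 (.cA 228 1) (.sp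
  285 (.cA 226 2) (.ref 0 [0, 5, 6, 1, 2, 8, 3, 4, 7]))))))) (.cC 166 3))) (.cC 216 5)) (.cC 184
  6)))))))))))) (.cC 150 6)) (.cC 353 1)) (.cC 353 2))))))) (.sp 361 (.sp 342 (.sp 362 (.cB 360
  0 1 4) (.sp 364 (.cB 360 0 2 4) (.sp 331 (.cB 329 1 5 7) (.sp 333 (.cB 329 2 5 7) (.sp 406
  (.cA 105 8) (.sp 171 (.cA 340 1) (.sp 173 (.cA 338 2) (.sp 185 (.cA 326 4) c39)))))))) (.cC 86
  0)) (.cC 150 8))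

def c41 : Tr := .sp 115 (.sp 397 (.cA 114 0) (.sp 117 (.cB 113 1 2 8) (.sp 107 (.cB 99 2 3 4)
  (.sp 355 (.cB 99 2 4 8) (.sp 91 (.cB 83 2 3 5) (.sp 339 (.cB 83 2 5 8) (.sp 460 (.cA 51 6)
  (.sp 395 (.sp 242 (.sp 244 (.cA 116 7) (.sp 458 (.sp 285 (.cA 226 4) (.sp 301 (.cA 210 5) (.sp
  333 (.cA 178 6) (.sp 61 (.cA 450 3) (.sp 181 (.cA 330 7) (.ref 0 [0, 1, 6, 2, 4, 5, 3, 7,
  8])))))) (.cC 394 0))) (.cC 114 0)) (.cC 393 6))))))))) (.sp 397 (.sp 117 (.sp 460 (.sp 395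
  (.cB 393 1 2 6) (.sp 242 (.cA 269 7) (.sp 244 (.sp 109 (.cB 101 1 3 4) (.sp 357 (.cB 101 1 4
  8) (.sp 93 (.cB 85 1 3 5) (.sp 341 (.cB 85 1 5 8) (.sp 458 (.cA 53 6) (.sp 59 (.cA 452 3) (.sp
  179 (.cA 332 7) (.sp 283 (.cA 267 4) (.sp 299 (.cA 267 5) (.sp 331 (.cA 267 6) (.ref 0 [0, 2,
  6, 1, 4, 5, 3, 7, 8]))))))))))) (.cC 116 0)))) (.cC 396 0)) (.cC 113 8)) (.cC 114 7))

def c42 : Tr := .sp 158 (.sp 355 (.cA 156 1) (.sp 357 (.cA 154 2) (.sp 361 (.cA 150 3) (.sp 369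
  (.cA 142 4) (.sp 286 (.cB 30 0 7 8) (.sp 174 (.sp 339 (.cA 172 1) (.sp 341 (.cA 170 2) (.sp
  345 (.cA 166 3) (.sp 398 (.cB 142 4 5 8) (.sp 302 (.cB 46 0 7 8) (.sp 241 (.sp 242 (.cB 240 0
  1 3) (.sp 244 (.cB 240 0 2 3) (.sp 179 (.cB 177 1 6 8) (.sp 181 (.cB 177 2 6 8) (.sp 185 (.cB
  177 3 6 8) c36))))) (.cC 270 7))))))) (.sp 398 (.sp 302 (.sp 115 (.cA 396 1) (.sp 117 (.cA 394
  2) (.sp 241 (.cA 270 5) (.sp 211 (.cA 300 1) (.sp 213 (.cA 298 2) (.sp 217 (.cA 294 3)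
  c38)))))) (.cC 46 0)) (.cC 142 4)))))))) (.sp 286 (.sp 227 (.cA 284 1) (.sp 229 (.cA 282 2)
  (.sp 233 (.cA 278 3) (.sp 241 (.cA 270 4) (.sp 174 (.sp 339 (.cA 172 1) (.sp 341 (.cA 170 2)
  (.sp 345 (.cA 166 3) (.sp 369 (.cA 142 5) (.sp 302 (.cB 46 0 7 8) (.sp 398 (.sp 115 (.cA 396
  1) (.sp 117 (.cA 394 2) c40)) (.cC 142 5))))))) (.sp 369 (.sp 302 (.sp 370 (.cB 368 0 1 3)
  (.sp 372 (.cB 368 0 2 3) (.sp 307 (.cB 305 1 6 7) (.sp 309 (.cB 305 2 6 7) (.sp 313 (.cB 305 3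
  6 7) (.sp 398 (.cA 113 8) (.sp 211 (.cA 300 1) (.sp 213 (.cA 298 2) (.sp 217 (.cA 294 3)
  c41))))))))) (.cC 46 0)) (.cC 142 8))))))) (.cC 30 0))

def c43 : Tr := .sp 62 (.sp 451 (.cA 60 1) (.sp 453 (.cA 58 2) (.sp 174 (.cB 46 0 4 7) (.sp 302
  (.cB 46 0 4 8) (.sp 158 (.cB 30 0 5 7) (.sp 286 (.cB 30 0 5 8) (.sp 454 (.sp 369 (.sp 241 (.sp
  398 (.cA 142 8) (.sp 185 (.cA 326 7) (.sp 313 (.cA 198 8) (.sp 370 (.cB 368 0 1 3) (.sp 372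
  (.cB 368 0 2 3) (.sp 242 (.cB 240 0 1 3) (.sp 244 (.cB 240 0 2 3) (.sp 397 (.sp 395 (.sp 118
  (.cA 114 2) (.ref 0 [0, 4, 5, 6, 7, 8, 1, 2, 3])) (.cC 394 6)) (.cC 396 6))))))))) (.cC 270
  7)) (.cC 142 8)) (.cC 450 3)))))))) (.sp 451 (.sp 453 (.sp 454 (.cB 450 0 2 3) (.sp 188 (.cA
  323 7) (.sp 316 (.cA 195 8) (.sp 186 (.cA 325 7) (.sp 314 (.cA 197 8) (.sp 185 (.sp 313 (.sp
  241 (.cB 177 3 6 8) (.sp 342 (.cA 169 4) (.sp 358 (.cA 153 5) (.sp 369 (.cB 305 3 6 7) (.sp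
  214 (.cA 297 4) (.sp 230 (.cA 281 5) (.sp 398 (.sp 118 (.sp 397 (.cB 396 0 1 6) (.sp 395 (.cB
  394 0 2 6) (.ref 0 [0, 4, 5, 3, 7, 8, 1, 2, 6]))) (.cC 86 0)) (.cC 113 8)))))))) (.cC 57 7))
  (.cC 57 8))))))) (.cC 449 1)) (.cC 449 2))

def c44 : Tr := .sp 361 (.sp 233 (.sp 118 (.sp 206 (.sp 334 (.sp 403 (.sp 405 (.sp 214 (.cA 150
  6) (.sp 406 (.cA 150 8) (.sp 369 (.cA 142 6) (.sp 342 (.cA 278 6) (.sp 241 (.cA 270 6) (.sp 61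
  (.cA 450 3) (.sp 117 (.cA 394 6) (.sp 181 (.cA 330 2) (.sp 309 (.cA 202 2) (.sp 59 (.cA 452 3)
  (.sp 115 (.cA 396 6) (.sp 179 (.cA 332 1) (.sp 307 (.cA 204 1) (.sp 362 (.cB 360 0 1 4) (.sp
  364 (.cB 360 0 2 4) (.sp 234 (.cB 232 0 1 4) (.sp 236 (.cB 232 0 2 4) (.sp 395 (.cA 116 1)
  (.sp 397 (.cA 114 2) (.sp 313 (.cA 198 3) (.sp 398 (.sp 185 (.cA 326 3) (.sp 454 (.ref 0 [1,
  2, 3, 0, 4, 5, 6, 7, 8]) (.cC 198 3))) (.cC 142 6)))))))))))))))))))))) (.cC 401 1)) (.cC 401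
  2)) (.cC 78 7)) (.cC 78 8)) (.cC 54 3)) (.cC 201 4)) (.cC 329 4)

def c45 : Tr := .sp 422 (.cB 418 0 2 4) (.sp 220 (.cA 291 7) (.sp 348 (.cA 163 8) (.sp 218 (.cA
  293 7) (.sp 346 (.cA 165 8) (.sp 217 (.sp 345 (.sp 302 (.cA 209 3) (.sp 310 (.cA 201 4) (.sp
  358 (.cA 153 6) (.sp 174 (.cA 337 3) (.sp 182 (.cA 329 4) (.sp 230 (.cA 281 6) (.sp 62 (.sp
  451 (.cA 60 1) (.sp 453 (.cA 58 2) (.sp 457 (.cA 54 3) (.sp 110 (.cB 46 0 4 6) (.sp 158 (.cB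
  30 0 5 7) (.sp 286 (.cB 30 0 5 8) (.sp 458 (.sp 460 c44 (.cC 456 1)) (.cC 456 2)))))))) (.sp
  457 (.sp 110 (.sp 118 (.cA 393 6) (.sp 361 (.cB 329 4 5 7) (.sp 233 (.cB 201 4 5 8) (.sp 403
  (.cA 108 1) (.sp 405 (.cA 106 2) (.sp 406 (.ref 0 [0, 3, 6, 4, 7, 8, 1, 2, 5]) (.cC 105
  8))))))) (.cC 46 0)) (.cC 54 6))))))))) (.cC 89 7)) (.cC 89 8))))))

def c46 : Tr := .sp 433 (.sp 94 (.cA 417 4) (.sp 110 (.cA 401 5) (.sp 206 (.cA 305 7) (.sp 334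
  (.cA 177 8) (.sp 457 (.sp 62 (.cA 449 3) (.sp 118 (.cA 393 6) (.sp 182 (.cA 329 7) (.sp 310
  (.cA 201 8) c42)))) (.sp 458 (.sp 460 (.sp 61 (.cA 450 3) (.sp 117 (.cA 394 6) (.sp 181 (.cA
  330 7) (.sp 309 (.cA 202 8) (.sp 59 (.cA 452 3) (.sp 115 (.cA 396 6) (.sp 179 (.cA 332 7) (.sp
  307 (.cA 204 8) c43)))))))) (.cC 456 1)) (.cC 456 2))))))) (.sp 434 (.sp 436 (.sp 93 (.cA 418
  4) (.sp 109 (.cA 402 5) (.sp 205 (.cA 306 7) (.sp 333 (.cA 178 8) (.sp 91 (.cA 420 4) (.sp 107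
  (.cA 404 5) (.sp 203 (.cA 308 7) (.sp 331 (.cA 180 8) (.sp 94 (.sp 419 (.cA 92 1) (.sp 421
  (.cA 90 2) (.sp 118 (.cB 86 0 3 5) (.sp 214 (.cB 86 0 3 7) (.sp 342 (.cB 86 0 3 8) (.sp 62
  (.cB 30 0 5 6) (.sp 158 (.cB 30 0 6 7) (.sp 286 (.cB 30 0 6 8) (.sp 422 (.sp 217 (.cA 294 7)
  (.sp 345 (.cA 166 8) (.ref 0 [1, 2, 4, 0, 3, 6, 5, 7, 8]))) (.cC 418 4)))))))))) (.sp 419 (.sp
  421 c45 (.cC 417 1)) (.cC 417 2))))))))))) (.cC 432 1)) (.cC 432 2))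

def c47 : Tr := .sp 484 (.cA 27 2) (.sp 488 (.cA 23 3) (.sp 496 (.cA 15 4) (.sp 465 (.cA 46 0)
  (.sp 466 (.cA 45 1) (.sp 468 (.cA 43 2) (.sp 472 (.cA 39 3) (.sp 79 (.cB 15 4 5 6) (.sp 143
  (.cB 15 4 5 7) (.sp 271 (.cB 15 4 5 8) (.sp 425 (.cA 86 0) (.sp 426 (.cA 85 1) (.sp 428 (.cA
  83 2) (.sp 440 (.cA 71 4) (.sp 55 (.cB 23 3 5 6) (.sp 151 (.cB 23 3 6 7) (.sp 279 (.cB 23 3 6
  8) (.sp 409 (.cA 102 0) (.sp 410 (.cA 101 1) (.sp 412 (.cA 99 2) (.sp 199 (.cB 71 4 5 7) (.sp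
  327 (.cB 71 4 5 8) (.sp 167 (.cB 39 3 6 7) (.sp 295 (.cB 39 3 6 8) (.sp 376 (.sp 248 (.sp 391
  (.cA 135 8) (.sp 121 (.cB 120 0 7 8) (.sp 122 (.cB 120 1 7 8) (.sp 124 (.cB 120 2 7 8) c46))))
  (.cC 263 7)) (.cC 135 8)))))))))))))))))))))))))

def c48 : Tr := .sp 451 (.sp 61 (.cA 450 0) (.sp 453 (.cB 449 1 2 3) (.sp 124 (.cA 387 6) (.sp
  188 (.cA 323 7) (.sp 316 (.cA 195 8) (.sp 59 (.sp 454 (.cA 57 1) (.sp 460 (.cA 51 3) (.sp 107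
  (.cB 43 2 4 6) (.sp 171 (.cB 43 2 4 7) (.sp 299 (.cB 43 2 4 8) (.sp 91 (.cB 27 2 5 6) (.sp 155
  (.cB 27 2 5 7) (.sp 283 (.cB 27 2 5 8) (.sp 458 (.sp 117 (.cA 394 6) (.sp 181 (.cA 330 7) (.sp
  309 (.cA 202 8) (.ref 0 [0, 1, 3, 2, 4, 5, 6, 7, 8])))) (.cC 450 0)))))))))) (.sp 454 (.sp 460
  (.sp 458 (.cB 450 0 2 3) (.sp 121 (.cA 390 6) (.sp 185 (.cA 326 7) (.sp 313 (.cA 198 8) (.sp
  115 (.cA 396 6) (.sp 179 (.cA 332 7) (.sp 307 (.cA 204 8) (.ref 1 [6, 7, 8, 0, 1, 3, 2, 4,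
  5])))))))) (.cC 452 1)) (.cC 452 3)))))))) (.sp 453 (.sp 59 (.cA 452 0) (.sp 122 (.cA 389 6)
  (.sp 186 (.cA 325 7) (.sp 314 (.cA 197 8) (.sp 61 (.sp 454 (.cA 57 2) (.sp 458 (.cA 53 3) (.sp
  109 (.cB 45 1 4 6) (.sp 173 (.cB 45 1 4 7) (.sp 301 (.cB 45 1 4 8) (.sp 93 (.cB 29 1 5 6) (.sp
  157 (.cB 29 1 5 7) (.sp 285 (.cB 29 1 5 8) (.sp 460 (.sp 115 (.cA 396 6) (.sp 179 (.cA 332 7)
  (.sp 307 (.cA 204 8) (.ref 0 [0, 2, 3, 1, 4, 5, 6, 7, 8])))) (.cC 452 0)))))))))) (.sp 454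
  (.sp 458 (.sp 460 (.cB 452 0 1 3) (.sp 121 (.cA 390 6) (.sp 185 (.cA 326 7) (.sp 313 (.cA 198
  8) (.sp 117 (.cA 394 6) (.sp 181 (.cA 330 7) (.sp 309 (.cA 202 8) (.ref 1 [6, 7, 8, 0, 2, 3,
  1, 4, 5])))))))) (.cC 450 2)) (.cC 450 3))))))) (.cC 449 3))

def c49 : Tr := .sp 61 (.cA 450 3) (.sp 117 (.cA 394 6) (.sp 181 (.cA 330 7) (.sp 309 (.cA 202
  8) (.sp 59 (.cA 452 3) (.sp 115 (.cA 396 6) (.sp 179 (.cA 332 7) (.sp 307 (.cA 204 8) (.sp 62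
  (.sp 451 (.cA 60 1) (.sp 453 (.cA 58 2) (.sp 110 (.cB 46 0 4 6) (.sp 174 (.cB 46 0 4 7) (.sp
  302 (.cB 46 0 4 8) (.sp 94 (.cB 30 0 5 6) (.sp 158 (.cB 30 0 5 7) (.sp 286 (.cB 30 0 5 8) (.sp
  454 (.sp 121 (.cA 390 6) (.sp 185 (.cA 326 7) (.sp 313 (.cA 198 8) (.ref 0 [1, 2, 3, 0, 4, 5,
  6, 7, 8])))) (.cC 450 3)))))))))) (.sp 451 (.sp 453 (.sp 454 (.cB 450 0 2 3) (.sp 124 (.cA 387
  6) (.sp 188 (.cA 323 7) (.sp 316 (.cA 195 8) (.sp 122 (.cA 389 6) (.sp 186 (.cA 325 7) (.sp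
  314 (.cA 197 8) (.ref 1 [6, 7, 8, 0, 1, 2, 3, 4, 5])))))))) (.cC 449 1)) (.cC 449 2))))))))))

def c50 : Tr := .cut [(31, true), (47, true), (87, true), (103, true)] (.sp 481 (.cA 30 0) (.sp
  482 (.cA 29 1) c47)) (.sp 481 (.cA 30 0) (.sp 482 (.cA 29 1) (.sp 484 (.cA 27 2) (.sp 488 (.cA
  23 3) (.sp 496 (.cA 15 4) (.sp 465 (.cA 46 0) (.sp 466 (.cA 45 1) (.sp 468 (.cA 43 2) (.sp 472
  (.cA 39 3) (.sp 79 (.cB 15 4 5 6) (.sp 143 (.cB 15 4 5 7) (.sp 271 (.cB 15 4 5 8) (.sp 55 (.sp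
  457 (.cA 54 0) (.sp 458 (.cA 53 1) (.sp 460 (.cA 51 2) (.sp 103 (.cB 39 3 4 6) (.sp 167 (.cB
  39 3 4 7) (.sp 295 (.cB 39 3 4 8) (.sp 87 (.cB 23 3 5 6) (.sp 151 (.cB 23 3 5 7) (.sp 279 (.cB
  23 3 5 8) (.ref 0 [0, 1, 2, 3, 4, 5, 6, 7, 8])))))))))) (.sp 457 (.sp 62 (.cA 449 3) (.sp 118
  (.cA 393 6) (.sp 182 (.cA 329 7) (.sp 310 (.cA 201 8) c48)))) (.sp 458 (.sp 460 c49 (.cC 456
  1)) (.cC 456 2))))))))))))))))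

def c51 : Tr := .cut [(31, true), (47, true), (55, true)] (.sp 481 (.cA 30 0) (.sp 482 (.cA 29
  1) (.sp 484 (.cA 27 2) (.sp 488 (.cA 23 3) (.sp 496 (.cA 15 4) (.sp 465 (.cA 46 0) (.sp 466
  (.cA 45 1) (.sp 468 (.cA 43 2) (.sp 472 (.cA 39 3) (.sp 79 (.cB 15 4 5 6) (.sp 143 (.cB 15 4 5
  7) (.sp 271 (.cB 15 4 5 8) (.sp 457 (.cA 54 0) (.sp 458 (.cA 53 1) (.sp 460 (.cA 51 2) (.sp
  103 (.cB 39 3 4 6) (.sp 167 (.cB 39 3 4 7) (.sp 295 (.cB 39 3 4 8) (.sp 87 (.cB 23 3 5 6) (.sp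
  151 (.cB 23 3 5 7) (.sp 279 (.cB 23 3 5 8) c35))))))))))))))))))))) c50

theorem check : chk [] c51 140739635838976 0 = true := by
  decide +kernel

end Pool.Agent.H61.KU.Cert
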