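import Pool.Agent.H61.KU.UnqSound
import Pool.Agent.H61.KU.UnqCert

/-!
# Kuiper board: uniqueness of the family of 4-simplices
-/

namespace Pool.Agent.H61.KU

open Finset

theorem concl_of_two {A : Finset (Finset (Fin 9))} (hA : Good A)
    (h1 : ({0, 1, 2, 3, 4} : Finset (Fin 9)) ∈ A) (h2 : ({0, 1, 2, 3, 5} : Finset (Fin 9)) ∈ A) :
    Concl A := by
  refine sound _ _ _ _ Cert.check (fun ls h => absurd h (List.not_mem_nil)) A hA
    ⟨fun m hm => ?_, fun m hm => ?_⟩
  · have h4 : m ∈ [31, 47] := by
      rw [← testBit_bitsOf]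
      have h5 : bitsOf [31, 47] = 140739635838976 := by decide +kernel
      rw [h5]
      exact hm
    rcases List.mem_cons.1 h4 with rfl | h4
    · have : toS 31 = {0, 1, 2, 3, 4} := by decide +kernel
      rw [this]
      exact h1
    · rw [List.mem_singleton] at h4
      subst h4
      have : toS 47 = {0, 1, 2, 3, 5} := by decide +kernel
      rw [this]
      exact h2
  · rw [Nat.zero_testBit] at hm
    exact Bool.noConfusion hm

/-- Uniqueness: a nonempty family of 5-subsets of a 9-element set which satisfies the conditions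
`Good` is the family of 4-simplices of `CP^2_9`, up to relabelling. -/
theorem unique_of_good {A : Finset (Finset (Fin 9))} (hA : Good A) (hne : A.Nonempty) :
    Concl A := by
  obtain ⟨G, hG⟩ := hne
  have hc := hA.card G hG
  obtain ⟨a, ha⟩ : G.Nonempty := card_pos.1 (by rw [hc]; norm_num)
  have hW : (G.erase a).card = 4 := by rw [card_erase_of_mem ha, hc]
  have haW : a ∉ G.erase a := notMem_erase a G
  have hG' : insert a (G.erase a) ∈ A := by rwa [insert_erase ha]
  have hcomp : (G.erase a)ᶜ ∉ A := fun h => hA.g1 _ hW h a haW hG'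
  obtain ⟨b, hb, hba, hm⟩ := hA.g3 _ hW hcomp a haW
  generalize hWd : G.erase a = W at *
  let w := W.orderEmbOfFin hW
  have hw : ∀ i, w i ∈ W := fun i => orderEmbOfFin_mem W hW i
  have hwr : ∀ x, x ∈ W ↔ ∃ i, w i = x := by
    intro x
    have := Finset.range_orderEmbOfFin W hW
    rw [← mem_coe, ← this]
    rfl
  have hinj : Function.Injective w := w.injective
  have wa : ∀ i, w i ≠ a := fun i h => haW (h ▸ hw i)
  have wb : ∀ i, w i ≠ b := fun i h => hb (h ▸ hw i)
  let l : Fin 6 → Fin 9 := ![w 0, w 1, w 2, w 3, a, b]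
  have hl : Function.Injective l := by
    intro i j hij
    have h01 : w 0 ≠ w 1 := fun h => by simpa using hinj h
    have h02 : w 0 ≠ w 2 := fun h => by simpa using hinj h
    have h03 : w 0 ≠ w 3 := fun h => by simpa using hinj h
    have h12 : w 1 ≠ w 2 := fun h => by simpa using hinj h
    have h13 : w 1 ≠ w 3 := fun h => by simpa using hinj h
    have h23 : w 2 ≠ w 3 := fun h => by simpa using hinj h
    fin_cases i <;> fin_cases j <;> simp [l] at hij ⊢
    all_goals first
      | exact h01 hij | exact h02 hij | exact h03 hij | exact h12 hij | exact h13 hij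
      | exact h23 hij | exact h01 hij.symm | exact h02 hij.symm | exact h03 hij.symm
      | exact h12 hij.symm | exact h13 hij.symm | exact h23 hij.symm
      | exact wa _ hij | exact wb _ hij | exact wa _ hij.symm | exact wb _ hij.symm
      | exact hba hij | exact hba hij.symm
  obtain ⟨σ, hσ⟩ := Equiv.Perm.exists_extending_pair (Fin.castLE (by norm_num) : Fin 6 → Fin 9) l
    (Fin.castLE_injective _) hl
  have s0 : σ 0 = w 0 := hσ 0
  have s1 : σ 1 = w 1 := hσ 1
  have s2 : σ 2 = w 2 := hσ 2
  have s3 : σ 3 = w 3 := hσ 3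
  have s4 : σ 4 = a := hσ 4
  have s5 : σ 5 = b := hσ 5
  have hW0 : ({w 0, w 1, w 2, w 3} : Finset (Fin 9)) = W := by
    ext x
    rw [hwr]
    constructor
    · intro h
      simp only [mem_insert, mem_singleton] at h
      rcases h with h | h | h | h
      · exact ⟨0, h.symm⟩
      · exact ⟨1, h.symm⟩
      · exact ⟨2, h.symm⟩
      · exact ⟨3, h.symm⟩
    · rintro ⟨i, rfl⟩
      simp only [mem_insert, mem_singleton]
      fin_cases i
      · exact Or.inl rfl
      · exact Or.inr (Or.inl rfl)
      · exact Or.inr (Or.inr (Or.inl rfl))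
      · exact Or.inr (Or.inr (Or.inr rfl))
  refine concl_pull (σ := σ) (concl_of_two (good_pull hA σ) ?_ ?_)
  · rw [mem_pull]
    have : ({0, 1, 2, 3, 4} : Finset (Fin 9)).image σ = insert a W := by
      rw [← hW0]
      simp only [image_insert, image_singleton, s0, s1, s2, s3, s4]
      ext x
      simp only [mem_insert, mem_singleton]
      tauto
    rw [this]
    exact hG'
  · rw [mem_pull]
    have : ({0, 1, 2, 3, 5} : Finset (Fin 9)).image σ = insert b W := by
      rw [← hW0]
      simp only [image_insert, image_singleton, s0, s1, s2, s3, s5]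
      ext x
      simp only [mem_insert, mem_singleton]
      tauto
    rw [this]
    exact hm

end Pool.Agent.H61.KU
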