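import Pool.Agent.H61.KU.TB
import Pool.Agent.H61.KU.Unq

/-!
# Kuiper board: assembly of the final theorem from the targets
-/

open Topology Set
open Pool.Agent.H59 Pool.Agent.H64.LB

namespace Pool.Agent.H61.KU

theorem finrank_E8R : Module.finrank ℝ (E8 × ℝ) = 9 := by
  rw [Module.finrank_prod]
  simp [E8]

theorem fam_of_sit (hP1 : T_P1) (h1 : T_B1) (h2 : T_B2) (h3 : T_B3) {ι : Type} [Fintype ι]
    [DecidableEq ι] {f : C(PN 2, E8)} {v : ι → E8} (hS : Sit f v) : Fam (hom v) (EE f v) where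
  conf := hS.conf
  face T hT := ⟨hT.1, (hP1 ι f v hS T hT).1⟩
  f1 F hF hr := h1 ι f v hS F hF hr
  f2 T T' hT hT' := h2 ι f v hS T T' hT hT'
  f3 T F hT hF hr hTF := h3 ι f v hS T F hT hF hr hTF

/-- linear independence of the homogenisation gives affine independence -/
theorem affine_of_hom {ι : Type} {v : ι → E8} (h : LinearIndependent ℝ (hom v)) :
    AffineIndependent ℝ v := by
  rw [affineIndependent_iff]
  intro s w hw0 hw i hi
  rw [linearIndependent_iff'] at h
  refine h s w ?_ i hi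
  have : ∑ i ∈ s, w i • hom v i = (∑ i ∈ s, w i • v i, ∑ i ∈ s, w i) := by
    rw [Prod.ext_iff]
    constructor
    · rw [Prod.fst_sum]
      rfl
    · rw [Prod.snd_sum]
      simp [hom]
  rw [this, hw, hw0]
  rfl

/-- barycentric coordinates -/
theorem mem_cv_iff {v : Fin 9 → E8} {F : Finset (Fin 9)} {x : E8} :
    x ∈ cv v F ↔ ∃ w : Fin 9 → ℝ, (∀ i, 0 ≤ w i) ∧ (∀ i, i ∉ F → w i = 0) ∧ ∑ i, w i = 1 ∧
      ∑ i, w i • v i = x := by
  classical
  constructor
  · intro hx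
    have : cv v F ⊆ {x | ∃ w : Fin 9 → ℝ, (∀ i, 0 ≤ w i) ∧ (∀ i, i ∉ F → w i = 0) ∧
        ∑ i, w i = 1 ∧ ∑ i, w i • v i = x} := by
      refine convexHull_min ?_ ?_
      · rintro y ⟨i, hi, rfl⟩
        refine ⟨fun j => if j = i then 1 else 0, fun j => ?_, fun j hj => ?_, ?_, ?_⟩
        · show (0 : ℝ) ≤ if j = i then 1 else 0
          by_cases h : j = i
          · rw [if_pos h]
            exact zero_le_one
          · rw [if_neg h]
        · show (if j = i then (1 : ℝ) else 0) = 0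
          by_cases h : j = i
          · exact absurd (h ▸ hi) hj
          · rw [if_neg h]
        · simp
        · simp
      · rintro y ⟨w, h1, h2, h3, rfl⟩ z ⟨w', h1', h2', h3', rfl⟩ a b ha hb hab
        refine ⟨fun i => a * w i + b * w' i, fun i => ?_, fun i hi => ?_, ?_, ?_⟩
        · exact add_nonneg (mul_nonneg ha (h1 i)) (mul_nonneg hb (h1' i))
        · show a * w i + b * w' i = 0
          rw [h2 i hi, h2' i hi]
          ring
        · rw [Finset.sum_add_distrib, ← Finset.mul_sum, ← Finset.mul_sum, h3, h3']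
          linarith
        · simp only [add_smul, mul_smul, Finset.sum_add_distrib, ← Finset.smul_sum]
    exact this hx
  · rintro ⟨w, h1, h2, h3, rfl⟩
    have h4 : ∑ i, w i • v i = ∑ i ∈ F, w i • v i := by
      symm
      refine Finset.sum_subset (Finset.subset_univ F) fun i _ hi => ?_
      rw [h2 i hi, zero_smul]
    have h5 : ∑ i ∈ F, w i = 1 := by
      rw [← h3]
      refine Finset.sum_subset (Finset.subset_univ F) fun i _ hi => h2 i hi
    rw [h4]
    exact (convex_convexHull ℝ _).sum_mem (fun i _ => h1 i) h5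
      (fun i hi => subset_convexHull ℝ _ ⟨i, hi, rfl⟩)

theorem bary_unique {v : Fin 9 → E8} (hv : AffineIndependent ℝ v) {w w' : Fin 9 → ℝ}
    (h : ∑ i, w i = 1) (h' : ∑ i, w' i = 1) (he : ∑ i, w i • v i = ∑ i, w' i • v i) : w = w' := by
  rw [affineIndependent_iff] at hv
  funext i
  have := hv Finset.univ (fun i => w i - w' i) (by rw [Finset.sum_sub_distrib, h, h', sub_self])
    (by
      simp only [sub_smul, Finset.sum_sub_distrib]
      rw [he, sub_self]) i (Finset.mem_univ i)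
  simpa [sub_eq_zero] using this

/-- if the centroid of `G` lies in `cv v G'` then `G ⊆ G'` -/
theorem centroid_mem {v : Fin 9 → E8} (hv : AffineIndependent ℝ v) {G : Finset (Fin 9)}
    (hG : G.Nonempty) : ∃ x ∈ cv v G, ∀ G', x ∈ cv v G' → G ⊆ G' := by
  classical
  have hc : (0 : ℝ) < G.card := by exact_mod_cast Finset.card_pos.2 hG
  let w : Fin 9 → ℝ := fun i => if i ∈ G then (G.card : ℝ)⁻¹ else 0
  have hw : ∑ i, w i = 1 := by
    simp only [w]
    rw [Finset.sum_ite_mem, Finset.univ_inter, Finset.sum_const, nsmul_eq_mul,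
      mul_inv_cancel₀ hc.ne']
  refine ⟨∑ i, w i • v i, mem_cv_iff.2 ⟨w, fun i => ?_, fun i hi => if_neg hi, hw, rfl⟩, ?_⟩
  · simp only [w]
    by_cases h : i ∈ G
    · rw [if_pos h]
      positivity
    · rw [if_neg h]
  · intro G' hx i hi
    obtain ⟨w', h1, h2, h3, h4⟩ := mem_cv_iff.1 hx
    have h5 := bary_unique hv h3 hw h4
    by_contra hi'
    have h6 := h2 i hi'
    rw [h5] at h6
    simp only [w] at h6
    rw [if_pos hi] at h6
    exact (inv_ne_zero hc.ne') h6

theorem card3_CP29 : ∀ s : Finset (Fin 9), s.card = 3 → ∃ G ∈ CP29, s ⊆ G := by decide +kernel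

/-- The final theorem from the targets. -/
theorem final_of_targets (hFAC : T_FAC) (hSIM : T_SIM) (hNIN : T_NIN) (hS2 : T_S2)
    (hSIT : T_SIT) (hMNF : T_MNF) (hP1 : T_P1) (hB1 : T_B1) (hB2 : T_B2) (hB3 : T_B3)
    (hD3 : T_D3) (hCLO : T_CLO) (hCNT : T_CNT) (f : C(PN 2, E8)) (hinj : Function.Injective f)
    (ht : Tight f) (hs : Substantial f)
    (hp : ∃ S : Set E8, S.Finite ∧ convexHull ℝ (range f) = convexHull ℝ S) :
    ∃ v : Fin 9 → E8, AffineIndependent ℝ v ∧
      range f = ⋃ G ∈ CP29, convexHull ℝ (v '' (G : Set (Fin 9))) := by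
  classical
  obtain ⟨n, v, hS⟩ := hSIT f hinj ht hs hp
  have hFam := fam_of_sit hP1 hB1 hB2 hB3 hS
  obtain ⟨hcard, hlin, hc4⟩ := hNIN (Fin n) (E8 × ℝ) (hom v) (EE f v) finrank_E8R hFam
  rw [Fintype.card_fin] at hcard
  subst hcard
  have hv : AffineIndependent ℝ v := affine_of_hom hlin
  have hface : ∀ G, IsFace (hom v) G := by
    intro G
    have h0 := (hFAC (Fin 9) (E8 × ℝ) (hom v)).1
    refine (hSIM (Fin 9) (E8 × ℝ) (hom v) Finset.univ G h0 ?_ (Finset.subset_univ G)).1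
    have : sp (hom v) Finset.univ = ⊤ := hS.conf.span
    rw [rk, this, finrank_top, finrank_E8R]
    simp
  let E : Finset (Finset (Fin 9)) := Finset.univ.filter (fun T => EE f v T)
  have hE : ∀ T, T ∈ E ↔ EE f v T := fun T => by simp [E]
  have hfull : ∀ G, (∀ T ∈ E, ¬ T ⊆ G) → cv v G ⊆ range f := by
    intro G hG
    by_contra hn
    obtain ⟨T, hT, hTG⟩ := hMNF (Fin 9) f v G (hface G) hn
    exact hG T ((hE T).2 hT) hTG
  have hEne : E.Nonempty := by
    have h0 := (hFAC (Fin 9) (E8 × ℝ) (hom v)).1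
    have h9 : rk (hom v) Finset.univ = 9 := by
      have : sp (hom v) Finset.univ = ⊤ := hS.conf.span
      rw [rk, this, finrank_top, finrank_E8R]
    obtain ⟨T, hT, -⟩ := hB1 (Fin 9) f v hS Finset.univ h0 (by rw [h9]; norm_num)
    exact ⟨T, (hE T).2 hT⟩
  have hE4 : ∀ T ∈ E, T.card = 4 := fun T hT => hc4 T ((hE T).1 hT)
  have hE2 : ∀ T ∈ E, ∀ T' ∈ E, ¬ Disjoint T T' := fun T hT T' hT' =>
    hFam.f2 T T' ((hE T).1 hT) ((hE T').1 hT')
  have hE3 : ∀ T ∈ E, ∀ x, x ∉ T → ∃ y ∈ T, insert x (T.erase y) ∈ E := by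
    intro T hT x hx
    obtain ⟨y, hy, h⟩ := hS2 (Fin 9) (E8 × ℝ) (hom v) (EE f v) finrank_E8R hFam T x ((hE T).1 hT)
      hx (hface _)
    exact ⟨y, hy, (hE _).2 h⟩
  have hEd : ∀ (W : Finset (Fin 9)) (a b c : Fin 9), W.card = 4 → a ∉ W → b ∉ W → c ∉ W →
      a ≠ b → b ≠ c → a ≠ c → (∀ T ∈ E, ¬ T ⊆ insert a W) → (∀ T ∈ E, ¬ T ⊆ insert b W) →
      (∀ T ∈ E, ¬ T ⊆ insert c W) → False := by
    intro W a b c hW ha hb hc hab hbc hac h1 h2 h3
    exact hD3 f v W a b c hinj hv hW ha hb hc hab hbc hac (hfull _ h1) (hfull _ h2) (hfull _ h3)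
  obtain ⟨hC1, hC2⟩ := hCNT E hEne hE4 hE2 hE3 hEd
  let A : Finset (Finset (Fin 9)) := Finset.univ.filter (fun G => G.card = 5 ∧ ∀ T ∈ E, ¬ T ⊆ G)
  have hA : ∀ G, G ∈ A ↔ G.card = 5 ∧ ∀ T ∈ E, ¬ T ⊆ G := fun G => by simp [A]
  have hins : ∀ {W : Finset (Fin 9)} {a : Fin 9}, W.card = 4 → a ∉ W → (insert a W).card = 5 := by
    intro W a hW ha
    rw [Finset.card_insert_of_notMem ha, hW]
  have hcompl : ∀ {W : Finset (Fin 9)}, W.card = 4 → Wᶜ.card = 5 := by
    intro W hW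
    rw [Finset.card_compl, hW, Fintype.card_fin]
  have hWE : ∀ {W : Finset (Fin 9)}, W.card = 4 → (Wᶜ ∈ A ↔ W ∈ E) := by
    intro W hW
    rw [hA, hC1 W hW]
    exact ⟨fun h => h.2, fun h => ⟨hcompl hW, h⟩⟩
  have hnE : ∀ {W : Finset (Fin 9)} {a : Fin 9}, insert a W ∈ A → W ∉ E := by
    intro W a h hW
    exact ((hA _).1 h).2 W hW (Finset.subset_insert a W)
  -- second neighbour
  have hnb : ∀ W : Finset (Fin 9), W.card = 4 → W ∉ E → ∀ a, ∃ b, b ∉ W ∧ b ≠ a ∧
      insert b W ∈ A := by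
    intro W hW hWn a
    obtain ⟨x, y, hx, hy, hxy, h1, h2, -⟩ := hC2 W hW hWn
    by_cases hax : x = a
    · refine ⟨y, hy, fun h => hxy (hax.trans h.symm), (hA _).2 ⟨hins hW hy, h2⟩⟩
    · exact ⟨x, hx, hax, (hA _).2 ⟨hins hW hx, h1⟩⟩
  have htri : ∀ s : Finset (Fin 9), s.card = 3 → cv v s ⊆ range f := by
    intro s hs3
    refine hfull s fun T hT hTs => ?_
    have h1 := Finset.card_le_card hTs
    rw [hE4 T hT, hs3] at h1
    omega
  have hAr : ∀ G ∈ A, G.card = 5 ∧ cv v G ⊆ range f := fun G hG =>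
    ⟨((hA G).1 hG).1, hfull G ((hA G).1 hG).2⟩
  have hGood : Good A := by
    refine ⟨fun G hG => ((hA G).1 hG).1, ?_, ?_, ?_, ?_⟩
    · intro W hW hc a ha h
      exact hnE h ((hWE hW).1 hc)
    · intro W a b c hW ha hb hc hab hbc hac h1 h2 h3
      exact hEd W a b c hW ha hb hc hab hbc hac ((hA _).1 h1).2 ((hA _).1 h2).2 ((hA _).1 h3).2
    · intro W hW hc a ha
      exact hnb W hW (fun h => hc ((hWE hW).2 h)) a
    · intro B hBA hBne hcl
      refine Finset.Subset.antisymm hBA fun G hG => ?_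
      have hG5 := ((hA G).1 hG).1
      obtain ⟨x, hx, hxG⟩ := centroid_mem hv (G := G)
        (Finset.card_pos.1 (by rw [hG5]; norm_num))
      have hcl2 := hCLO f v B hinj hv hBne (fun G hG => hAr G (hBA hG)) htri (by
        intro W hW a ha haB
        obtain ⟨b, hb, hba, hbA⟩ := hnb W hW (hnE (hBA haB)) a
        exact ⟨b, hb, hba, hcl W hW a ha haB b hb hbA⟩) x ((hAr G hG).2 hx)
      rcases hcl2 with ⟨G', hG', hxG'⟩ | ⟨s, hs3, hxs⟩
      · have h1 := hxG G' hxG'
        have h2 : G = G' := Finset.eq_of_subset_of_card_le h1 (by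
          rw [hG5, ((hA G').1 (hBA hG')).1])
        rw [h2]
        exact hG'
      · have h1 := Finset.card_le_card (hxG s hxs)
        rw [hG5, hs3] at h1
        omega
  have hAne : A.Nonempty := by
    obtain ⟨T, hT⟩ := hEne
    exact ⟨Tᶜ, (hWE (hE4 T hT)).2 hT⟩
  obtain ⟨σ, hσ⟩ := unique_of_good hGood hAne
  have hcvσ : ∀ G : Finset (Fin 9), cv v (G.image σ) =
      convexHull ℝ ((v ∘ σ) '' (G : Set (Fin 9))) := by
    intro G
    rw [cv, Finset.coe_image, image_comp]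
  refine ⟨v ∘ σ, hv.comp_embedding σ.toEmbedding, ?_⟩
  refine Subset.antisymm ?_ ?_
  · intro x hx
    have h1 : ∃ G ∈ A, x ∈ cv v G := by
      rcases hCLO f v A hinj hv hAne hAr htri (by
        intro W hW a ha haA
        exact hnb W hW (hnE haA) a) x hx with h | ⟨s, hs3, hxs⟩
      · exact h
      · obtain ⟨G, hG, hsG⟩ := card3_CP29 (s.image σ.symm) (by
          rw [Finset.card_image_of_injective _ σ.symm.injective, hs3])
        refine ⟨G.image σ, ?_, ?_⟩
        · rw [hσ]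
          exact Finset.mem_image.2 ⟨G, hG, rfl⟩
        · have h2 : s ⊆ G.image σ := by
            have := Finset.image_subset_image (f := σ) hsG
            rwa [image_symm_image] at this
          exact convexHull_mono (image_mono (by exact_mod_cast h2)) hxs
    obtain ⟨G, hG, hxG⟩ := h1
    rw [hσ] at hG
    obtain ⟨G', hG', rfl⟩ := Finset.mem_image.1 hG
    rw [hcvσ] at hxG
    exact mem_iUnion₂.2 ⟨G', hG', hxG⟩
  · intro x hx
    obtain ⟨G, hG, hxG⟩ := mem_iUnion₂.1 hx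
    have h1 : G.image σ ∈ A := by
      rw [hσ]
      exact Finset.mem_image.2 ⟨G, hG, rfl⟩
    refine (hAr _ h1).2 ?_
    rw [hcvσ]
    exact hxG

end Pool.Agent.H61.KU
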