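import Pool.Agent.H52.LB.Hi
import Pool.Agent.H52.LB.Sm
import Pool.Agent.H70.LB.HM
import Pool.Agent.H70.LB.MV
import Pool.Agent.H70.LB.MVS
import Pool.Agent.H70.LB.CS
import Pool.Agent.H54.LB.S2E
import Pool.Agent.H54.LB.SU0
import Pool.Agent.H54.LB.SUSP
import Pool.Agent.H4.LB.SU1
import Pool.Agent.H4.LB.S2H
import Pool.Agent.H24.LB.PL1
import Pool.Agent.H24.LB.PNT

/-!
# The targets of the homology library which are used, without hypotheses
-/

open Pool.Agent.H64.LB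

namespace Pool.Agent.H61.KU.Lib

theorem hi : T_HI := Pool.Agent.H52.LB.hi
theorem sm : T_SM := Pool.Agent.H52.LB.sm
theorem hm : T_HM := Pool.Agent.H70.LB.hm hi
theorem di : T_DI := Pool.Agent.H70.LB.di
theorem con : T_CON := Pool.Agent.H70.LB.con hm di
theorem h0 : T_H0 := Pool.Agent.H70.LB.h0 di
theorem mv : T_MV := Pool.Agent.H70.LB.mv sm
theorem mvs : T_MVS := Pool.Agent.H70.LB.mvs mv
theorem cs : T_CS := Pool.Agent.H70.LB.cs
theorem du : T_DU := Pool.Agent.H70.LB.du mv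
theorem su0 : T_SU0 := Pool.Agent.H54.LB.su0 du hm
theorem su1 : T_SU1 := Pool.Agent.H4.LB.su1 mv hm
theorem susp : T_SUSP := Pool.Agent.H54.LB.susp su0 su1
theorem s2e : T_S2E := Pool.Agent.H54.LB.s2e
theorem s2h : T_S2H := Pool.Agent.H4.LB.s2h susp s2e hm con h0
theorem pnt : T_PNT := Pool.Agent.H24.LB.pnt
theorem pl1 : T_PL1 := Pool.Agent.H24.LB.pl1

end Pool.Agent.H61.KU.Lib
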