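import Mathlib

/-!
# Kuiper board, part C: a theorem on the faces of a polyhedral cone

`v : ι → W` is a finite family of vectors of a finite dimensional real vector space (in the
application `W = E8 × ℝ`, `v i = (vertex, 1)`).  `IsFace v F`: `F` is the zero set of a linear
functional which is nonnegative on the family.  `sp v F`, `rk v F`: span and rank of the vectors
of `F`.
-/

open Set

namespace Pool.Agent.H61.KU

section defs

variable {ι W : Type} [AddCommGroup W] [Module ℝ W]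

/-- `F` is the set of zeros of a linear functional which is nonnegative on the family `v`. -/
def IsFace (v : ι → W) (F : Finset ι) : Prop :=
  ∃ l : W →ₗ[ℝ] ℝ, (∀ i, 0 ≤ l (v i)) ∧ ∀ i, l (v i) = 0 ↔ i ∈ F

/-- the span of the vectors of `F` -/
def sp (v : ι → W) (F : Finset ι) : Submodule ℝ W := Submodule.span ℝ (v '' (F : Set ι))

/-- the rank of the set `F` -/
noncomputable def rk (v : ι → W) (F : Finset ι) : ℕ := Module.finrank ℝ (sp v F)

/-- The family spans, the cone is pointed and every `v i` spans an extreme ray. -/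
structure Conf [Fintype ι] (v : ι → W) : Prop where
  span : sp v Finset.univ = ⊤
  empty : IsFace v ∅
  single : ∀ i, IsFace v {i}

/-- A family `E` of faces of rank 4 as it occurs for the minimal faces not contained in `M`. -/
structure Fam [Fintype ι] [DecidableEq ι] (v : ι → W) (E : Finset ι → Prop) : Prop where
  conf : Conf v
  face : ∀ T, E T → IsFace v T ∧ rk v T = 4
  f1 : ∀ F, IsFace v F → 6 ≤ rk v F → ∃ T, E T ∧ T ⊆ F
  f2 : ∀ T T', E T → E T' → ¬ Disjoint T T'
  f3 : ∀ T F, E T → IsFace v F → rk v F = 5 → T ⊆ F → ∃ T', E T' ∧ T' ⊆ F ∧ T' ≠ T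

/-- no facet (face of rank 8) misses both `x` and `y` -/
def Adj (v : ι → W) (x y : ι) : Prop :=
  ∀ F : Finset ι, IsFace v F → rk v F = 8 → x ∈ F ∨ y ∈ F

end defs

/-- C1. Basic facts on faces. -/
def T_FAC : Prop :=
  ∀ (ι W : Type) [Fintype ι] [DecidableEq ι] [AddCommGroup W] [Module ℝ W]
    [FiniteDimensional ℝ W] (v : ι → W),
    IsFace v Finset.univ ∧
    (∀ F G, IsFace v F → IsFace v G → IsFace v (F ∩ G)) ∧
    (∀ F i, IsFace v F → v i ∈ sp v F → i ∈ F) ∧
    (∀ F, IsFace v F → ∀ l : W →ₗ[ℝ] ℝ, (∀ i ∈ F, 0 ≤ l (v i)) →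
      ∃ G, IsFace v G ∧ ∀ i, i ∈ G ↔ i ∈ F ∧ l (v i) = 0) ∧
    (∀ F G, IsFace v F → F ⊂ G → rk v F < rk v G) ∧
    (∀ F G, F ⊆ G → sp v F ≤ sp v G ∧ rk v F ≤ rk v G) ∧
    (∀ F i, IsFace v F → i ∉ F → rk v (insert i F) = rk v F + 1)

/-- C2. Rotation of a supporting hyperplane: inside a face `Z`, a face `G` can be enlarged to a
face `R`, without changing its intersection with `F`, until `R` and `F` together span `Z`. -/
def T_ROT : Prop :=
  ∀ (ι W : Type) [Fintype ι] [DecidableEq ι] [AddCommGroup W] [Module ℝ W]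
    [FiniteDimensional ℝ W] (v : ι → W) (Z F G : Finset ι), IsFace v Z → IsFace v F →
    IsFace v G → F ⊆ Z → G ⊆ Z →
    ∃ R, IsFace v R ∧ G ⊆ R ∧ R ⊆ Z ∧ R ∩ F = G ∩ F ∧ sp v R ⊔ sp v F = sp v Z

/-- C3. Between two different faces `T ⊂ Z` there is a face of rank `rk T + 1`. -/
def T_MIN : Prop :=
  ∀ (ι W : Type) [Fintype ι] [DecidableEq ι] [AddCommGroup W] [Module ℝ W]
    [FiniteDimensional ℝ W] (v : ι → W) (T Z : Finset ι), IsFace v T → IsFace v Z → T ⊂ Z →
    ∃ F, IsFace v F ∧ T ⊂ F ∧ F ⊆ Z ∧ rk v F = rk v T + 1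

/-- C4. If all faces `F` with `T ⊆ F ⊆ Z` of rank `rk T + 1` are of the form `T ∪ {x}`, then `T`
and these points `x` span `Z`. -/
def T_SPN : Prop :=
  ∀ (ι W : Type) [Fintype ι] [DecidableEq ι] [AddCommGroup W] [Module ℝ W]
    [FiniteDimensional ℝ W] (v : ι → W) (T Z : Finset ι), IsFace v T → IsFace v Z → T ⊆ Z →
    (∀ F, IsFace v F → T ⊆ F → F ⊆ Z → rk v F = rk v T + 1 → ∃ x, x ∉ T ∧ F = insert x T) →
    sp v Z ≤ Submodule.span ℝ (v '' {i | i ∈ T ∨ (i ∈ Z ∧ i ∉ T ∧ IsFace v (insert i T))})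

/-- C5. Between `T` and a face of rank `rk T + 2` there are at most two faces `T ∪ {x}`. -/
def T_TWO : Prop :=
  ∀ (ι W : Type) [Fintype ι] [DecidableEq ι] [AddCommGroup W] [Module ℝ W]
    [FiniteDimensional ℝ W] (v : ι → W) (T F : Finset ι) (x y z : ι), IsFace v T →
    T ⊆ F → rk v F = rk v T + 2 → x ∈ F → y ∈ F → z ∈ F → x ∉ T → y ∉ T → z ∉ T →
    x ≠ y → y ≠ z → x ≠ z →
    IsFace v (insert x T) → IsFace v (insert y T) → IsFace v (insert z T) → False

/-- C6. If `C` is a basis of the face `F` and no facet of `F` misses two elements of `C` then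
`F = C`. -/
def T_CLQ : Prop :=
  ∀ (ι W : Type) [Fintype ι] [DecidableEq ι] [AddCommGroup W] [Module ℝ W]
    [FiniteDimensional ℝ W] (v : ι → W) (F C : Finset ι), Conf v → IsFace v F → C ⊆ F →
    C.card = rk v F → rk v C = rk v F →
    (∀ G, IsFace v G → G ⊆ F → rk v G + 1 = rk v F → ∀ x ∈ C, ∀ y ∈ C, x ≠ y → x ∈ G ∨ y ∈ G) →
    F = C

/-- C7. The faces of rank 5 which contain `T` have one more vertex. -/
def T_S1 : Prop :=
  ∀ (ι W : Type) [Fintype ι] [DecidableEq ι] [AddCommGroup W] [Module ℝ W]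
    [FiniteDimensional ℝ W] (v : ι → W) (E : Finset ι → Prop), Module.finrank ℝ W = 9 →
    Fam v E → ∀ T F, E T → IsFace v F → rk v F = 5 → T ⊆ F → ∃ x, x ∉ T ∧ F = insert x T

/-- C8. Exchange. -/
def T_S2 : Prop :=
  ∀ (ι W : Type) [Fintype ι] [DecidableEq ι] [AddCommGroup W] [Module ℝ W]
    [FiniteDimensional ℝ W] (v : ι → W) (E : Finset ι → Prop), Module.finrank ℝ W = 9 →
    Fam v E → ∀ T x, E T → x ∉ T → IsFace v (insert x T) → ∃ y ∈ T, E (insert x (T.erase y))

/-- C9. The members of `E` have 4 elements. -/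
def T_S3 : Prop :=
  ∀ (ι W : Type) [Fintype ι] [DecidableEq ι] [AddCommGroup W] [Module ℝ W]
    [FiniteDimensional ℝ W] (v : ι → W) (E : Finset ι → Prop), Module.finrank ℝ W = 9 →
    Fam v E → ∀ T, E T → T.card = 4

/-- C10. Faces with independent vectors: all subsets are faces. -/
def T_SIM : Prop :=
  ∀ (ι W : Type) [Fintype ι] [DecidableEq ι] [AddCommGroup W] [Module ℝ W]
    [FiniteDimensional ℝ W] (v : ι → W) (F G : Finset ι), IsFace v F → F.card = rk v F → G ⊆ F →
    IsFace v G ∧ rk v G = G.card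

/-- C11. For `T ∈ E`, `y ∈ T` there is `T' ∈ E`, disjoint from `T - y`, which contains every `x`
with `T - y + x ∈ E`. -/
def T_S4 : Prop :=
  ∀ (ι W : Type) [Fintype ι] [DecidableEq ι] [AddCommGroup W] [Module ℝ W]
    [FiniteDimensional ℝ W] (v : ι → W) (E : Finset ι → Prop), Module.finrank ℝ W = 9 →
    Fam v E → ∀ T y, E T → y ∈ T →
      ∃ T', E T' ∧ Disjoint T' (T.erase y) ∧ ∀ x, E (insert x (T.erase y)) → x ∈ T'

/-- C12. A facet misses at most one vertex of `T ∈ E`. -/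
def T_KEY : Prop :=
  ∀ (ι W : Type) [Fintype ι] [DecidableEq ι] [AddCommGroup W] [Module ℝ W]
    [FiniteDimensional ℝ W] (v : ι → W) (E : Finset ι → Prop), Module.finrank ℝ W = 9 →
    Fam v E → ∀ T, E T → ∀ x ∈ T, ∀ y ∈ T, x ≠ y → Adj v x y

/-- C13. Adjacency of `x` and `y ∈ T` if `T + x` is a face. -/
def T_ADJ : Prop :=
  ∀ (ι W : Type) [Fintype ι] [DecidableEq ι] [AddCommGroup W] [Module ℝ W]
    [FiniteDimensional ℝ W] (v : ι → W) (E : Finset ι → Prop), Module.finrank ℝ W = 9 →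
    Fam v E → ∀ T x, E T → x ∉ T → IsFace v (insert x T) → ∀ y ∈ T, Adj v x y

/-- C14. Adjacency is inherited by the facets of a face. -/
def T_AIN : Prop :=
  ∀ (ι W : Type) [Fintype ι] [DecidableEq ι] [AddCommGroup W] [Module ℝ W]
    [FiniteDimensional ℝ W] (v : ι → W), Module.finrank ℝ W = 9 → Conf v →
    ∀ (F G : Finset ι) (x y : ι), IsFace v F → IsFace v G → G ⊆ F → rk v G + 1 = rk v F →
    x ∈ F → y ∈ F → Adj v x y → x ∈ G ∨ y ∈ G

/-- C15. The faces of rank 6 containing `T + x`. -/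
def T_S6 : Prop :=
  ∀ (ι W : Type) [Fintype ι] [DecidableEq ι] [AddCommGroup W] [Module ℝ W]
    [FiniteDimensional ℝ W] (v : ι → W) (E : Finset ι → Prop), Module.finrank ℝ W = 9 →
    Fam v E → ∀ T x F, E T → x ∉ T → IsFace v (insert x T) → IsFace v F → rk v F = 6 →
      insert x T ⊆ F → ∃ y, y ∉ insert x T ∧ F = insert y (insert x T) ∧ Adj v x y

/-- C16. `x` is a coloop if `T + x` is a face. -/
def T_COL : Prop :=
  ∀ (ι W : Type) [Fintype ι] [DecidableEq ι] [AddCommGroup W] [Module ℝ W]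
    [FiniteDimensional ℝ W] (v : ι → W) (E : Finset ι → Prop), Module.finrank ℝ W = 9 →
    Fam v E → ∀ T x, E T → x ∉ T → IsFace v (insert x T) →
      IsFace v (Finset.univ.erase x) ∧ rk v (Finset.univ.erase x) = 8

/-- C17. There are exactly nine vectors, they form a basis. -/
def T_NIN : Prop :=
  ∀ (ι W : Type) [Fintype ι] [DecidableEq ι] [AddCommGroup W] [Module ℝ W]
    [FiniteDimensional ℝ W] (v : ι → W) (E : Finset ι → Prop), Module.finrank ℝ W = 9 →
    Fam v E → Fintype.card ι = 9 ∧ LinearIndependent ℝ v ∧ ∀ T, E T → T.card = 4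

end Pool.Agent.H61.KU
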