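import Pool.Agent.H61.KU.TA
import Pool.Agent.H24.LB.PNT
import Pool.Agent.H24.LB.CHT

/-!
# Kuiper board: basic facts on `PN 1` and `PN 2`

`P2 u` is the point `[u]` of `PN 1` (total function, junk at `u = 0`), `P3 u c` the point `[u : c]`
of `PN 2`, `q0 = [0 : 0 : 1]`, `NN` the complement of `q0`, `rho : NN → PN 1` the projection from
`q0`, `iota : PN 1 → PN 2` the line at infinity.  `continuous_desc` is the tool for proving that
maps defined on (subsets of) `T × PN n` are continuous.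
-/

open Topology Set
open Pool.Agent.H59 Pool.Agent.H64.LB Pool.Agent.H24.LB
open scoped unitInterval

namespace Pool.Agent.H61.KU

/-! ### quotient maps -/

theorem isOpenMap_pt {n : ℕ} : IsOpenMap (pt : NZ n → PN n) := by
  intro U hU
  rw [isOpen_pt_iff]
  have h : (pt ⁻¹' (pt '' U) : Set (NZ n)) =
      ⋃ c : {c : ℂ // c ≠ 0}, {v : NZ n | (⟨c.1 • v.1, smul_ne_zero c.2 v.2⟩ : NZ n) ∈ U} := by
    ext v
    simp only [mem_preimage, mem_image, mem_iUnion, mem_ofPred_eq]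
    constructor
    · rintro ⟨w, hw, hvw⟩
      obtain ⟨c, hc, h⟩ := rel_of_pt_eq hvw.symm
      refine ⟨⟨c, hc⟩, ?_⟩
      have : (⟨c • v.1, smul_ne_zero hc v.2⟩ : NZ n) = w := Subtype.ext h.symm
      rw [this]
      exact hw
    · rintro ⟨c, hc⟩
      exact ⟨_, hc, (pt_eq_of_rel c.1 c.2 rfl).symm⟩
  rw [h]
  refine isOpen_iUnion fun c => ?_
  refine hU.preimage (f := fun v : NZ n => (⟨c.1 • v.1, smul_ne_zero c.2 v.2⟩ : NZ n)) ?_
  exact (continuous_subtype_val.const_smul c.1).subtype_mk _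

theorem isOpenQuotientMap_pt {n : ℕ} : IsOpenQuotientMap (pt : NZ n → PN n) where
  surjective := fun x => by
    obtain ⟨v, rfl⟩ := exists_pt x
    exact ⟨v, rfl⟩
  continuous := continuous_pt
  isOpenMap := isOpenMap_pt

/-- The map `(s, v) ↦ (s, [v])`. -/
theorem isOpenQuotientMap_idpt (T : Type) [TopologicalSpace T] (n : ℕ) :
    IsOpenQuotientMap (fun p : T × NZ n => ((p.1, pt p.2) : T × PN n)) := by
  have := IsOpenQuotientMap.prodMap (IsOpenQuotientMap.id (X := T))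
    (isOpenQuotientMap_pt (n := n))
  exact this

/-- Continuity of a map on a subset `A` of `T × PN n` can be checked on vectors. -/
theorem continuous_desc {T Z : Type} [TopologicalSpace T] [TopologicalSpace Z] {n : ℕ}
    (A : Set (T × PN n)) (F : A → Z)
    (h : Continuous (fun p : {p : T × NZ n // (p.1, pt p.2) ∈ A} =>
      F ⟨(p.1.1, pt p.1.2), p.2⟩)) : Continuous F := by
  let q : T × NZ n → T × PN n := fun p => (p.1, pt p.2)
  have hq : IsOpenQuotientMap q := isOpenQuotientMap_idpt T n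
  have h1 : IsOpenMap (A.restrictPreimage q) := hq.isOpenMap.restrictPreimage A
  have h2 : Continuous (A.restrictPreimage q) := hq.continuous.restrictPreimage
  have h3 : Function.Surjective (A.restrictPreimage q) := by
    rintro ⟨x, hx⟩
    obtain ⟨y, rfl⟩ := hq.surjective x
    exact ⟨⟨y, hx⟩, rfl⟩
  have h4 : IsOpenQuotientMap (A.restrictPreimage q) := ⟨h3, h2, h1⟩
  exact h4.continuous_comp_iff.1 h

/-- The same for maps defined on all of `T × PN n`. -/
theorem continuous_desc_univ {T Z : Type} [TopologicalSpace T] [TopologicalSpace Z] {n : ℕ}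
    (F : T × PN n → Z) (h : Continuous (fun p : T × NZ n => F (p.1, pt p.2))) : Continuous F :=
  (isOpenQuotientMap_idpt T n).continuous_comp_iff.1 h

/-- The same for subsets of `PN n`. -/
theorem continuous_desc_one {Z : Type} [TopologicalSpace Z] {n : ℕ}
    (A : Set (PN n)) (F : A → Z)
    (h : Continuous (fun p : {p : NZ n // pt p ∈ A} => F ⟨pt p.1, p.2⟩)) : Continuous F := by
  have hq : IsOpenQuotientMap (pt : NZ n → PN n) := isOpenQuotientMap_pt
  have h1 : IsOpenMap (A.restrictPreimage (pt : NZ n → PN n)) := hq.isOpenMap.restrictPreimage A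
  have h2 : Continuous (A.restrictPreimage (pt : NZ n → PN n)) := hq.continuous.restrictPreimage
  have h3 : Function.Surjective (A.restrictPreimage (pt : NZ n → PN n)) := by
    rintro ⟨x, hx⟩
    obtain ⟨y, rfl⟩ := hq.surjective x
    exact ⟨⟨y, hx⟩, rfl⟩
  have h4 : IsOpenQuotientMap (A.restrictPreimage (pt : NZ n → PN n)) := ⟨h3, h2, h1⟩
  exact h4.continuous_comp_iff.1 h

/-! ### points -/

/-- the vector `(u, c)` -/
def v3 (u : Fin 2 → ℂ) (c : ℂ) : Fin 3 → ℂ := ![u 0, u 1, c]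

theorem v3_eq_zero {u : Fin 2 → ℂ} {c : ℂ} : v3 u c = 0 ↔ u = 0 ∧ c = 0 := by
  constructor
  · intro h
    have h0 := congrFun h 0
    have h1 := congrFun h 1
    have h2 := congrFun h 2
    simp [v3] at h0 h1 h2
    refine ⟨?_, h2⟩
    funext i
    fin_cases i
    · exact h0
    · exact h1
  · rintro ⟨rfl, rfl⟩
    funext i
    fin_cases i <;> simp [v3]

theorem v3_smul (a : ℂ) (u : Fin 2 → ℂ) (c : ℂ) : v3 (a • u) (a * c) = a • v3 u c := by
  funext i
  fin_cases i <;> simp [v3]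

theorem v3_zero (v : Fin 3 → ℂ) : v3 ![v 0, v 1] (v 2) = v := by
  funext i
  fin_cases i <;> simp [v3]

theorem v3_inj {u u' : Fin 2 → ℂ} {c c' : ℂ} : v3 u c = v3 u' c' ↔ u = u' ∧ c = c' := by
  constructor
  · intro h
    have h0 := congrFun h 0
    have h1 := congrFun h 1
    have h2 := congrFun h 2
    simp [v3] at h0 h1 h2
    refine ⟨?_, h2⟩
    funext i
    fin_cases i
    · exact h0
    · exact h1
  · rintro ⟨rfl, rfl⟩
    rfl

theorem continuous_v3 {T : Type} [TopologicalSpace T] {u : T → Fin 2 → ℂ} {c : T → ℂ}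
    (hu : Continuous u) (hc : Continuous c) : Continuous (fun t => v3 (u t) (c t)) := by
  have h0 : Continuous fun t => u t 0 := (continuous_apply 0).comp hu
  have h1 : Continuous fun t => u t 1 := (continuous_apply 1).comp hu
  refine continuous_pi fun i => ?_
  fin_cases i
  · exact h0
  · exact h1
  · exact hc

theorem ne10 : (![1, 0] : Fin 2 → ℂ) ≠ 0 := fun h => one_ne_zero (congrFun h 0)

/-- the point `[0 : 0 : 1]` -/
def q0 : PN 2 := pt ⟨v3 0 1, by rw [Ne, v3_eq_zero]; simp⟩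

open Classical in
/-- the point `[u]` of `PN 1` -/
noncomputable def P2 (u : Fin 2 → ℂ) : PN 1 := if h : u ≠ 0 then pt ⟨u, h⟩ else pt ⟨![1, 0], ne10⟩

open Classical in
/-- the point `[u : c]` of `PN 2` -/
noncomputable def P3 (u : Fin 2 → ℂ) (c : ℂ) : PN 2 :=
  if h : v3 u c ≠ 0 then pt ⟨v3 u c, h⟩ else q0

theorem P2_eq {u : Fin 2 → ℂ} (h : u ≠ 0) : P2 u = pt ⟨u, h⟩ := dif_pos h

theorem P3_eq {u : Fin 2 → ℂ} {c : ℂ} (h : v3 u c ≠ 0) : P3 u c = pt ⟨v3 u c, h⟩ := dif_pos h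

theorem P3_zero {c : ℂ} (h : c ≠ 0) : P3 0 c = q0 := by
  have h' : v3 0 c ≠ 0 := by rw [Ne, v3_eq_zero]; tauto
  rw [P3_eq h']
  refine (pt_eq_of_rel c h ?_).symm
  change v3 0 c = c • v3 0 1
  rw [← v3_smul, smul_zero, mul_one]

theorem exists_P2 (l : PN 1) : ∃ u : Fin 2 → ℂ, u ≠ 0 ∧ l = P2 u := by
  obtain ⟨v, rfl⟩ := exists_pt l
  exact ⟨v.1, v.2, (P2_eq v.2).symm⟩

theorem exists_P3 (y : PN 2) : ∃ (u : Fin 2 → ℂ) (c : ℂ), ¬ (u = 0 ∧ c = 0) ∧ y = P3 u c := by
  obtain ⟨v, rfl⟩ := exists_pt y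
  have h := v3_zero v.1
  refine ⟨![v.1 0, v.1 1], v.1 2, ?_, ?_⟩
  · rw [← v3_eq_zero, h]
    exact v.2
  · rw [P3_eq (by rw [h]; exact v.2)]
    congr 1
    exact Subtype.ext h.symm

theorem P2_smul (a : ℂ) (ha : a ≠ 0) {u : Fin 2 → ℂ} (h : u ≠ 0) : P2 (a • u) = P2 u := by
  rw [P2_eq (smul_ne_zero ha h), P2_eq h]
  exact (pt_eq_of_rel a ha rfl).symm

theorem P3_smul (a : ℂ) (ha : a ≠ 0) {u : Fin 2 → ℂ} {c : ℂ} (h : ¬ (u = 0 ∧ c = 0)) :
    P3 (a • u) (a * c) = P3 u c := by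
  rw [← v3_eq_zero] at h
  have h' : v3 (a • u) (a * c) ≠ 0 := by
    rw [v3_smul]
    exact smul_ne_zero ha h
  rw [P3_eq h', P3_eq h]
  refine (pt_eq_of_rel a ha ?_).symm
  exact v3_smul a u c

theorem P2_eq_iff {u u' : Fin 2 → ℂ} (h : u ≠ 0) (h' : u' ≠ 0) :
    P2 u = P2 u' ↔ ∃ a : ℂ, a ≠ 0 ∧ u' = a • u := by
  constructor
  · intro he
    rw [P2_eq h, P2_eq h'] at he
    exact rel_of_pt_eq he
  · rintro ⟨a, ha, rfl⟩
    exact (P2_smul a ha h).symm

theorem P3_eq_iff {u u' : Fin 2 → ℂ} {c c' : ℂ} (h : ¬ (u = 0 ∧ c = 0)) (h' : ¬ (u' = 0 ∧ c' = 0)) :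
    P3 u c = P3 u' c' ↔ ∃ a : ℂ, a ≠ 0 ∧ u' = a • u ∧ c' = a * c := by
  constructor
  · intro he
    rw [← v3_eq_zero] at h h'
    rw [P3_eq h, P3_eq h'] at he
    obtain ⟨a, ha, he⟩ := rel_of_pt_eq he
    have he' : v3 u' c' = v3 (a • u) (a * c) := by rw [v3_smul]; exact he
    rw [v3_inj] at he'
    exact ⟨a, ha, he'⟩
  · rintro ⟨a, ha, rfl, rfl⟩
    exact (P3_smul a ha h).symm

theorem q0_eq : q0 = P3 0 1 := (P3_zero one_ne_zero).symm

theorem P3_ne_q0 {u : Fin 2 → ℂ} {c : ℂ} (h : u ≠ 0) : P3 u c ≠ q0 := by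
  rw [q0_eq, Ne, P3_eq_iff (by tauto) (by simp)]
  rintro ⟨a, ha, h1, -⟩
  rcases smul_eq_zero.1 h1.symm with h2 | h2
  · exact ha h2
  · exact h h2

theorem continuous_P2 {T : Type} [TopologicalSpace T] {u : T → Fin 2 → ℂ} (hu : Continuous u)
    (h : ∀ t, u t ≠ 0) : Continuous (fun t => P2 (u t)) := by
  have : (fun t => P2 (u t)) = fun t => pt ⟨u t, h t⟩ := funext fun t => P2_eq (h t)
  rw [this]
  exact continuous_pt.comp (hu.subtype_mk _)

theorem continuous_P3 {T : Type} [TopologicalSpace T] {u : T → Fin 2 → ℂ} {c : T → ℂ}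
    (hu : Continuous u) (hc : Continuous c) (h : ∀ t, ¬ (u t = 0 ∧ c t = 0)) :
    Continuous (fun t => P3 (u t) (c t)) := by
  have h' : ∀ t, v3 (u t) (c t) ≠ 0 := fun t => by rw [Ne, v3_eq_zero]; exact h t
  have : (fun t => P3 (u t) (c t)) = fun t => pt ⟨v3 (u t) (c t), h' t⟩ :=
    funext fun t => P3_eq (h' t)
  rw [this]
  exact continuous_pt.comp ((continuous_v3 hu hc).subtype_mk _)

/-! ### the complement of `q0` and the projection -/

/-- the complement of the point `q0` -/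
abbrev NN : Type := ↥(({q0} : Set (PN 2))ᶜ)

theorem exists_NN (y : NN) : ∃ (u : Fin 2 → ℂ) (c : ℂ), u ≠ 0 ∧ y.1 = P3 u c := by
  obtain ⟨u, c, h, he⟩ := exists_P3 y.1
  refine ⟨u, c, ?_, he⟩
  rintro rfl
  refine y.2 ?_
  rw [mem_singleton_iff, he]
  exact P3_zero (fun hc => h ⟨rfl, hc⟩)

/-- the point `[u : c]`, `u ≠ 0`, of `NN` -/
noncomputable def PNN (u : Fin 2 → ℂ) (c : ℂ) (h : u ≠ 0) : NN := ⟨P3 u c, P3_ne_q0 h⟩

/-- the projection as a function on `PN 2` (junk at `q0`) -/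
noncomputable def rho0 : PN 2 → PN 1 :=
  Quotient.lift (fun v : NZ 2 => P2 ![v.1 0, v.1 1]) (by
    rintro v w ⟨c, hc, h⟩
    have h0 : (![w.1 0, w.1 1] : Fin 2 → ℂ) = c • ![v.1 0, v.1 1] := by
      funext i
      fin_cases i <;> simp [h]
    change P2 ![v.1 0, v.1 1] = P2 ![w.1 0, w.1 1]
    rw [h0]
    by_cases hz : (![v.1 0, v.1 1] : Fin 2 → ℂ) = 0
    · rw [hz, smul_zero]
    · exact (P2_smul c hc hz).symm)

theorem rho0_P3 {u : Fin 2 → ℂ} {c : ℂ} (h : u ≠ 0) : rho0 (P3 u c) = P2 u := by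
  have h' : v3 u c ≠ 0 := by rw [Ne, v3_eq_zero]; tauto
  rw [P3_eq h']
  change P2 ![v3 u c 0, v3 u c 1] = P2 u
  congr 1
  funext i
  fin_cases i <;> simp [v3]

theorem pt_ne_q0_iff {v : NZ 2} : pt v ∈ (({q0} : Set (PN 2))ᶜ) ↔
    (![v.1 0, v.1 1] : Fin 2 → ℂ) ≠ 0 := by
  have hv := v3_zero v.1
  have hP : pt v = P3 ![v.1 0, v.1 1] (v.1 2) := by
    rw [P3_eq (by rw [hv]; exact v.2)]
    exact congrArg pt (Subtype.ext hv.symm)
  constructor
  · intro h h0
    apply h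
    rw [mem_singleton_iff, hP, h0]
    refine P3_zero fun h2 => v.2 ?_
    rw [← hv, h0, h2, v3_eq_zero]
    exact ⟨rfl, rfl⟩
  · intro h
    rw [hP]
    exact P3_ne_q0 h

/-- the projection `[u : c] ↦ [u]` -/
noncomputable def rho : C(NN, PN 1) where
  toFun y := rho0 y.1
  continuous_toFun := by
    refine continuous_desc_one _ (fun y : NN => rho0 y.1) ?_
    change Continuous (fun p : {p : NZ 2 // pt p ∈ (({q0} : Set (PN 2))ᶜ)} =>
      P2 ![p.1.1 0, p.1.1 1])
    refine continuous_P2 ?_ fun p => pt_ne_q0_iff.1 p.2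
    have hv : ∀ i, Continuous fun p : {p : NZ 2 // pt p ∈ (({q0} : Set (PN 2))ᶜ)} => p.1.1 i :=
      fun i => (continuous_apply i).comp (continuous_subtype_val.comp continuous_subtype_val)
    refine continuous_pi fun i => ?_
    fin_cases i
    · exact hv 0
    · exact hv 1

theorem rho_PNN {u : Fin 2 → ℂ} {c : ℂ} (h : u ≠ 0) : rho (PNN u c h) = P2 u := rho0_P3 h

theorem rho_mk {u : Fin 2 → ℂ} {c : ℂ} (h : u ≠ 0) (h' : P3 u c ∈ (({q0} : Set (PN 2))ᶜ)) :
    rho ⟨P3 u c, h'⟩ = P2 u := rho0_P3 h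

/-- the line at infinity `[u] ↦ [u : 0]` -/
noncomputable def iota0 : PN 1 → PN 2 :=
  Quotient.lift (fun v : NZ 1 => P3 v.1 0) (by
    rintro v w ⟨c, hc, h⟩
    change P3 v.1 0 = P3 w.1 0
    rw [h]
    have := P3_smul c hc (u := v.1) (c := 0) (fun h => v.2 h.1)
    rw [mul_zero] at this
    exact this.symm)

theorem iota0_P2 {u : Fin 2 → ℂ} (h : u ≠ 0) : iota0 (P2 u) = P3 u 0 := by
  rw [P2_eq h]
  rfl

/-- the line at infinity as a map to `NN` -/
noncomputable def iotaN : C(PN 1, NN) where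
  toFun l := ⟨iota0 l, by
    obtain ⟨u, hu, rfl⟩ := exists_P2 l
    rw [iota0_P2 hu]
    exact P3_ne_q0 hu⟩
  continuous_toFun := by
    refine Continuous.subtype_mk ?_ _
    refine continuous_quot_lift (f := fun v : NZ 1 => P3 v.1 0) _ ?_
    exact continuous_P3 continuous_subtype_val continuous_const (fun v h => v.2 h.1)

theorem iotaN_P2 {u : Fin 2 → ℂ} (h : u ≠ 0) : iotaN (P2 u) = PNN u 0 h :=
  Subtype.ext (iota0_P2 h)

/-- the line at infinity as a map to `PN 2` -/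
noncomputable def iota : C(PN 1, PN 2) := (inc (({q0} : Set (PN 2))ᶜ)).comp iotaN

theorem iota_P2 {u : Fin 2 → ℂ} (h : u ≠ 0) : iota (P2 u) = P3 u 0 := iota0_P2 h

/-- scaling of the last coordinate, `[u : c] ↦ [u : t c]` -/
noncomputable def scal0 (t : ℝ) : PN 2 → PN 2 :=
  Quotient.lift (fun v : NZ 2 => P3 ![v.1 0, v.1 1] (t * v.1 2)) (by
    rintro v w ⟨c, hc, h⟩
    have h0 : (![w.1 0, w.1 1] : Fin 2 → ℂ) = c • ![v.1 0, v.1 1] := by
      funext i
      fin_cases i <;> simp [h]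
    have h2 : (t : ℂ) * w.1 2 = c * (t * v.1 2) := by
      rw [h, Pi.smul_apply, smul_eq_mul]
      ring
    change P3 ![v.1 0, v.1 1] (t * v.1 2) = P3 ![w.1 0, w.1 1] (t * w.1 2)
    rw [h0, h2]
    by_cases hz : ((![v.1 0, v.1 1] : Fin 2 → ℂ) = 0 ∧ (t : ℂ) * v.1 2 = 0)
    · rw [hz.1, hz.2, smul_zero, mul_zero]
    · exact (P3_smul c hc hz).symm)

theorem scal0_P3 (t : ℝ) {u : Fin 2 → ℂ} {c : ℂ} (h : ¬ (u = 0 ∧ c = 0)) :
    scal0 t (P3 u c) = P3 u (t * c) := by
  have h' : v3 u c ≠ 0 := by rw [Ne, v3_eq_zero]; exact h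
  rw [P3_eq h']
  change P3 ![v3 u c 0, v3 u c 1] (t * v3 u c 2) = P3 u (t * c)
  congr 1
  funext i
  fin_cases i <;> simp [v3]

/-- the scaling homotopy on `NN` -/
noncomputable def scalN : C(I × NN, NN) where
  toFun p := ⟨scal0 p.1 p.2.1, by
    obtain ⟨u, c, hu, he⟩ := exists_NN p.2
    rw [he, scal0_P3 _ (by tauto)]
    exact P3_ne_q0 hu⟩
  continuous_toFun := by
    refine Continuous.subtype_mk ?_ _
    have key : Continuous (fun p : {p : I × PN 2 // p.2 ∈ (({q0} : Set (PN 2))ᶜ)} =>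
        scal0 p.1.1 p.1.2) := by
      refine continuous_desc {p : I × PN 2 | p.2 ∈ (({q0} : Set (PN 2))ᶜ)}
        (fun p => scal0 p.1.1 p.1.2) ?_
      change Continuous (fun p : {p : I × NZ 2 // (p.1, pt p.2) ∈
        {p : I × PN 2 | p.2 ∈ (({q0} : Set (PN 2))ᶜ)}} =>
          P3 ![p.1.2.1 0, p.1.2.1 1] (((p.1.1 : ℝ) : ℂ) * p.1.2.1 2))
      have hv : ∀ i, Continuous (fun p : {p : I × NZ 2 // (p.1, pt p.2) ∈
          {p : I × PN 2 | p.2 ∈ (({q0} : Set (PN 2))ᶜ)}} => p.1.2.1 i) := fun i =>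
        (continuous_apply i).comp (continuous_subtype_val.comp
          (continuous_snd.comp continuous_subtype_val))
      refine continuous_P3 ?_ ?_ ?_
      · refine continuous_pi fun i => ?_
        fin_cases i
        · exact hv 0
        · exact hv 1
      · refine Continuous.mul ?_ (hv 2)
        exact Complex.continuous_ofReal.comp
          (continuous_subtype_val.comp (continuous_fst.comp continuous_subtype_val))
      · rintro p ⟨h1, -⟩
        exact pt_ne_q0_iff.1 p.2 h1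
    have h2 : Continuous (fun p : I × NN =>
        (⟨(p.1, p.2.1), p.2.2⟩ : {p : I × PN 2 // p.2 ∈ (({q0} : Set (PN 2))ᶜ)})) :=
      Continuous.subtype_mk (continuous_fst.prodMk (continuous_subtype_val.comp continuous_snd)) _
    exact key.comp h2

theorem scalN_PNN (t : I) {u : Fin 2 → ℂ} {c : ℂ} (h : u ≠ 0) :
    scalN (t, PNN u c h) = PNN u ((t : ℝ) * c) h :=
  Subtype.ext (scal0_P3 _ (by tauto))

theorem exists_PNN (y : NN) : ∃ (u : Fin 2 → ℂ) (c : ℂ) (h : u ≠ 0), y = PNN u c h := by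
  obtain ⟨u, c, hu, he⟩ := exists_NN y
  exact ⟨u, c, hu, Subtype.ext he⟩

/-- `iotaN ∘ rho` is homotopic to the identity of `NN`. -/
noncomputable def homN : (iotaN.comp rho).Homotopy (ContinuousMap.id NN) where
  toFun p := scalN p
  continuous_toFun := scalN.continuous
  map_zero_left y := by
    obtain ⟨u, c, hu, rfl⟩ := exists_PNN y
    rw [scalN_PNN]
    change _ = iotaN (rho (PNN u c hu))
    rw [rho_PNN, iotaN_P2 hu]
    simp
  map_one_left y := by
    obtain ⟨u, c, hu, rfl⟩ := exists_PNN y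
    rw [scalN_PNN]
    simp

theorem rho_iotaN : rho.comp iotaN = ContinuousMap.id (PN 1) := by
  ext l
  obtain ⟨u, hu, rfl⟩ := exists_P2 l
  change rho (iotaN (P2 u)) = P2 u
  rw [iotaN_P2 hu, rho_PNN]

/-- `NN` is homotopy equivalent to the projective line. -/
noncomputable def rhoEquiv : ContinuousMap.HomotopyEquiv NN (PN 1) where
  toFun := rho
  invFun := iotaN
  left_inv := ⟨homN⟩
  right_inv := by
    rw [rho_iotaN]

/-- The inclusion `NN → PN 2` is homotopic to `iota ∘ rho`. -/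
theorem inc_homotopic : (inc (({q0} : Set (PN 2))ᶜ)).Homotopic (iota.comp rho) := by
  have h : (iotaN.comp rho).Homotopic (ContinuousMap.id NN) := ⟨homN⟩
  have h2 := (ContinuousMap.Homotopic.refl (inc (({q0} : Set (PN 2))ᶜ))).comp h.symm
  exact h2

/-! ### linear algebra -/

/-- the antilinear map `J` -/
def JJ (u : Fin 2 → ℂ) : Fin 2 → ℂ := ![-(starRingEnd ℂ) (u 1), (starRingEnd ℂ) (u 0)]

/-- the hermitian product, antilinear in the first variable -/
def hp (u w : Fin 2 → ℂ) : ℂ := (starRingEnd ℂ) (u 0) * w 0 + (starRingEnd ℂ) (u 1) * w 1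

/-- orthogonal projection of `w` to the line `l` -/
noncomputable def pj (l : PN 1) (w : Fin 2 → ℂ) : Fin 2 → ℂ := fun i =>
  HM l i 0 * w 0 + HM l i 1 * w 1

/-- the linear functional `d ↦ c ⟨u, d⟩ / |u|²` for `y = [u : c]` -/
noncomputable def lin (y : NN) (d : Fin 2 → ℂ) : ℂ :=
  (HM y.1 2 0 * d 0 + HM y.1 2 1 * d 1) / (HM y.1 0 0 + HM y.1 1 1)

theorem nsq_two (u : Fin 2 → ℂ) : nsq (n := 1) u = hp u u := by
  change ∑ k : Fin 2, u k * (starRingEnd ℂ) (u k) = hp u u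
  rw [Fin.sum_univ_two, hp]
  ring

theorem hp_self_ne {u : Fin 2 → ℂ} (h : u ≠ 0) : hp u u ≠ 0 := by
  rw [← nsq_two]
  exact nsq_ne (n := 1) h

theorem pj_P2 {u : Fin 2 → ℂ} (h : u ≠ 0) (w : Fin 2 → ℂ) :
    pj (P2 u) w = (hp u w / hp u u) • u := by
  funext i
  have h1 : nsq (n := 1) u ≠ 0 := nsq_ne (n := 1) h
  rw [P2_eq h]
  simp only [pj, HM_pt, hm, Pi.smul_apply, smul_eq_mul]
  rw [nsq_two] at h1 ⊢
  simp only [hp] at h1 ⊢
  field_simp

theorem lin_PNN {u : Fin 2 → ℂ} {c : ℂ} (h : u ≠ 0) (d : Fin 2 → ℂ) :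
    lin (PNN u c h) d = c * hp u d / hp u u := by
  have h' : v3 u c ≠ 0 := by rw [Ne, v3_eq_zero]; tauto
  have h1 : nsq (n := 2) (v3 u c) ≠ 0 := nsq_ne (n := 2) h'
  have h2 := hp_self_ne h
  have hP : (PNN u c h).1 = pt ⟨v3 u c, h'⟩ := P3_eq h'
  simp only [lin, hP, HM_pt, hm, v3]
  have e0 : (![u 0, u 1, c] : Fin 3 → ℂ) 0 = u 0 := rfl
  have e1 : (![u 0, u 1, c] : Fin 3 → ℂ) 1 = u 1 := rfl
  have e2 : (![u 0, u 1, c] : Fin 3 → ℂ) 2 = c := rfl
  simp only [e0, e1, e2]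
  have h3 : u 0 * (starRingEnd ℂ) (u 0) + u 1 * (starRingEnd ℂ) (u 1) ≠ 0 := by
    have : u 0 * (starRingEnd ℂ) (u 0) + u 1 * (starRingEnd ℂ) (u 1) = hp u u := by
      simp only [hp]; ring
    rw [this]
    exact h2
  have h1' : nsq (n := 2) ![u 0, u 1, c] ≠ 0 := h1
  rw [← add_div, div_eq_div_iff (div_ne_zero h3 h1') h2]
  simp only [hp]
  field_simp

theorem hp_JJ (u : Fin 2 → ℂ) : hp u (JJ u) = 0 := by
  simp only [hp, JJ, Matrix.cons_val_zero, Matrix.cons_val_one]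
  ring

theorem JJ_ne {u : Fin 2 → ℂ} (h : u ≠ 0) : JJ u ≠ 0 := by
  intro h0
  apply h
  have e0 := congrFun h0 0
  have e1 := congrFun h0 1
  simp [JJ] at e0 e1
  funext i
  fin_cases i
  · exact e1
  · exact e0

theorem JJ_smul (a : ℂ) (u : Fin 2 → ℂ) : JJ (a • u) = (starRingEnd ℂ) a • JJ u := by
  funext i
  fin_cases i <;> simp [JJ]

theorem continuous_JJ : Continuous JJ := by
  refine continuous_pi fun i => ?_
  fin_cases i
  · exact (Complex.continuous_conj.comp (continuous_apply 1)).neg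
  · exact Complex.continuous_conj.comp (continuous_apply 0)

/-- the orthogonal line -/
noncomputable def perp : C(PN 1, PN 1) where
  toFun := Quotient.lift (fun v : NZ 1 => P2 (JJ v.1)) (by
    rintro v w ⟨c, hc, h⟩
    change P2 (JJ v.1) = P2 (JJ w.1)
    rw [h, JJ_smul]
    exact (P2_smul _ (conj_ne hc) (JJ_ne v.2)).symm)
  continuous_toFun := by
    refine continuous_quot_lift (f := fun v : NZ 1 => P2 (JJ v.1)) _ ?_
    exact continuous_P2 (continuous_JJ.comp continuous_subtype_val) (fun v => JJ_ne v.2)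

theorem perp_P2 {u : Fin 2 → ℂ} (h : u ≠ 0) : perp (P2 u) = P2 (JJ u) := by
  rw [P2_eq h]
  rfl

theorem continuous_pj {T : Type} [TopologicalSpace T] {l : T → PN 1} {w : T → Fin 2 → ℂ}
    (hl : Continuous l) (hw : Continuous w) : Continuous (fun t => pj (l t) (w t)) := by
  have h : ∀ i j, Continuous (fun t => HM (l t) i j) := fun i j =>
    (continuous_apply j).comp ((continuous_apply i).comp (continuous_HM.comp hl))
  have hw' : ∀ j, Continuous (fun t => w t j) := fun j => (continuous_apply j).comp hw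
  refine continuous_pi fun i => ?_
  exact ((h i 0).mul (hw' 0)).add ((h i 1).mul (hw' 1))

theorem HM_NN_ne (y : NN) : HM y.1 0 0 + HM y.1 1 1 ≠ 0 := by
  obtain ⟨u, c, h, rfl⟩ := exists_PNN y
  have h' : v3 u c ≠ 0 := by rw [Ne, v3_eq_zero]; tauto
  have h1 : nsq (n := 2) (v3 u c) ≠ 0 := nsq_ne (n := 2) h'
  have hP : (PNN u c h).1 = pt ⟨v3 u c, h'⟩ := P3_eq h'
  simp only [hP, HM_pt, hm]
  rw [← add_div]
  refine div_ne_zero ?_ h1
  have e0 : v3 u c 0 = u 0 := rfl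
  have e1 : v3 u c 1 = u 1 := rfl
  simp only [e0, e1]
  have : u 0 * (starRingEnd ℂ) (u 0) + u 1 * (starRingEnd ℂ) (u 1) = hp u u := by
    simp only [hp]; ring
  rw [this]
  exact hp_self_ne h

theorem continuous_lin {T : Type} [TopologicalSpace T] {y : T → NN} {d : T → Fin 2 → ℂ}
    (hy : Continuous y) (hd : Continuous d) : Continuous (fun t => lin (y t) (d t)) := by
  have h : ∀ i j, Continuous (fun t => HM (y t).1 i j) := fun i j =>
    (continuous_apply j).comp ((continuous_apply i).comp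
      (continuous_HM.comp (continuous_subtype_val.comp hy)))
  have hd' : ∀ j, Continuous (fun t => d t j) := fun j => (continuous_apply j).comp hd
  refine Continuous.div ?_ ((h 0 0).add (h 1 1)) fun t => HM_NN_ne (y t)
  exact ((h 2 0).mul (hd' 0)).add ((h 2 1).mul (hd' 1))

theorem pj_add (l : PN 1) (w w' : Fin 2 → ℂ) : pj l (w + w') = pj l w + pj l w' := by
  funext i
  simp only [pj, Pi.add_apply]
  ring

theorem pj_smul (l : PN 1) (a : ℂ) (w : Fin 2 → ℂ) : pj l (a • w) = a • pj l w := by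
  funext i
  simp only [pj, Pi.smul_apply, smul_eq_mul]
  ring

theorem lin_add (y : NN) (d d' : Fin 2 → ℂ) : lin y (d + d') = lin y d + lin y d' := by
  simp only [lin, Pi.add_apply]
  ring

theorem lin_smul (y : NN) (a : ℂ) (d : Fin 2 → ℂ) : lin y (a • d) = a * lin y d := by
  simp only [lin, Pi.smul_apply, smul_eq_mul]
  ring

/-- every vector is the sum of a multiple of `u` and a multiple of `J u` -/
theorem decomp {u : Fin 2 → ℂ} (h : u ≠ 0) (w : Fin 2 → ℂ) :
    w = (hp u w / hp u u) • u + (hp (JJ u) w / hp u u) • JJ u := by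
  have h2 := hp_self_ne h
  funext i
  fin_cases i
  · simp only [Fin.zero_eta, Pi.add_apply, Pi.smul_apply, smul_eq_mul, JJ,
      Matrix.cons_val_zero, hp, Matrix.cons_val_one, map_neg, Complex.conj_conj] at h2 ⊢
    field_simp
    ring
  · simp only [Fin.mk_one, Pi.add_apply, Pi.smul_apply, smul_eq_mul, JJ,
      Matrix.cons_val_zero, hp, Matrix.cons_val_one, map_neg, Complex.conj_conj] at h2 ⊢
    field_simp
    ring

end Pool.Agent.H61.KU
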