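import Pool.Agent.H14.KU.CEE
import Pool.Agent.H14.KU.COU
import Pool.Agent.H16.KU.DOX
import Pool.Agent.H20.KU.FAC
import Pool.Agent.H20.KU.MIN
import Pool.Agent.H20.KU.ROT
import Pool.Agent.H21.KU.CEL
import Pool.Agent.H21.KU.COL
import Pool.Agent.H21.KU.PRE
import Pool.Agent.H23.KU.GH4
import Pool.Agent.H23.KU.MNF
import Pool.Agent.H24.KU.CHP
import Pool.Agent.H24.KU.DI5
import Pool.Agent.H3.KU.AIN
import Pool.Agent.H3.KU.SPH
import Pool.Agent.H31.KU.TWO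
import Pool.Agent.H33.KU.CAP
import Pool.Agent.H33.KU.CPX
import Pool.Agent.H33.KU.FCV
import Pool.Agent.H33.KU.OV
import Pool.Agent.H33.KU.PD2
import Pool.Agent.H34.KU.ADD
import Pool.Agent.H34.KU.NIN
import Pool.Agent.H35.KU.S6
import Pool.Agent.H39.KU.B1
import Pool.Agent.H39.KU.B3
import Pool.Agent.H42.KU.LFT
import Pool.Agent.H47.KU.NullHom
import Pool.Agent.H47.KU.SUP
import Pool.Agent.H47.KU.TOP
import Pool.Agent.H49.KU.B2
import Pool.Agent.H49.KU.LO1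
import Pool.Agent.H54.KU.DOM
import Pool.Agent.H56.KU.HOM
import Pool.Agent.H56.KU.KKN
import Pool.Agent.H58.KU.S1
import Pool.Agent.H58.KU.SEP
import Pool.Agent.H58.KU.SLS
import Pool.Agent.H61.KU.ADJ
import Pool.Agent.H67.KU.GAU
import Pool.Agent.H67.KU.OTI
import Pool.Agent.H67.KU.SIT
import Pool.Agent.H68.KU.CLQ
import Pool.Agent.H68.KU.KEY
import Pool.Agent.H68.KU.SPN
import Pool.Agent.H69.KU.LIF
import Pool.Agent.H69.KU.TRV
import Pool.Agent.H70.KU.KC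
import Pool.Agent.H85.KU.CLO
import Pool.Agent.H85.KU.P1
import Pool.Agent.H86.KU.CNT
import Pool.Agent.H86.KU.CR0
import Pool.Agent.H86.KU.D3
import Pool.Agent.H86.KU.PD3
import Pool.Agent.H87.KU.S3
import Pool.Agent.H87.KU.S4A
import Pool.Agent.H87.KU.SLA
import Pool.Agent.H89.KU.LO2
import Pool.Agent.H90.KU.T3
import Pool.Agent.H90.KU.UU2
import Pool.Agent.H90.KU.ZER
import Pool.Agent.H91.KU.PHI
import Pool.Agent.H91.KU.T3N
import Pool.Agent.H94.KU.CPT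
import Pool.Agent.H94.KU.S4
import Pool.Agent.H94.KU.XHO
import Pool.Agent.H61.KU.Asm
import Pool.Agent.H61.KU.Lib

/-!
# Kuiper board: all targets
-/

open Topology Set
open Pool.Agent.H59 Pool.Agent.H64.LB

namespace Pool.Agent.H61.KU

open Pool.Agent.H61.KU.Lib

/-- Tight substantial embeddings of the complex projective plane in 8-space whose convex hull is a
polytope. -/
theorem final (f : C(PN 2, E8)) (hinj : Function.Injective f) (ht : Tight f) (hs : Substantial f)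
    (hp : ∃ S : Set E8, S.Finite ∧ convexHull ℝ (range f) = convexHull ℝ S) :
    ∃ v : Fin 9 → E8, AffineIndependent ℝ v ∧
      range f = ⋃ G ∈ CP29, convexHull ℝ (v '' (G : Set (Fin 9))) := by
  have hHOM : T_HOM := Pool.Agent.H56.KU.pf_hom
  have hGH4 : T_GH4 := Pool.Agent.H23.KU.GH4.pf_gh4 hm s2h
  have hCOU : T_COU := Pool.Agent.H14.KU.pf_cou
  have hSLS : T_SLS := Pool.Agent.H58.KU.pf_sls mvs cs hCOU
  have hSLA : T_SLA := pf_sla mvs cs hCOU hSLS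
  have hCEL : T_CEL := Pool.Agent.H21.KU.pf_cel hSLA
  have hCEE : T_CEE := Pool.Agent.H14.KU.pf_cee hCEL
  have hADD : T_ADD := Pool.Agent.H34.KU.pf_add mvs
  have hCPX : T_CPX := Pool.Agent.H33.KU.pf_cpx hCEE hADD
  have hSPH : T_SPH := Pool.Agent.H3.KU.pf_sph susp h0 con
  have hS4A : T_S4A := pf_s4a mv con h0 hSPH
  have hSEP : T_SEP := Pool.Agent.H58.KU.pf_sep mvs h0 hCEL hS4A
  have hPRE : T_PRE := Pool.Agent.H21.KU.pf_pre du h0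
  have hDOM : T_DOM := Pool.Agent.H54.KU.pf_dom hCEL hPRE hS4A hSEP
  have hCHP : T_CHP := Pool.Agent.H24.KU.pf_chp hHOM
  have hDOX : T_DOX := Pool.Agent.H16.KU.pf_dox hDOM hCHP
  have hDI5 : T_DI5 := Pool.Agent.H24.KU.pf_di5 hDOX
  have hFAC : T_FAC := Pool.Agent.H20.KU.pf_fac
  have hMIN : T_MIN := Pool.Agent.H20.KU.pf_min hFAC
  have hROT : T_ROT := Pool.Agent.H20.KU.pf_rot hFAC
  have hSPN : T_SPN := Pool.Agent.H68.KU.SPN.pf_spn hFAC hMIN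
  have hTWO : T_TWO := Pool.Agent.H31.KU.pf_two hFAC
  have hSIM : T_SIM := Pool.Agent.H31.KU.pf_sim hFAC
  have hS1 : T_S1 := Pool.Agent.H58.KU.pf_s1 hFAC hROT
  have hS2 : T_S2 := Pool.Agent.H31.KU.pf_s2 hFAC hS1
  have hS3 : T_S3 := Pool.Agent.H61.KU.pf_s3 hFAC hROT hSPN hTWO hS1 hS2
  have hCLQ : T_CLQ := Pool.Agent.H68.KU.CLQ.pf_clq hFAC hROT
  have hKEY : T_KEY := Pool.Agent.H68.KU.KEY.pf_key hFAC hROT hSIM hS3
  have hS4 : T_S4 := Pool.Agent.H94.KU.pf_s4 hFAC hROT hSIM hS3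
  have hADJ : T_ADJ := pf_adj hS2 hS4 hKEY
  have hAIN : T_AIN := Pool.Agent.H3.KU.pf_ain hFAC hROT
  have hS6 : T_S6 := Pool.Agent.H35.KU.pf_s6 hFAC hSPN hTWO hCLQ hSIM hS1 hS2 hS3 hKEY hADJ hAIN
  have hCOL : T_COL := Pool.Agent.H21.KU.pf_col hFAC hROT hSPN hS6 hADJ
  have hNIN : T_NIN := Pool.Agent.H34.KU.pf_nin hFAC hSPN hS1 hS3 hCOL
  have hLIF : T_LIF := Pool.Agent.H69.KU.pf_lif
  have hCAP : T_CAP := Pool.Agent.H33.KU.pf_cap hLIF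
  have hCPT : T_CPT := Pool.Agent.H94.KU.CPT.pf_cpt
  have hTRV : T_TRV := Pool.Agent.H69.KU.pf_trv
  have hPD3 : T_PD3 := Pool.Agent.H86.KU.pf_pd3 mv hm susp pl1 s2h hCAP hCPT hTRV
  have hPD2 : T_PD2 := Pool.Agent.H33.KU.pf_pd2 hm con
  have hUU2 : T_UU2 := Pool.Agent.H90.KU.pf_uu2 mv hPD3 hPD2
  have hPHI : T_PHI := Pool.Agent.H91.KU.PHI.pf_phi
  have hKC : T_KC := Pool.Agent.H70.KU.pf_kc susp
  have hOV : T_OV := Pool.Agent.H33.KU.pf_ov mvs hPHI hKC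
  have hZER : T_ZER := Pool.Agent.H90.KU.pf_zer mvs hGH4 hOV
  have hKKN : T_KKN := Pool.Agent.H56.KU.pf_kkn susp s2e hm
  have hT3N : T_T3N := Pool.Agent.H91.KU.T3N.pf_t3n hm s2h hUU2 hZER hKKN
  have hXHO : T_XHO := Pool.Agent.H94.KU.XHO.pf_xho mv hm con h0 pnt pl1 s2h hSPH hCHP hHOM
  have hT3 : T_T3 := Pool.Agent.H90.KU.pf_t3 hm s2e pnt hHOM hXHO hT3N
  have hGAU : T_GAU := Pool.Agent.H67.KU.pf_gau
  have hLFT : T_LFT := Pool.Agent.H42.KU.pf_lft pnt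
  have hCR0 : T_CR0 := Pool.Agent.H86.KU.pf_cr0
  have hSUP : T_SUP := Pool.Agent.H47.KU.pf_sup hFAC
  have hFCV : T_FCV := Pool.Agent.H33.KU.pf_fcv
  have hTOP : T_TOP := Pool.Agent.H47.KU.pf_top hm pnt hGAU
  have hMNF : T_MNF := Pool.Agent.H23.KU.pf_mnf
  have hNUL : T_NUL := Pool.Agent.H47.KU.pf_nul hGAU
  have hP1 : T_P1 := Pool.Agent.H85.KU.pf_p1 hXHO hSPH pnt hLFT hGAU hCR0 hSUP hFCV hTOP hFAC
  have hB1 : T_B1 := Pool.Agent.H39.KU.pf_b1 hDI5 hLFT hCR0 hMNF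
  have hB2 : T_B2 := Pool.Agent.H49.KU.B2.pf_b2 hT3 hP1 hFCV
  have hB3 : T_B3 := Pool.Agent.H39.KU.pf_b3 hm con hSPH pnt hLFT hGAU hCR0 hSUP hFCV hTOP hP1 hMNF
    hNUL hFAC
  have hLO1 : T_LO1 := Pool.Agent.H49.KU.LO1.pf_lo1 hDOX hLFT
  have hLO2 : T_LO2 := Pool.Agent.H89.KU.LO2.pf_lo2 hDOX hLFT
  have hD3 : T_D3 := Pool.Agent.H86.KU.pf_d3 hLO2 pnt
  have hCLO : T_CLO := Pool.Agent.H85.KU.pf_clo hXHO hCPX hPRE hLO1 hLO2
  have hOTI : T_OTI := Pool.Agent.H67.KU.pf_oti cs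
  have hSIT : T_SIT := Pool.Agent.H67.KU.pf_sit hOTI
  have hCNT : T_CNT := Pool.Agent.H86.KU.pf_cnt
  exact final_of_targets hFAC hSIM hNIN hS2 hSIT hMNF hP1 hB1 hB2 hB3 hD3 hCLO hCNT f hinj ht hs hp

end Pool.Agent.H61.KU
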