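import Pool.Agent.H61.KU.UnqDefs

/-!
# The 4-simplices of the 9-vertex triangulation of the complex projective plane

The vertices `1, ..., 9` of the problem file are `0, ..., 8` here.
-/

namespace Pool.Agent.H61.KU

open Equiv

/-- the permutation `(147)(258)(369)` -/
def r1 : Perm (Fin 9) :=
  (swap 0 3 * swap 3 6) * ((swap 1 4 * swap 4 7) * (swap 2 5 * swap 5 8))

/-- the permutation `(123)(465)` -/
def r2 : Perm (Fin 9) := (swap 0 1 * swap 1 2) * (swap 3 5 * swap 5 4)

/-- the permutation `(12)(45)(78)` -/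
def r3 : Perm (Fin 9) := swap 0 1 * (swap 3 4 * swap 6 7)

/-- `G` is a 4-simplex of `CP^2_9`: it lies in the orbit of `12456` or of `12459` (written
`0, 1, 3, 4, 5` and `0, 1, 3, 4, 8` here) under the group generated by `r1`, `r2`, `r3`. -/
def Facet (G : Finset (Fin 9)) : Prop :=
  ∃ g ∈ Subgroup.closure ({r1, r2, r3} : Set (Perm (Fin 9))),
    G = Finset.image g {0, 1, 3, 4, 5} ∨ G = Finset.image g {0, 1, 3, 4, 8}

/-- the generators, numbered -/
def gn (i : ℕ) : Perm (Fin 9) := if i = 0 then r1 else if i = 1 then r2 else r3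

/-- the value of a word -/
def ev (w : List ℕ) : Perm (Fin 9) := w.foldr (fun i p => gn i * p) 1

theorem ev_mem (w : List ℕ) : ev w ∈ Subgroup.closure ({r1, r2, r3} : Set (Perm (Fin 9))) := by
  induction w with
  | nil => exact Subgroup.one_mem _
  | cons i w ih =>
    have h : gn i ∈ Subgroup.closure ({r1, r2, r3} : Set (Perm (Fin 9))) := by
      refine Subgroup.subset_closure ?_
      unfold gn
      split_ifs
      · exact Or.inl rfl
      · exact Or.inr (Or.inl rfl)
      · exact Or.inr (Or.inr rfl)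
    exact Subgroup.mul_mem _ h ih

/-- words for the 36 simplices -/
def words : List (Bool × List ℕ) :=
  [(true, []), (true, [0]), (true, [0, 0]), (true, [0, 0, 1]), (true, [0, 1]), (true, [0, 1,
    0]), (true, [1]), (true, [1, 0]), (true, [1, 1]), (false, []), (false, [0]), (false,
    [0, 0]), (false, [0, 0, 1]), (false, [0, 0, 1, 0]), (false, [0, 1]), (false, [0, 1,
    0]), (false, [0, 1, 0, 0]), (false, [1]), (false, [1, 0]), (false, [1, 0, 0]), (false,
    [1, 0, 1]), (false, [1, 0, 1, 0]), (false, [1, 0, 1, 0, 0]), (false, [1, 1]), (false,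
    [1, 1, 0]), (false, [1, 1, 0, 0]), (false, [1, 1, 0, 1]), (false, [1, 1, 0, 1, 0]),
    (false, [1, 1, 0, 1, 0, 0]), (false, [1, 2, 0, 1]), (false, [1, 2, 0, 1, 0]), (false,
    [1, 2, 0, 1, 0, 0]), (false, [2, 0, 1]), (false, [2, 0, 1, 0]), (false, [2, 0, 1, 0,
    0]), (false, [2, 1, 0, 1])]

theorem exists_word : ∀ G ∈ CP29, ∃ w ∈ words,
    G = Finset.image (ev w.2) (if w.1 then {0, 1, 3, 4, 5} else {0, 1, 3, 4, 8}) := by
  decide +kernel

theorem inv_gen : ∀ G ∈ CP29, G.image r1 ∈ CP29 ∧ G.image r2 ∈ CP29 ∧ G.image r3 ∈ CP29 := by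
  decide +kernel

theorem image_mem_iff_of_forall {p : Perm (Fin 9)} (h : ∀ G ∈ CP29, G.image p ∈ CP29)
    (G : Finset (Fin 9)) : G.image p ∈ CP29 ↔ G ∈ CP29 := by
  refine ⟨fun hG => ?_, h G⟩
  -- the map `image p` permutes the finite set `CP29`
  have hinj : Set.InjOn (fun G : Finset (Fin 9) => G.image p) (CP29 : Set (Finset (Fin 9))) :=
    fun A _ B _ hAB => Finset.image_injective p.injective hAB
  have hs := Finset.surj_on_of_inj_on_of_card_le (s := CP29) (t := CP29)
    (fun G _ => G.image p) (fun G hG => h G hG)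
    (fun A B hA hB hAB => Finset.image_injective p.injective hAB) le_rfl (G.image p) hG
  obtain ⟨G', hG', hE⟩ := hs
  have := Finset.image_injective p.injective hE
  rwa [this]

theorem inv_closure {g : Perm (Fin 9)}
    (hg : g ∈ Subgroup.closure ({r1, r2, r3} : Set (Perm (Fin 9)))) :
    ∀ G : Finset (Fin 9), G.image g ∈ CP29 ↔ G ∈ CP29 := by
  induction hg using Subgroup.closure_induction with
  | mem x hx =>
    rcases hx with rfl | rfl | hx
    · exact image_mem_iff_of_forall fun G hG => (inv_gen G hG).1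
    · exact image_mem_iff_of_forall fun G hG => (inv_gen G hG).2.1
    · rw [Set.mem_singleton_iff] at hx
      subst hx
      exact image_mem_iff_of_forall fun G hG => (inv_gen G hG).2.2
  | one =>
    intro G
    have : G.image (1 : Perm (Fin 9)) = G := Finset.image_id
    rw [this]
  | mul x y _ _ hx hy =>
    intro G
    have : G.image (x * y : Perm (Fin 9)) = (G.image y).image x := by
      rw [Finset.image_image]
      rfl
    rw [this, hx, hy]
  | inv x _ hx =>
    intro G
    rw [← hx (G.image (x⁻¹ : Perm (Fin 9)))]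
    have : (G.image (x⁻¹ : Perm (Fin 9))).image x = G := by
      rw [Finset.image_image]
      have h2 : (x ∘ (x⁻¹ : Perm (Fin 9)) : Fin 9 → Fin 9) = id := by
        funext i
        simp
      rw [h2, Finset.image_id]
    rw [this]

theorem facet_iff (G : Finset (Fin 9)) : Facet G ↔ G ∈ CP29 := by
  constructor
  · rintro ⟨g, hg, rfl | rfl⟩
    · rw [inv_closure hg]
      decide +kernel
    · rw [inv_closure hg]
      decide +kernel
  · intro hG
    obtain ⟨w, -, hw⟩ := exists_word G hG
    refine ⟨ev w.2, ev_mem w.2, ?_⟩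
    by_cases h : w.1 = true
    · rw [if_pos h] at hw
      exact Or.inl hw
    · rw [if_neg h] at hw
      exact Or.inr hw

end Pool.Agent.H61.KU
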