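import Pool.Agent.H64.LB.Targets

/-!
# Kuiper board, part A: complements of cells, invariance of domain, topology of `CP^2`

Coefficients are always `ZMod 2`.  `PN 2` is the complex projective plane of
`Pool.Agent.H64.LB`, `HH R q Y` singular homology, `inc U` the inclusion of a subset.
-/

open Topology Set
open Pool.Agent.H59 Pool.Agent.H64.LB

namespace Pool.Agent.H61.KU

/-- The complement of `A` has the homology of a 4-dimensional closed manifold `Y` minus a point. -/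
def CellLike (Y : Type) [TopologicalSpace Y] (A : Set Y) : Prop :=
  (∀ q, q ≤ 3 → Function.Bijective (HH.map (ZMod 2) q (inc Aᶜ))) ∧
  (∀ q, 4 ≤ q → Subsingleton (HH (ZMod 2) q ↥(Aᶜ)))

/-- all points are `CellLike` -/
def PtLike (Y : Type) [TopologicalSpace Y] : Prop := ∀ y : Y, CellLike Y {y}

/-- injectivity up to degree `j`, surjectivity up to degree `j + 1` -/
def EL (Y : Type) [TopologicalSpace Y] (j : ℕ) (A : Set Y) : Prop :=
  (∀ q, q ≤ j → Function.Injective (HH.map (ZMod 2) q (inc Aᶜ))) ∧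
  (∀ q, q ≤ j + 1 → Function.Surjective (HH.map (ZMod 2) q (inc Aᶜ)))

/-- A01. Induction over an interval (Cousin's lemma). -/
def T_COU : Prop :=
  ∀ (Q : ℝ → ℝ → Prop) (a b : ℝ), a ≤ b →
    (∀ x x' y' y, x ≤ x' → x' ≤ y' → y' ≤ y → Q x y → Q x' y') →
    (∀ x y z, x ≤ y → y ≤ z → y ∈ Icc a b → Q x y → Q y z → Q x z) →
    (∀ c ∈ Icc a b, ∃ ε > 0, Q (c - ε) (c + ε)) → Q a b

/-- A02. If all slices of `A` are cell-like, then the complement of `A` has surjective maps to the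
homology of `Y` up to degree 3. -/
def T_SLS : Prop :=
  ∀ (Y : Type) [TopologicalSpace Y] [T2Space Y] (A : Set Y) (t : Y → ℝ) (a b : ℝ), IsCompact A →
    ContinuousOn t A → a ≤ b → (∀ y ∈ A, t y ∈ Icc a b) →
    (∀ c ∈ Icc a b, CellLike Y {y | y ∈ A ∧ t y = c}) →
    ∀ q, q ≤ 3 → Function.Surjective (HH.map (ZMod 2) q (inc Aᶜ))

/-- A03. If all slices of `A` are cell-like, so is `A`. -/
def T_SLA : Prop :=
  ∀ (Y : Type) [TopologicalSpace Y] [T2Space Y] (A : Set Y) (t : Y → ℝ) (a b : ℝ), IsCompact A →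
    ContinuousOn t A → a ≤ b → (∀ y ∈ A, t y ∈ Icc a b) →
    (∀ c ∈ Icc a b, CellLike Y {y | y ∈ A ∧ t y = c}) → CellLike Y A

/-- A04. Images of compact convex sets under injective continuous maps are cell-like. -/
def T_CEL : Prop :=
  ∀ (Y : Type) [TopologicalSpace Y] [T2Space Y], PtLike Y →
    ∀ (k : ℕ) (C : Set (Fin k → ℝ)) (h : (Fin k → ℝ) → Y), IsCompact C → Convex ℝ C →
      C.Nonempty → ContinuousOn h C → InjOn h C → CellLike Y (h '' C)

/-- A05. The same for compact convex sets in a finite dimensional normed space. -/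
def T_CEE : Prop :=
  ∀ (Y : Type) [TopologicalSpace Y] [T2Space Y], PtLike Y →
    ∀ (V : Type) [NormedAddCommGroup V] [NormedSpace ℝ V] [FiniteDimensional ℝ V]
      (C : Set V) (h : V → Y), IsCompact C → Convex ℝ C →
      C.Nonempty → ContinuousOn h C → InjOn h C → CellLike Y (h '' C)

/-- A06. Adding a closed set. -/
def T_ADD : Prop :=
  ∀ (Y : Type) [TopologicalSpace Y] (j : ℕ) (A D : Set Y), IsClosed A → IsClosed D →
    EL Y j A → EL Y j D → EL Y (j + 1) (A ∩ D) → EL Y j (A ∪ D)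

/-- A07. Complements of embedded complexes of dimension at most 2: `v` affinely independent, all
members of `K` have at most `d ≤ 3` elements. -/
def T_CPX : Prop :=
  ∀ (Y : Type) [TopologicalSpace Y] [T2Space Y] [CompactSpace Y], PtLike Y →
    ∀ (ι V : Type) [Fintype ι] [DecidableEq ι] [NormedAddCommGroup V] [NormedSpace ℝ V]
      [FiniteDimensional ℝ V] (f : C(Y, V)) (v : ι → V), Function.Injective f →
      AffineIndependent ℝ v → ∀ (d : ℕ) (K : Finset (Finset ι)), d ≤ 3 →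
      (∀ s ∈ K, s.card ≤ d ∧ convexHull ℝ (v '' (s : Set ι)) ⊆ range f) →
      EL Y (3 - d) (f ⁻¹' (⋃ s ∈ K, convexHull ℝ (v '' (s : Set ι))))

/-- A08. A map which is injective on `H_0` with path connected target has a connected source. -/
def T_PRE : Prop :=
  ∀ (Y Z : Type) [TopologicalSpace Y] [TopologicalSpace Z] [PathConnectedSpace Y] (f : C(Z, Y)),
    Function.Injective (HH.map (ZMod 2) 0 f) → PreconnectedSpace Z

/-- A09. Homology of the spheres. -/
def T_SPH : Prop :=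
  (∀ k, Nontrivial (HH (ZMod 2) k (Sph k))) ∧
  (∀ k q, 0 < q → q ≠ k → Subsingleton (HH (ZMod 2) q (Sph k))) ∧
  (∀ k, 1 ≤ k → PathConnectedSpace (Sph k)) ∧
  (∃ z : HH (ZMod 2) 0 (Sph 0), z ≠ 0 ∧
    ∀ (Y : Type) [TopologicalSpace Y] [PathConnectedSpace Y] (f : C(Sph 0, Y)),
      HH.map (ZMod 2) 0 f z = 0)

/-- the 4-dimensional sphere -/
abbrev S4 : Type := Metric.sphere (0 : EuclideanSpace ℝ (Fin 5)) 1

/-- A10. Topology of the 4-sphere minus points. -/
def T_S4A : Prop :=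
  PathConnectedSpace S4 ∧ (∀ q, 1 ≤ q → q ≤ 3 → Subsingleton (HH (ZMod 2) q S4)) ∧ PtLike S4 ∧
  (∀ y z : S4, y ≠ z → Nontrivial (HH (ZMod 2) 3 ↥(({y, z} : Set S4)ᶜ))) ∧
  (∃ c : (Fin 4 → ℝ) → S4, IsOpenEmbedding c) ∧ LocallyPathConnectedSpace S4

/-- the unit ball of `ℝ^4` -/
def Ball4 : Set (Fin 4 → ℝ) := {x | ∑ i, x i ^ 2 ≤ 1}

/-- the unit sphere of `ℝ^4` -/
def Sphere4 : Set (Fin 4 → ℝ) := {x | ∑ i, x i ^ 2 = 1}

/-- A11. The image of the 3-sphere separates the 4-sphere. -/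
def T_SEP : Prop :=
  ∀ h : (Fin 4 → ℝ) → S4, ContinuousOn h Sphere4 → InjOn h Sphere4 →
    ¬ IsPreconnected ((h '' Sphere4)ᶜ)

/-- A12. Invariance of domain in dimension 4. -/
def T_DOM : Prop :=
  ∀ (U : Set (Fin 4 → ℝ)) (g : (Fin 4 → ℝ) → (Fin 4 → ℝ)), IsOpen U → ContinuousOn g U →
    InjOn g U → IsOpen (g '' U)

/-- A13. Charts of `PN 2`. -/
def T_CHP : Prop :=
  ∀ x : PN 2, ∃ c : (Fin 4 → ℝ) → PN 2, IsOpenEmbedding c ∧ c 0 = x

/-- A14. Invariance of domain with target `PN 2`. -/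
def T_DOX : Prop :=
  ∀ (U : Set (Fin 4 → ℝ)) (g : (Fin 4 → ℝ) → PN 2), IsOpen U → ContinuousOn g U →
    InjOn g U → IsOpen (g '' U)

/-- A15. No 5-dimensional ball embeds in `PN 2`. -/
def T_DI5 : Prop :=
  ∀ (U : Set (Fin 5 → ℝ)) (g : (Fin 5 → ℝ) → PN 2), IsOpen U → U.Nonempty → ContinuousOn g U →
    InjOn g U → False

/-- A16. Projective spaces are homogeneous. -/
def T_HOM : Prop := ∀ (n : ℕ) (x y : PN n), ∃ e : PN n ≃ₜ PN n, e x = y

/-- A17. The homology of `PN 2` and `PN 2` minus a point. -/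
def T_XHO : Prop :=
  PathConnectedSpace (PN 2) ∧ PtLike (PN 2) ∧
  Subsingleton (HH (ZMod 2) 1 (PN 2)) ∧ Subsingleton (HH (ZMod 2) 3 (PN 2)) ∧
  (∀ q, 5 ≤ q → Subsingleton (HH (ZMod 2) q (PN 2))) ∧ CompactSpace (PN 2) ∧ T2Space (PN 2)

/-- A18. Two maps of the 2-sphere to the complex projective plane with disjoint images are not both
injective on `H_2`. -/
def T_T3 : Prop :=
  ∀ α β : C(Sph 2, PN 2), (∀ s t, α s ≠ β t) → Function.Injective (HH.map (ZMod 2) 2 α) →
    Function.Injective (HH.map (ZMod 2) 2 β) → False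

end Pool.Agent.H61.KU
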