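import Pool.Agent.H61.KU.TA
import Pool.Agent.H61.KU.TC

/-!
# Kuiper board, part B: from a tight embedding to the family of minimal faces

`E8` is Euclidean 8-space, `cv v F` the convex hull of the points `v i`, `i ∈ F`, and
`hom v i = (v i, 1)` the homogenisation (the faces of the polytope are the faces of `hom v` in the
sense of part C, `rk (hom v) F` is the dimension of the face plus one).
-/

open Topology Set
open Pool.Agent.H59 Pool.Agent.H64.LB
open scoped unitInterval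

namespace Pool.Agent.H61.KU

/-- Euclidean 8-space -/
abbrev E8 : Type := EuclideanSpace ℝ (Fin 8)

/-- Tightness: for every closed half-space the inclusion of the part of `CP^2` in it induces an
injective map in homology with coefficients `ZMod 2`, in all degrees. -/
def Tight (f : C(PN 2, E8)) : Prop :=
  ∀ (ξ : E8) (c : ℝ), ξ ≠ 0 → ∀ i : ℕ,
    Function.Injective (HH.map (ZMod 2) i (inc {x : PN 2 | inner ℝ ξ (f x) ≤ c}))

/-- The image lies in no affine hyperplane. -/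
def Substantial (f : C(PN 2, E8)) : Prop :=
  ∀ (ξ : E8) (c : ℝ), ξ ≠ 0 → ∃ x, inner ℝ ξ (f x) ≠ c

section defs

variable {ι : Type}

/-- convex hull of the vertices of a face -/
def cv (v : ι → E8) (F : Finset ι) : Set E8 := convexHull ℝ (v '' (F : Set ι))

/-- homogenisation -/
def hom (v : ι → E8) (i : ι) : E8 × ℝ := (v i, 1)

/-- The situation: `f` is an embedding with the two-piece property for open half-spaces, and `v`
are the vertices of its convex hull. -/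
structure Sit [Fintype ι] (f : C(PN 2, E8)) (v : ι → E8) : Prop where
  inj : Function.Injective f
  ot : ∀ (ξ : E8) (c : ℝ) (i : ℕ),
    Function.Injective (HH.map (ZMod 2) i (inc {x : PN 2 | inner ℝ ξ (f x) < c}))
  vert : ∀ i, v i ∈ range f
  hull : ∀ x, f x ∈ convexHull ℝ (range v)
  conf : Conf (hom v)

/-- minimal faces which are not contained in the image of `f` -/
def EE (f : C(PN 2, E8)) (v : ι → E8) (T : Finset ι) : Prop :=
  IsFace (hom v) T ∧ ¬ cv v T ⊆ range f ∧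
    ∀ G, IsFace (hom v) G → G ⊂ T → cv v G ⊆ range f

end defs

/-- radial projection to the frontier of a convex set -/
noncomputable def rad {V : Type} [AddCommGroup V] [Module ℝ V] (K : Set V) (u : V) : V :=
  (gauge K u)⁻¹ • u

/-- B01. Tightness for open half-spaces. -/
def T_OTI : Prop :=
  ∀ f : C(PN 2, E8), Tight f → ∀ (ξ : E8) (c : ℝ) (i : ℕ),
    Function.Injective (HH.map (ZMod 2) i (inc {x : PN 2 | inner ℝ ξ (f x) < c}))

/-- B02. The vertices of the convex hull. -/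
def T_SIT : Prop :=
  ∀ f : C(PN 2, E8), Function.Injective f → Tight f → Substantial f →
    (∃ S : Set E8, S.Finite ∧ convexHull ℝ (range f) = convexHull ℝ S) →
    ∃ (n : ℕ) (v : Fin n → E8), Sit f v

/-- B03. The gauge of a convex body. -/
def T_GAU : Prop :=
  ∀ (V : Type) [NormedAddCommGroup V] [NormedSpace ℝ V] [FiniteDimensional ℝ V] (K : Set V),
    IsCompact K → Convex ℝ K → (0 : V) ∈ interior K →
    (∀ u, u ≠ 0 → 0 < gauge K u) ∧ Continuous (gauge K) ∧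
    (∀ u, u ≠ 0 → rad K u ∈ frontier K) ∧ (∀ u, u ∈ frontier K ↔ gauge K u = 1) ∧
    (∀ u, u ∈ K ↔ gauge K u ≤ 1) ∧ (∀ u, u ∈ interior K ↔ gauge K u < 1)

/-- B04. Lifting through the embedding. -/
def T_LFT : Prop :=
  ∀ f : C(PN 2, E8), Function.Injective f → ∀ (T : Type) [TopologicalSpace T] (φ : C(T, E8)),
    (∀ t, φ t ∈ range f) → ∃ ψ : C(T, PN 2), ∀ t, f (ψ t) = φ t

/-- B05. Coordinates on the affine span of a face. -/
def T_CR0 : Prop :=
  ∀ (ι : Type) [Fintype ι] [DecidableEq ι] (v : ι → E8) (F : Finset ι) (n : ℕ) (p : E8),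
    rk (hom v) F = n + 1 → p ∈ cv v F →
    ∃ j : (Fin n → ℝ) →ᵃ[ℝ] E8, Function.Injective j ∧ j 0 = p ∧ cv v F ⊆ range j ∧
      IsCompact (j ⁻¹' cv v F) ∧ Convex ℝ (j ⁻¹' cv v F) ∧ (interior (j ⁻¹' cv v F)).Nonempty

/-- B06. Supporting hyperplanes: in coordinates, a point of the polytope `cv v F` which is not
interior lies in a proper face. -/
def T_SUP : Prop :=
  ∀ (ι V : Type) [Fintype ι] [DecidableEq ι] [NormedAddCommGroup V] [NormedSpace ℝ V]
    [FiniteDimensional ℝ V] (v : ι → E8) (F : Finset ι) (j : V →ᵃ[ℝ] E8),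
    IsFace (hom v) F → Function.Injective j → cv v F ⊆ range j →
    (interior (j ⁻¹' cv v F)).Nonempty → ∀ y : V, j y ∈ cv v F → y ∉ interior (j ⁻¹' cv v F) →
    ∃ G, IsFace (hom v) G ∧ G ⊂ F ∧ j y ∈ cv v G

/-- B07. Points of disjoint faces; the hull of a face as a set of zeros; points in the relative
interior. -/
def T_FCV : Prop :=
  ∀ (ι : Type) [Fintype ι] [DecidableEq ι] (v : ι → E8),
    (∀ (F : Finset ι) (l : E8 × ℝ →ₗ[ℝ] ℝ), (∀ i, 0 ≤ l (hom v i)) →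
      (∀ i, l (hom v i) = 0 ↔ i ∈ F) → (∀ x ∈ convexHull ℝ (range v), 0 ≤ l (x, 1)) ∧
      ∀ x ∈ convexHull ℝ (range v), l (x, 1) = 0 ↔ x ∈ cv v F) ∧
    (∀ F G : Finset ι, IsFace (hom v) F → IsFace (hom v) G → cv v F ∩ cv v G = cv v (F ∩ G)) ∧
    (∀ F G : Finset ι, F ⊆ G → cv v F ⊆ cv v G) ∧
    (∀ F : Finset ι, cv v F ⊆ convexHull ℝ (range v) ∧ IsCompact (cv v F)) ∧
    (∀ (F : Finset ι), IsFace (hom v) F → F.Nonempty → ∃ w ∈ cv v F,
      ∀ G, IsFace (hom v) G → G ⊂ F → w ∉ cv v G)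

/-- B08. Every face which is not contained in the image contains a minimal one. -/
def T_MNF : Prop :=
  ∀ (ι : Type) [Fintype ι] [DecidableEq ι] (f : C(PN 2, E8)) (v : ι → E8) (F : Finset ι),
    IsFace (hom v) F → ¬ cv v F ⊆ range f → ∃ T, EE f v T ∧ T ⊆ F

/-- B09. The sphere around a missing point is not trivial in the homology of `PN 2`. -/
def T_TOP : Prop :=
  ∀ (ι : Type) [Fintype ι] (f : C(PN 2, E8)) (v : ι → E8), Sit f v →
    ∀ (d : ℕ) (j : (Fin (d + 1) → ℝ) →ᵃ[ℝ] E8) (K : Set (Fin (d + 1) → ℝ)) (ξ : E8) (c : ℝ)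
      (α : C(Sph d, PN 2)), Function.Injective j → IsCompact K → Convex ℝ K →
      (0 : Fin (d + 1) → ℝ) ∈ interior K → j 0 ∉ range f → (∀ y ∈ K, inner ℝ ξ (j y) = c) →
      (∀ x, c ≤ inner ℝ ξ (f x)) → (∀ x, inner ℝ ξ (f x) = c → ∃ y ∈ K, j y = f x) →
      (∀ u, f (α u) = j (rad K u.1)) → ∀ i, Function.Injective (HH.map (ZMod 2) i α)

/-- B10. The minimal faces not contained in the image are 3-dimensional. -/
def T_P1 : Prop :=
  ∀ (ι : Type) [Fintype ι] [DecidableEq ι] (f : C(PN 2, E8)) (v : ι → E8), Sit f v →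
    ∀ T, EE f v T → rk (hom v) T = 4 ∧
      ∃ α : C(Sph 2, PN 2), Function.Injective (HH.map (ZMod 2) 2 α) ∧ ∀ u, f (α u) ∈ cv v T

/-- B11. Faces of dimension at least 5 contain minimal faces. -/
def T_B1 : Prop :=
  ∀ (ι : Type) [Fintype ι] [DecidableEq ι] (f : C(PN 2, E8)) (v : ι → E8), Sit f v →
    ∀ F, IsFace (hom v) F → 6 ≤ rk (hom v) F → ∃ T, EE f v T ∧ T ⊆ F

/-- B12. Two minimal faces meet. -/
def T_B2 : Prop :=
  ∀ (ι : Type) [Fintype ι] [DecidableEq ι] (f : C(PN 2, E8)) (v : ι → E8), Sit f v →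
    ∀ T T', EE f v T → EE f v T' → ¬ Disjoint T T'

/-- B13. Geometry of the null-homotopy. -/
def T_NUL : Prop :=
  ∀ K : Set ((Fin 3 → ℝ) × ℝ), IsCompact K → Convex ℝ K → (∀ p ∈ K, 0 ≤ p.2) →
    (0 : Fin 3 → ℝ) ∈ interior {x : Fin 3 → ℝ | (x, (0 : ℝ)) ∈ K} →
    ((0 : Fin 3 → ℝ), (1 : ℝ)) ∈ interior K →
    ∃ H : C(I × Sph 2, (Fin 3 → ℝ) × ℝ),
      (∀ u, H (0, u) = (rad {x : Fin 3 → ℝ | (x, (0 : ℝ)) ∈ K} u.1, 0)) ∧
      (∃ w, ∀ u, H (1, u) = w) ∧
      ∀ t u, H (t, u) ∈ frontier K ∧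
        ∀ y ∈ interior {x : Fin 3 → ℝ | (x, (0 : ℝ)) ∈ K}, H (t, u) ≠ (y, 0)

/-- B14. A 4-dimensional face which contains a minimal face contains two. -/
def T_B3 : Prop :=
  ∀ (ι : Type) [Fintype ι] [DecidableEq ι] (f : C(PN 2, E8)) (v : ι → E8), Sit f v →
    ∀ T F, EE f v T → IsFace (hom v) F → rk (hom v) F = 5 → T ⊆ F →
      ∃ T', EE f v T' ∧ T' ⊆ F ∧ T' ≠ T

/-- B15. A 4-simplex in the image contains a neighbourhood of its interior points. -/
def T_LO1 : Prop :=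
  ∀ (f : C(PN 2, E8)) (v : Fin 9 → E8) (G : Finset (Fin 9)) (w : Fin 9 → ℝ) (y : PN 2),
    Function.Injective f → AffineIndependent ℝ v → G.card = 5 → cv v G ⊆ range f →
    (∀ i ∈ G, 0 < w i) → (∀ i, i ∉ G → w i = 0) → ∑ i, w i = 1 → f y = ∑ i, w i • v i →
    ∃ O : Set (PN 2), IsOpen O ∧ y ∈ O ∧ ∀ z ∈ O, f z ∈ cv v G

/-- B16. The same for two 4-simplices with a common 3-face. -/
def T_LO2 : Prop :=
  ∀ (f : C(PN 2, E8)) (v : Fin 9 → E8) (W : Finset (Fin 9)) (a b : Fin 9) (w : Fin 9 → ℝ)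
    (y : PN 2), Function.Injective f → AffineIndependent ℝ v → W.card = 4 → a ∉ W → b ∉ W →
    a ≠ b → cv v (insert a W) ⊆ range f → cv v (insert b W) ⊆ range f →
    (∀ i ∈ W, 0 < w i) → (∀ i, i ∉ W → w i = 0) → ∑ i, w i = 1 → f y = ∑ i, w i • v i →
    ∃ O : Set (PN 2), IsOpen O ∧ y ∈ O ∧ ∀ z ∈ O, f z ∈ cv v (insert a W) ∪ cv v (insert b W)

/-- B17. At most two 4-simplices at a 3-simplex. -/
def T_D3 : Prop :=
  ∀ (f : C(PN 2, E8)) (v : Fin 9 → E8) (W : Finset (Fin 9)) (a b c : Fin 9),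
    Function.Injective f → AffineIndependent ℝ v → W.card = 4 → a ∉ W → b ∉ W → c ∉ W →
    a ≠ b → b ≠ c → a ≠ c → cv v (insert a W) ⊆ range f → cv v (insert b W) ⊆ range f →
    cv v (insert c W) ⊆ range f → False

/-- B18. A family of 4-simplices in the image which is closed under passing to the neighbour over
a 3-face covers the image up to the triangles. -/
def T_CLO : Prop :=
  ∀ (f : C(PN 2, E8)) (v : Fin 9 → E8) (A : Finset (Finset (Fin 9))),
    Function.Injective f → AffineIndependent ℝ v → A.Nonempty →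
    (∀ G ∈ A, G.card = 5 ∧ cv v G ⊆ range f) →
    (∀ s : Finset (Fin 9), s.card = 3 → cv v s ⊆ range f) →
    (∀ W : Finset (Fin 9), W.card = 4 → ∀ a, a ∉ W → insert a W ∈ A →
      ∃ b, b ∉ W ∧ b ≠ a ∧ insert b W ∈ A) →
    ∀ x ∈ range f, (∃ G ∈ A, x ∈ cv v G) ∨ ∃ s : Finset (Fin 9), s.card = 3 ∧ x ∈ cv v s

/-- D01. Counting. -/
def T_CNT : Prop :=
  ∀ E : Finset (Finset (Fin 9)), E.Nonempty → (∀ T ∈ E, T.card = 4) →
    (∀ T ∈ E, ∀ T' ∈ E, ¬ Disjoint T T') →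
    (∀ T ∈ E, ∀ x, x ∉ T → ∃ y ∈ T, insert x (T.erase y) ∈ E) →
    (∀ (W : Finset (Fin 9)) (a b c : Fin 9), W.card = 4 → a ∉ W → b ∉ W → c ∉ W →
      a ≠ b → b ≠ c → a ≠ c → (∀ T ∈ E, ¬ T ⊆ insert a W) → (∀ T ∈ E, ¬ T ⊆ insert b W) →
      (∀ T ∈ E, ¬ T ⊆ insert c W) → False) →
    (∀ W : Finset (Fin 9), W.card = 4 → (W ∈ E ↔ ∀ T ∈ E, ¬ T ⊆ Wᶜ)) ∧
    (∀ W : Finset (Fin 9), W.card = 4 → W ∉ E →
      ∃ a b, a ∉ W ∧ b ∉ W ∧ a ≠ b ∧ (∀ T ∈ E, ¬ T ⊆ insert a W) ∧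
        (∀ T ∈ E, ¬ T ⊆ insert b W) ∧
        ∀ c, c ∉ W → (∀ T ∈ E, ¬ T ⊆ insert c W) → c = a ∨ c = b)

end Pool.Agent.H61.KU
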