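import Pool.Agent.H61.KU.PNB

/-!
# Kuiper board, part T: two disjoint maps of the 2-sphere to `PN 2`

Notation (file PNB): `q0 = [0:0:1]`, `NN = PN 2 ∖ q0`, `rho : NN → PN 1` the projection from `q0`,
`iota : PN 1 → PN 2` the line at infinity, `perp : PN 1 → PN 1` the orthogonal line, `P2 u = [u]`,
`P3 u c = [u : c]`, `PNN u c h` the point `[u : c]` of `NN`.
-/

open Topology Set
open Pool.Agent.H59 Pool.Agent.H64.LB Pool.Agent.H24.LB
open scoped unitInterval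

namespace Pool.Agent.H61.KU

/-- the complement of the graph of `δ` -/
def Gh (δ : C(S2, PN 1)) : Set (S2 × PN 1) := {p | p.2 ≠ δ p.1}

/-- the complement of the graph of `α` -/
def DA (α : C(S2, NN)) : Set (S2 × NN) := {p | p.2 ≠ α p.1}

/-- pairs `(s, y)` with `rho y ≠ rho (α s)` -/
def GA (α : C(S2, NN)) : Set (S2 × NN) := {p | rho p.2 ≠ rho (α p.1)}

/-- pairs `(s, y)` with `y ≠ α s` and `rho y` not orthogonal to `rho (α s)` -/
def VA (α : C(S2, NN)) : Set (S2 × NN) := {p | p.2 ≠ α p.1 ∧ rho p.2 ≠ perp (rho (α p.1))}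

/-- the pull-back by `δ` of the bundle `ℂ² ∖ 0 → PN 1` -/
abbrev UU (δ : C(S2, PN 1)) : Type := {p : S2 × NZ 1 // pt p.2 = δ p.1}

/-- nonzero complex numbers -/
abbrev Cx : Type := {z : ℂ // z ≠ 0}

/-- `(s, y)`, `y` on the line through `q0` and the point `δ s` at infinity -/
def PDs (δ : C(S2, PN 1)) : Set (S2 × PN 2) :=
  {p | ∃ (u : Fin 2 → ℂ) (c : ℂ), ¬ (u = 0 ∧ c = 0) ∧ p.2 = P3 u c ∧ (u = 0 ∨ P2 u = δ p.1)}

/-- the projective line bundle `PDs δ` as a space -/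
abbrev PD (δ : C(S2, PN 1)) : Type := ↥(PDs δ)

/-- the upper open cap of the sphere -/
def Dp : Set S2 := {x | -(1 / 2 : ℝ) < x.1 2}

/-- the lower open cap of the sphere -/
def Dm : Set S2 := {x | x.1 2 < (1 / 2 : ℝ)}

/-- the map `(s, y) ↦ (s, rho y)` -/
noncomputable def Prho : C(S2 × NN, S2 × PN 1) := (ContinuousMap.id S2).prodMap rho

/-- T01. The complement of the graph of `δ`. -/
def T_GH4 : Prop := ∀ δ : C(S2, PN 1), Subsingleton (HH (ZMod 2) 4 ↥(Gh δ))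

/-- T02. The coordinates `(d, m) ↦ [d + m J d : a(d) + 1]`. -/
def T_PHI : Prop :=
  ∀ α : C(S2, NN), ∃ Φ : UU (rho.comp α) × ℂ → S2 × NN, IsOpenEmbedding Φ ∧ range Φ ⊆ VA α ∧
    VA α ⊆ GA α ∪ range Φ ∧ ∀ x, Φ x ∈ GA α ↔ x.2 ≠ 0

/-- T03. Products with `ℂ ∖ 0`. -/
def T_KC : Prop :=
  ∀ (T : Type) [TopologicalSpace T], Subsingleton (HH (ZMod 2) 2 T) →
    Function.Injective (HH.map (ZMod 2) 3 (ContinuousMap.fst : C(T × Cx, T)))

/-- T04. The inclusion `GA ∩ VA → VA` is injective on `H_3`. -/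
def T_OV : Prop :=
  ∀ α : C(S2, NN), Subsingleton (HH (ZMod 2) 2 (UU (rho.comp α))) →
    Function.Injective (HH.map (ZMod 2) 3 (incR (GA α) (VA α)))

/-- T05. The projection of the complement of the graph of `α` to `S2 × PN 1` is zero on `H_4`. -/
def T_ZER : Prop :=
  ∀ α : C(S2, NN), Subsingleton (HH (ZMod 2) 2 (UU (rho.comp α))) →
    ∀ w : HH (ZMod 2) 4 ↥(DA α), HH.map (ZMod 2) 4 (Prho.comp (inc (DA α))) w = 0

/-- T06. Products. -/
def T_KKN : Prop :=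
  ∀ ε : C(S2, PN 1), HH.map (ZMod 2) 2 ε ≠ 0 →
    HH.map (ZMod 2) 4 ((ContinuousMap.id S2).prodMap ε) ≠ 0

/-- T07. A map to the projective line which is homotopic to a constant map lifts to `ℂ² ∖ 0`
(compact source). -/
def T_LIF : Prop :=
  ∀ (D : Type) [TopologicalSpace D] [CompactSpace D] (H : C(D × I, PN 1)) (l : PN 1),
    (∀ x, H (x, 0) = l) → ∃ g : C(D, NZ 1), ∀ x, pt (g x) = H (x, 1)

/-- T08. Lifts over the caps. -/
def T_CAP : Prop :=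
  ∀ δ : C(S2, PN 1), (∃ g : C(Dp, NZ 1), ∀ x, pt (g x) = δ x.1) ∧
    (∃ g : C(Dm, NZ 1), ∀ x, pt (g x) = δ x.1)

/-- T09. Topology of the caps. -/
def T_CPT : Prop :=
  IsOpen Dp ∧ IsOpen Dm ∧ Dp ∪ Dm = univ ∧ ContractibleSpace Dp ∧ ContractibleSpace Dm ∧
    Nonempty (ContinuousMap.HomotopyEquiv (Sph 1) ↥(Dp ∩ Dm))

/-- T10. Trivialisation of `PD δ` over a set on which `δ` lifts. -/
def T_TRV : Prop :=
  ∀ (δ : C(S2, PN 1)) (D : Set S2) (g : C(D, NZ 1)), (∀ x, pt (g x) = δ x.1) →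
    ∃ e : D × PN 1 ≃ₜ {p : PD δ // p.1.1 ∈ D}, ∀ (x : D) (a b : ℂ), ¬ (a = 0 ∧ b = 0) →
      (e (x, P2 ![a, b])).1.1 = (x.1, P3 (a • (g x).1) b)

/-- T11. -/
def T_PD3 : Prop := ∀ δ : C(S2, PN 1), Subsingleton (HH (ZMod 2) 3 (PD δ))

/-- T12. The two parts `y ≠ q0` and `y` not at infinity of `PD δ`. -/
def T_PD2 : Prop :=
  ∀ δ : C(S2, PN 1), Function.Injective (HH.map (ZMod 2) 2 (iota.comp δ)) →
    IsOpen {p : PD δ | p.1.2 ≠ q0} ∧ IsOpen {p : PD δ | p.1.2 ∉ range iota} ∧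
    ∀ (a : HH (ZMod 2) 2 ↥{p : PD δ | p.1.2 ≠ q0})
      (b : HH (ZMod 2) 2 ↥{p : PD δ | p.1.2 ∉ range iota}),
      HH.map (ZMod 2) 2 (inc {p : PD δ | p.1.2 ≠ q0}) a +
        HH.map (ZMod 2) 2 (inc {p : PD δ | p.1.2 ∉ range iota}) b = 0 → a = 0 ∧ b = 0

/-- T13. -/
def T_UU2 : Prop :=
  ∀ δ : C(S2, PN 1), Function.Injective (HH.map (ZMod 2) 2 (iota.comp δ)) →
    Subsingleton (HH (ZMod 2) 2 (UU δ))

/-- T14. The theorem for maps which miss `q0`. -/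
def T_T3N : Prop :=
  ∀ α β : C(S2, NN), (∀ s t, α s ≠ β t) →
    Function.Injective (HH.map (ZMod 2) 2 ((inc (({q0} : Set (PN 2))ᶜ)).comp α)) →
    Function.Injective (HH.map (ZMod 2) 2 ((inc (({q0} : Set (PN 2))ᶜ)).comp β)) → False

end Pool.Agent.H61.KU
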