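import Mathlib

/-!
# Kuiper board, uniqueness of the family of 4-simplices: certificate checker

Subsets of `Fin 9` are encoded by bit masks `m < 512`, families of subsets by numbers with 512 bits.
-/

namespace Pool.Agent.H61.KU

/-- The 36 four-dimensional simplices of `CP^2_9` (vertices `0, ..., 8` instead of `1, ..., 9`). -/
def CP29 : Finset (Finset (Fin 9)) :=
  {{0, 1, 2, 6, 7}, {0, 1, 2, 6, 8}, {0, 1, 2, 7, 8}, {0, 1, 3, 4, 5}, {0, 1, 3, 4, 8},
   {0, 1, 3, 5, 6}, {0, 1, 3, 6, 8}, {0, 1, 4, 5, 7}, {0, 1, 4, 7, 8}, {0, 1, 5, 6, 7},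
   {0, 2, 3, 4, 5}, {0, 2, 3, 4, 6}, {0, 2, 3, 5, 7}, {0, 2, 3, 6, 7}, {0, 2, 4, 5, 8},
   {0, 2, 4, 6, 8}, {0, 2, 5, 7, 8}, {0, 3, 4, 6, 8}, {0, 3, 5, 6, 7}, {0, 4, 5, 7, 8},
   {1, 2, 3, 4, 5}, {1, 2, 3, 4, 7}, {1, 2, 3, 5, 8}, {1, 2, 3, 7, 8}, {1, 2, 4, 5, 6},
   {1, 2, 4, 6, 7}, {1, 2, 5, 6, 8}, {1, 3, 4, 7, 8}, {1, 3, 5, 6, 8}, {1, 4, 5, 6, 7},
   {2, 3, 4, 6, 7}, {2, 3, 5, 7, 8}, {2, 4, 5, 6, 8}, {3, 4, 6, 7, 8}, {3, 5, 6, 7, 8},
   {4, 5, 6, 7, 8}}

/-- the set of a mask -/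
def toS (m : ℕ) : Finset (Fin 9) := Finset.univ.filter (fun i => m.testBit i.1 = true)

/-- all masks with five bits -/
def M5 : ℕ := 205454772336946395374343764815705827991944012772079336437347136784664225639101678741019292302925524418983997097880269416530731082762110113417617473536

/-- all masks with four bits -/
def M4 : ℕ := 3121796386479804160179017604590125557629634993690129287588491382924251465799561341753916710568357666719058971460838267436738415225629847385571328

/-- the masks of the sets of `CP29` -/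
def CPM : List ℕ := [199, 327, 391, 59, 283, 107, 331, 179, 403, 227, 61, 93, 173, 205, 309, 341, 421, 345, 233, 433, 62, 158, 302, 398, 118, 214, 358, 410, 362, 242, 220, 428, 372, 472, 488, 496]

/-- Conditions on a family `A` of subsets. -/
structure Good (A : Finset (Finset (Fin 9))) : Prop where
  card : ∀ G ∈ A, G.card = 5
  g1 : ∀ W : Finset (Fin 9), W.card = 4 → Wᶜ ∈ A → ∀ a, a ∉ W → insert a W ∉ A
  g2 : ∀ (W : Finset (Fin 9)) (a b c : Fin 9), W.card = 4 → a ∉ W → b ∉ W → c ∉ W → a ≠ b →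
    b ≠ c → a ≠ c → insert a W ∈ A → insert b W ∈ A → insert c W ∈ A → False
  g3 : ∀ W : Finset (Fin 9), W.card = 4 → Wᶜ ∉ A → ∀ a, a ∉ W → ∃ b, b ∉ W ∧ b ≠ a ∧
    insert b W ∈ A
  conn : ∀ B, B ⊆ A → B.Nonempty → (∀ W : Finset (Fin 9), W.card = 4 → ∀ a, a ∉ W →
    insert a W ∈ B → ∀ b, b ∉ W → insert b W ∈ A → insert b W ∈ B) → B = A

/-- the conclusion -/
def Concl (A : Finset (Finset (Fin 9))) : Prop :=
  ∃ σ : Equiv.Perm (Fin 9), A = CP29.image (fun G => G.image σ)

/-- image of a mask under a permutation given as a list -/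
def pm (s : List ℕ) (m : ℕ) : ℕ :=
  (List.range 9).foldr (fun i r => if m.testBit i then r ||| 2 ^ (s.getD i 0) else r) 0

/-- the list is a permutation of `0, ..., 8` -/
def isP (s : List ℕ) : Bool :=
  (List.range 9).all (fun i => decide (s.getD i 0 < 9)) &&
    (List.range 9).all (fun j => (List.range 9).any (fun i => s.getD i 0 == j))

/-- proof trees -/
inductive Tr : Type
  | cA (w i : ℕ) : Tr
  | cB (w i j k : ℕ) : Tr
  | cC (w i : ℕ) : Tr
  | sp (m : ℕ) (t u : Tr) : Tr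
  | ref (n : ℕ) (s : List ℕ) : Tr
  | cut (ls : List (ℕ × Bool)) (t u : Tr) : Tr
  | iso (s : List ℕ) : Tr
  | dis (m : ℕ) : Tr

/-- union of the bits of a list of masks -/
def bitsOf (l : List ℕ) : ℕ := l.foldr (fun m r => r ||| 2 ^ m) 0

/-- the checker -/
def chk : List (List (ℕ × Bool)) → Tr → ℕ → ℕ → Bool
  | _, .cA w i, T, _ => M4.testBit w && decide (i < 9) && !w.testBit i && T.testBit (511 ^^^ w) &&
      T.testBit (w ||| 2 ^ i)
  | _, .cB w i j k, T, _ => M4.testBit w && decide (i < j) && decide (j < k) && decide (k < 9) &&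
      !w.testBit i && !w.testBit j && !w.testBit k && T.testBit (w ||| 2 ^ i) &&
      T.testBit (w ||| 2 ^ j) && T.testBit (w ||| 2 ^ k)
  | _, .cC w i, T, F => M4.testBit w && decide (i < 9) && !w.testBit i &&
      (List.range 9).all (fun j => w.testBit j || (j == i) || F.testBit (w ||| 2 ^ j)) &&
      (F.testBit (511 ^^^ w) || T.testBit (w ||| 2 ^ i))
  | c, .sp m t u, T, F => chk c t (T ||| 2 ^ m) F && chk c u T (F ||| 2 ^ m)
  | c, .ref n s, T, F => isP s && (match c.drop n with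
      | [] => false
      | ls :: _ => ls.all (fun p => if p.2 then T.testBit (pm s p.1) else F.testBit (pm s p.1)))
  | c, .cut ls t u, T, F =>
      chk c t (bitsOf ((ls.filter (fun p => p.2)).map Prod.fst))
        (bitsOf ((ls.filter (fun p => !p.2)).map Prod.fst)) && chk (c ++ [ls]) u T F
  | _, .iso s, T, F => isP s && ((T ||| F) &&& M5 == M5) && (T == bitsOf (CPM.map (pm s)))
  | _, .dis m, T, F => ((T ||| F) &&& M5 == M5) && (T &&& M5 == T) && (m &&& T == m) &&
      !(m == 0) && !(m == T) &&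
      (List.range 512).all (fun w => !M4.testBit w || (List.range 9).all (fun i =>
        !m.testBit (w ||| 2 ^ i) || w.testBit i || (List.range 9).all (fun j =>
          w.testBit j || !T.testBit (w ||| 2 ^ j) || m.testBit (w ||| 2 ^ j))))

end Pool.Agent.H61.KU
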