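import Pool.Agent.H61.KU.UnqDefs

/-!
# Kuiper board, uniqueness of the family of 4-simplices: soundness of the checker
-/

namespace Pool.Agent.H61.KU

open Finset

theorem mem_toS {m : ℕ} {i : Fin 9} : i ∈ toS m ↔ m.testBit i.1 = true := by
  simp [toS]

theorem testBit_511 (i : Fin 9) : (511 : ℕ).testBit i.1 = true := by
  revert i
  decide

theorem toS_compl (w : ℕ) : toS (511 ^^^ w) = (toS w)ᶜ := by
  ext i
  rw [mem_compl, mem_toS, mem_toS, Nat.testBit_xor, testBit_511]
  cases w.testBit i.1 <;> simp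

theorem toS_insert (w i : ℕ) (hi : i < 9) : toS (w ||| 2 ^ i) = insert (⟨i, hi⟩ : Fin 9) (toS w) := by
  ext j
  rw [mem_insert, mem_toS, mem_toS, Nat.testBit_or, Nat.testBit_two_pow, Bool.or_eq_true,
    decide_eq_true_iff, or_comm, Fin.ext_iff]
  constructor
  · rintro (h | h)
    · exact Or.inl h.symm
    · exact Or.inr h
  · rintro (h | h)
    · exact Or.inl h.symm
    · exact Or.inr h

theorem notMem_toS {w i : ℕ} (hi : i < 9) (h : w.testBit i = false) :
    (⟨i, hi⟩ : Fin 9) ∉ toS w := by
  rw [mem_toS]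
  simp [h]

theorem M4_card {w : ℕ} (h : M4.testBit w = true) : (toS w).card = 4 := by
  have h1 : w < 512 := by
    by_contra hw
    push Not at hw
    have h2 : M4 < 2 ^ 512 := by decide +kernel
    have h3 : M4.testBit w = false :=
      Nat.testBit_lt_two_pow (lt_of_lt_of_le h2 (Nat.pow_le_pow_right (by norm_num) hw))
    rw [h3] at h
    exact Bool.noConfusion h
  have key : ∀ w < 512, M4.testBit w = true → (toS w).card = 4 := by decide +kernel
  exact key w h1 h

/-- the mask of a set -/
def mkS (G : Finset (Fin 9)) : ℕ := (List.finRange 9).foldr (fun i r => if i ∈ G then r ||| 2 ^ i.1 else r) 0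

theorem testBit_foldr {α : Type} (l : List α) (c : α → Bool) (g : α → ℕ) (j : ℕ) :
    (l.foldr (fun i r => if c i then r ||| 2 ^ (g i) else r) 0).testBit j = true ↔
      ∃ i ∈ l, c i = true ∧ g i = j := by
  induction l with
  | nil => simp
  | cons a l ih =>
    rw [List.foldr_cons]
    by_cases hc : c a = true
    · rw [if_pos hc, Nat.testBit_or, Nat.testBit_two_pow, Bool.or_eq_true, ih,
        decide_eq_true_iff]
      constructor
      · rintro (⟨i, hi, h⟩ | h)
        · exact ⟨i, List.mem_cons_of_mem _ hi, h⟩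
        · exact ⟨a, List.mem_cons_self, hc, h⟩
      · rintro ⟨i, hi, h1, h2⟩
        rcases List.mem_cons.1 hi with rfl | hi
        · exact Or.inr h2
        · exact Or.inl ⟨i, hi, h1, h2⟩
    · rw [if_neg hc, ih]
      constructor
      · rintro ⟨i, hi, h⟩
        exact ⟨i, List.mem_cons_of_mem _ hi, h⟩
      · rintro ⟨i, hi, h1, h2⟩
        rcases List.mem_cons.1 hi with rfl | hi
        · exact absurd h1 hc
        · exact ⟨i, hi, h1, h2⟩

theorem testBit_mkS (G : Finset (Fin 9)) (j : ℕ) :
    (mkS G).testBit j = true ↔ ∃ i : Fin 9, i ∈ G ∧ i.1 = j := by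
  have h := testBit_foldr (List.finRange 9) (fun i => decide (i ∈ G)) (fun i => i.1) j
  simp only [decide_eq_true_iff] at h
  unfold mkS
  rw [h]
  simp

theorem toS_mkS (G : Finset (Fin 9)) : toS (mkS G) = G := by
  ext i
  rw [mem_toS, testBit_mkS]
  constructor
  · rintro ⟨j, hj, h⟩
    rwa [← Fin.ext h]
  · intro h
    exact ⟨i, h, rfl⟩

theorem M5_mkS (G : Finset (Fin 9)) (h : G.card = 5) : M5.testBit (mkS G) = true := by
  revert G
  decide +kernel

theorem testBit_bitsOf (l : List ℕ) (m : ℕ) : (bitsOf l).testBit m = true ↔ m ∈ l := by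
  have h := testBit_foldr l (fun _ => true) (fun m => m) m
  simp only [if_true] at h
  unfold bitsOf
  rw [h]
  simp

theorem testBit_pm (s : List ℕ) (m j : ℕ) :
    (pm s m).testBit j = true ↔ ∃ i, i < 9 ∧ m.testBit i = true ∧ s.getD i 0 = j := by
  have h := testBit_foldr (List.range 9) (fun i => m.testBit i) (fun i => s.getD i 0) j
  unfold pm
  rw [h]
  simp

theorem exists_perm {s : List ℕ} (h : isP s = true) :
    ∃ σ : Equiv.Perm (Fin 9), ∀ i : Fin 9, (σ i).1 = s.getD i.1 0 := by
  unfold isP at h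
  rw [Bool.and_eq_true, List.all_eq_true, List.all_eq_true] at h
  obtain ⟨h1, h2⟩ := h
  have h1' : ∀ i : Fin 9, s.getD i.1 0 < 9 := fun i =>
    of_decide_eq_true (h1 i.1 (List.mem_range.2 i.2))
  let f : Fin 9 → Fin 9 := fun i => ⟨s.getD i.1 0, h1' i⟩
  have hs : Function.Surjective f := by
    intro j
    have h3 := h2 j.1 (List.mem_range.2 j.2)
    rw [List.any_eq_true] at h3
    obtain ⟨i, hi, h4⟩ := h3
    exact ⟨⟨i, List.mem_range.1 hi⟩, Fin.ext (beq_iff_eq.1 h4)⟩
  have hb : Function.Bijective f := ⟨Finite.injective_iff_surjective.2 hs, hs⟩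
  exact ⟨Equiv.ofBijective f hb, fun i => rfl⟩

theorem toS_pm {s : List ℕ} {σ : Equiv.Perm (Fin 9)} (hσ : ∀ i : Fin 9, (σ i).1 = s.getD i.1 0)
    (m : ℕ) : toS (pm s m) = (toS m).image σ := by
  ext j
  rw [mem_toS, testBit_pm, mem_image]
  constructor
  · rintro ⟨i, hi, h1, h2⟩
    refine ⟨⟨i, hi⟩, mem_toS.2 h1, Fin.ext ?_⟩
    rw [hσ]
    exact h2
  · rintro ⟨i, hi, rfl⟩
    exact ⟨i.1, i.2, mem_toS.1 hi, (hσ i).symm⟩

theorem CP29_eq : CP29 = (CPM.map toS).toFinset := by decide +kernel

theorem mem_CP29 {G : Finset (Fin 9)} : G ∈ CP29 ↔ ∃ m ∈ CPM, toS m = G := by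
  rw [CP29_eq, List.mem_toFinset, List.mem_map]

/-! ### relabelling -/

/-- the sets whose image is in `A` -/
def pull (σ : Equiv.Perm (Fin 9)) (A : Finset (Finset (Fin 9))) : Finset (Finset (Fin 9)) :=
  Finset.univ.filter (fun G => G.image σ ∈ A)

theorem mem_pull {σ : Equiv.Perm (Fin 9)} {A : Finset (Finset (Fin 9))} {G : Finset (Fin 9)} :
    G ∈ pull σ A ↔ G.image σ ∈ A := by
  simp [pull]

theorem image_symm_image (σ : Equiv.Perm (Fin 9)) (G : Finset (Fin 9)) :
    (G.image σ.symm).image σ = G := by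
  rw [image_image]
  have : (σ ∘ σ.symm : Fin 9 → Fin 9) = id := by
    funext i
    simp
  rw [this, image_id]

theorem image_image_symm (σ : Equiv.Perm (Fin 9)) (G : Finset (Fin 9)) :
    (G.image σ).image σ.symm = G := by
  rw [image_image]
  have : (σ.symm ∘ σ : Fin 9 → Fin 9) = id := by
    funext i
    simp
  rw [this, image_id]

theorem notMem_image (σ : Equiv.Perm (Fin 9)) {G : Finset (Fin 9)} {a : Fin 9} (h : a ∉ G) :
    σ a ∉ G.image σ := by
  rw [mem_image]
  rintro ⟨b, hb, h2⟩
  rw [σ.injective h2] at hb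
  exact h hb

theorem image_compl (σ : Equiv.Perm (Fin 9)) (G : Finset (Fin 9)) :
    (Gᶜ).image σ = (G.image σ)ᶜ := by
  ext j
  rw [mem_compl, mem_image, mem_image]
  constructor
  · rintro ⟨i, hi, rfl⟩ ⟨k, hk, h⟩
    rw [mem_compl] at hi
    rw [σ.injective h] at hk
    exact hi hk
  · intro h
    refine ⟨σ.symm j, ?_, by simp⟩
    rw [mem_compl]
    intro h2
    exact h ⟨σ.symm j, h2, by simp⟩

theorem good_pull {A : Finset (Finset (Fin 9))} (h : Good A) (σ : Equiv.Perm (Fin 9)) :
    Good (pull σ A) where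
  card G hG := by
    rw [mem_pull] at hG
    rw [← h.card _ hG, card_image_of_injective _ σ.injective]
  g1 W hW hc a ha hi := by
    rw [mem_pull] at hc hi
    rw [image_compl] at hc
    rw [image_insert] at hi
    refine h.g1 (W.image σ) ?_ hc (σ a) (notMem_image σ ha) hi
    rw [card_image_of_injective _ σ.injective, hW]
  g2 W a b c hW ha hb hc hab hbc hac h1 h2 h3 := by
    rw [mem_pull, image_insert] at h1 h2 h3
    refine h.g2 (W.image σ) (σ a) (σ b) (σ c) ?_ (notMem_image σ ha) (notMem_image σ hb)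
      (notMem_image σ hc) (fun e => hab (σ.injective e)) (fun e => hbc (σ.injective e))
      (fun e => hac (σ.injective e)) h1 h2 h3
    rw [card_image_of_injective _ σ.injective, hW]
  g3 W hW hc a ha := by
    rw [mem_pull, image_compl] at hc
    obtain ⟨b, hb, hba, hm⟩ := h.g3 (W.image σ)
      (by rw [card_image_of_injective _ σ.injective, hW]) hc (σ a) (notMem_image σ ha)
    refine ⟨σ.symm b, ?_, ?_, ?_⟩
    · intro h2
      exact hb (mem_image.2 ⟨σ.symm b, h2, by simp⟩)
    · intro h2
      apply hba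
      rw [← h2]
      simp
    · rw [mem_pull, image_insert]
      simpa using hm
  conn B hB hne hcl := by
    have hB' : B.image (fun G => G.image σ) ⊆ A := by
      intro G hG
      obtain ⟨G', hG', rfl⟩ := mem_image.1 hG
      exact mem_pull.1 (hB hG')
    have hE := h.conn (B.image (fun G => G.image σ)) hB' (hne.image _) (by
      intro W hW a ha h1 b hb h2
      obtain ⟨G, hG, h3⟩ := mem_image.1 h1
      have hG2 : G = insert (σ.symm a) (W.image σ.symm) := by
        have := congrArg (fun G => G.image σ.symm) h3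
        simp only [image_image_symm, image_insert] at this
        exact this
      rw [hG2] at hG
      have h4 := hcl (W.image σ.symm)
        (by rw [card_image_of_injective _ σ.symm.injective, hW]) (σ.symm a)
        (notMem_image σ.symm ha) hG (σ.symm b) (notMem_image σ.symm hb) (by
          rw [mem_pull, image_insert, image_symm_image]
          simpa using h2)
      refine mem_image.2 ⟨_, h4, ?_⟩
      simp only [image_insert, image_symm_image]
      simp)
    ext G
    rw [mem_pull]
    constructor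
    · intro hG
      exact mem_pull.1 (hB hG)
    · intro hG
      rw [← hE] at hG
      obtain ⟨G', hG', h3⟩ := mem_image.1 hG
      have : G' = G := by
        have := congrArg (fun G => G.image σ.symm) h3
        simpa only [image_image_symm] using this
      rwa [← this]

theorem concl_pull {A : Finset (Finset (Fin 9))} {σ : Equiv.Perm (Fin 9)} (h : Concl (pull σ A)) :
    Concl A := by
  obtain ⟨τ, hτ⟩ := h
  refine ⟨τ.trans σ, ?_⟩
  ext G
  have h1 : G ∈ A ↔ G.image σ.symm ∈ pull σ A := by
    rw [mem_pull, image_symm_image]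
  rw [h1, hτ, mem_image, mem_image]
  constructor
  · rintro ⟨G', hG', h2⟩
    refine ⟨G', hG', ?_⟩
    have h3 : G'.image (τ.trans σ) = (G'.image τ).image σ := by
      rw [image_image]
      rfl
    rw [h3, h2, image_symm_image]
  · rintro ⟨G', hG', h2⟩
    refine ⟨G', hG', ?_⟩
    have h3 : G'.image (τ.trans σ) = (G'.image τ).image σ := by
      rw [image_image]
      rfl
    rw [← h2, h3, image_image_symm]

/-! ### soundness -/

/-- the state of the search is correct for the family `A` -/
def Inv (A : Finset (Finset (Fin 9))) (T F : ℕ) : Prop :=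
  (∀ m, T.testBit m = true → toS m ∈ A) ∧ (∀ m, F.testBit m = true → toS m ∉ A)

/-- a list of literals has been refuted or solved -/
def Solved (ls : List (ℕ × Bool)) : Prop :=
  ∀ A, Good A → (∀ p ∈ ls, (p.2 = true → toS p.1 ∈ A) ∧ (p.2 = false → toS p.1 ∉ A)) → Concl A

theorem full_iff {A : Finset (Finset (Fin 9))} (hA : Good A) {T F : ℕ} (hI : Inv A T F)
    (h : (T ||| F) &&& M5 = M5) (G : Finset (Fin 9)) :
    G ∈ A ↔ G.card = 5 ∧ T.testBit (mkS G) = true := by
  constructor
  · intro hG
    have hc := hA.card G hG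
    refine ⟨hc, ?_⟩
    have h1 := M5_mkS G hc
    rw [← h, Nat.testBit_and, Bool.and_eq_true, Nat.testBit_or, Bool.or_eq_true] at h1
    rcases h1.1 with h2 | h2
    · exact h2
    · exact absurd hG (by have := hI.2 _ h2; rwa [toS_mkS] at this)
  · rintro ⟨-, h2⟩
    have := hI.1 _ h2
    rwa [toS_mkS] at this

theorem sound (t : Tr) : ∀ (c : List (List (ℕ × Bool))) (T F : ℕ), chk c t T F = true →
    (∀ ls ∈ c, Solved ls) → ∀ A, Good A → Inv A T F → Concl A := by
  induction t with
  | cA w i =>
    intro c T F h _ A hA hI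
    simp only [chk, Bool.and_eq_true, decide_eq_true_iff, Bool.not_eq_true'] at h
    obtain ⟨⟨⟨⟨h1, h2⟩, h3⟩, h4⟩, h5⟩ := h
    have e1 := hI.1 _ h4
    have e2 := hI.1 _ h5
    rw [toS_compl] at e1
    rw [toS_insert _ _ h2] at e2
    exact absurd e2 (hA.g1 _ (M4_card h1) e1 _ (notMem_toS h2 h3))
  | cB w i j k =>
    intro c T F h _ A hA hI
    simp only [chk, Bool.and_eq_true, decide_eq_true_iff, Bool.not_eq_true'] at h
    obtain ⟨⟨⟨⟨⟨⟨⟨⟨⟨h1, hij⟩, hjk⟩, hk⟩, wi⟩, wj⟩, wk⟩, ti⟩, tj⟩, tk⟩ := h
    have hj : j < 9 := by omega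
    have hi : i < 9 := by omega
    have e1 := hI.1 _ ti
    have e2 := hI.1 _ tj
    have e3 := hI.1 _ tk
    rw [toS_insert _ _ hi] at e1
    rw [toS_insert _ _ hj] at e2
    rw [toS_insert _ _ hk] at e3
    exact (hA.g2 _ _ _ _ (M4_card h1) (notMem_toS hi wi) (notMem_toS hj wj) (notMem_toS hk wk)
      (fun e => by have := congrArg Fin.val e; simp at this; omega)
      (fun e => by have := congrArg Fin.val e; simp at this; omega)
      (fun e => by have := congrArg Fin.val e; simp at this; omega) e1 e2 e3).elim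
  | cC w i =>
    intro c T F h _ A hA hI
    simp only [chk, Bool.and_eq_true, decide_eq_true_iff, Bool.not_eq_true', List.all_eq_true,
      Bool.or_eq_true] at h
    obtain ⟨⟨⟨⟨h1, hi⟩, wi⟩, h4⟩, h5⟩ := h
    have hcomp : (toS w)ᶜ ∉ A := by
      rcases h5 with h5 | h5
      · have := hI.2 _ h5
        rwa [toS_compl] at this
      · intro h6
        have e2 := hI.1 _ h5
        rw [toS_insert _ _ hi] at e2
        exact hA.g1 _ (M4_card h1) h6 _ (notMem_toS hi wi) e2
    obtain ⟨b, hb, hbi, hm⟩ := hA.g3 _ (M4_card h1) hcomp _ (notMem_toS hi wi)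
    have h7 := h4 b.1 (List.mem_range.2 b.2)
    rcases h7 with (h7 | h7) | h7
    · exact absurd (mem_toS.2 h7) hb
    · exact absurd (Fin.ext (beq_iff_eq.1 h7)) hbi
    · have e := hI.2 _ h7
      rw [toS_insert _ _ b.2] at e
      exact absurd hm e
  | sp m t u iht ihu =>
    intro c T F h hc A hA hI
    simp only [chk, Bool.and_eq_true] at h
    by_cases hm : toS m ∈ A
    · refine iht c _ F h.1 hc A hA ⟨fun m' hm' => ?_, hI.2⟩
      rw [Nat.testBit_or, Nat.testBit_two_pow, Bool.or_eq_true, decide_eq_true_iff] at hm'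
      rcases hm' with h1 | h1
      · exact hI.1 _ h1
      · rwa [← h1]
    · refine ihu c T _ h.2 hc A hA ⟨hI.1, fun m' hm' => ?_⟩
      rw [Nat.testBit_or, Nat.testBit_two_pow, Bool.or_eq_true, decide_eq_true_iff] at hm'
      rcases hm' with h1 | h1
      · exact hI.2 _ h1
      · rwa [← h1]
  | ref n s =>
    intro c T F h hc A hA hI
    simp only [chk, Bool.and_eq_true] at h
    obtain ⟨hs, h2⟩ := h
    obtain ⟨σ, hσ⟩ := exists_perm hs
    rcases hd : c.drop n with _ | ⟨ls, l'⟩
    · rw [hd] at h2
      exact Bool.noConfusion h2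
    · rw [hd] at h2
      have hmem : ls ∈ c := by
        have : ls ∈ c.drop n := by rw [hd]; exact List.mem_cons_self
        exact List.mem_of_mem_drop this
      simp only [List.all_eq_true] at h2
      refine concl_pull (σ := σ) (hc ls hmem _ (good_pull hA σ) fun p hp => ?_)
      have h3 := h2 p hp
      constructor
      · intro hp2
        rw [if_pos hp2] at h3
        rw [mem_pull, ← toS_pm hσ]
        exact hI.1 _ h3
      · intro hp2
        rw [if_neg (by rw [hp2]; exact Bool.false_ne_true)] at h3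
        rw [mem_pull, ← toS_pm hσ]
        exact hI.2 _ h3
  | cut ls t u iht ihu =>
    intro c T F h hc A hA hI
    simp only [chk, Bool.and_eq_true] at h
    refine ihu (c ++ [ls]) T F h.2 ?_ A hA hI
    intro ls' hls'
    rcases List.mem_append.1 hls' with h1 | h1
    · exact hc _ h1
    · rw [List.mem_singleton] at h1
      subst h1
      intro A' hA' hl
      refine iht c _ _ h.1 hc A' hA' ⟨fun m hm => ?_, fun m hm => ?_⟩
      · rw [testBit_bitsOf, List.mem_map] at hm
        obtain ⟨p, hp, rfl⟩ := hm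
        rw [List.mem_filter] at hp
        exact (hl p hp.1).1 hp.2
      · rw [testBit_bitsOf, List.mem_map] at hm
        obtain ⟨p, hp, rfl⟩ := hm
        rw [List.mem_filter] at hp
        exact (hl p hp.1).2 (by simpa using hp.2)
  | iso s =>
    intro c T F h _ A hA hI
    simp only [chk, Bool.and_eq_true, beq_iff_eq] at h
    obtain ⟨⟨hs, hfull⟩, hT⟩ := h
    obtain ⟨σ, hσ⟩ := exists_perm hs
    refine ⟨σ, ?_⟩
    ext G
    constructor
    · intro hG
      have h1 := ((full_iff hA hI hfull G).1 hG).2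
      rw [hT, testBit_bitsOf, List.mem_map] at h1
      obtain ⟨m, hm, h2⟩ := h1
      refine mem_image.2 ⟨toS m, mem_CP29.2 ⟨m, hm, rfl⟩, ?_⟩
      rw [← toS_pm hσ, h2, toS_mkS]
    · intro hG
      obtain ⟨G', hG', rfl⟩ := mem_image.1 hG
      obtain ⟨m, hm, rfl⟩ := mem_CP29.1 hG'
      have h1 : T.testBit (pm s m) = true := by
        rw [hT, testBit_bitsOf, List.mem_map]
        exact ⟨m, hm, rfl⟩
      have h2 := hI.1 _ h1
      rwa [toS_pm hσ] at h2
  | dis m =>
    intro c T F h _ A hA hI
    simp only [chk, Bool.and_eq_true, beq_iff_eq, Bool.not_eq_true', List.all_eq_true,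
      Bool.or_eq_true, beq_eq_false_iff_ne] at h
    obtain ⟨⟨⟨⟨⟨hfull, hT5⟩, hmT⟩, hm0⟩, hmne⟩, hcl⟩ := h
    exfalso
    -- bits of `m` are bits of `T`
    have hsub : ∀ j, m.testBit j = true → T.testBit j = true := by
      intro j hj
      rw [← hmT, Nat.testBit_and, Bool.and_eq_true] at hj
      exact hj.2
    let B : Finset (Finset (Fin 9)) := A.filter (fun G => m.testBit (mkS G) = true)
    have hBA : B ⊆ A := filter_subset _ _
    have small : ∀ j, T.testBit j = true → j < 512 := by
      intro j hj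
      by_contra hj2
      push Not at hj2
      rw [← hT5, Nat.testBit_and, Bool.and_eq_true] at hj
      have h2 : M5 < 2 ^ 512 := by decide +kernel
      have h3 : M5.testBit j = false :=
        Nat.testBit_lt_two_pow (lt_of_lt_of_le h2 (Nat.pow_le_pow_right (by norm_num) hj2))
      rw [h3] at hj
      exact Bool.noConfusion hj.2
    have mkSt : ∀ j, j < 512 → mkS (toS j) = j := by decide +kernel
    have hne : B.Nonempty := by
      obtain ⟨j, hj⟩ := Nat.exists_testBit_of_ne_zero hm0
      have hj2 := hsub j hj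
      have hj3 := small j hj2
      refine ⟨toS j, mem_filter.2 ⟨hI.1 _ hj2, ?_⟩⟩
      rw [mkSt j hj3]
      exact hj
    have hBeq := hA.conn B hBA hne (by
      intro W hW a ha h1 b hb h2
      refine mem_filter.2 ⟨h2, ?_⟩
      have h3 := (mem_filter.1 h1).2
      have hWlt : mkS W < 512 := by
        have : ∀ W : Finset (Fin 9), mkS W < 512 := by decide +kernel
        exact this W
      have hM4 : M4.testBit (mkS W) = true := by
        have : ∀ W : Finset (Fin 9), W.card = 4 → M4.testBit (mkS W) = true := by decide +kernel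
        exact this W hW
      have hins : ∀ a : Fin 9, mkS (insert a W) = mkS W ||| 2 ^ a.1 := by
        intro a
        have h5 : mkS W ||| 2 ^ a.1 < 512 := by
          have : (512 : ℕ) = 2 ^ 9 := by norm_num
          rw [this] at hWlt ⊢
          exact Nat.or_lt_two_pow hWlt (Nat.pow_lt_pow_right (by norm_num) a.2)
        rw [← mkSt _ h5, toS_insert _ _ a.2, toS_mkS]
      have hc1 := hcl (mkS W) (List.mem_range.2 hWlt)
      rcases hc1 with hc1 | hc1
      · rw [hM4] at hc1
        exact Bool.noConfusion hc1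
      · rcases hc1 a.1 (List.mem_range.2 a.2) with (hc2 | hc2) | hc2
        · rw [← hins, h3] at hc2
          exact Bool.noConfusion hc2
        · exact absurd (by rw [← toS_mkS W]; exact mem_toS.2 hc2) ha
        · rcases hc2 b.1 (List.mem_range.2 b.2) with (hc3 | hc3) | hc3
          · exact absurd (by rw [← toS_mkS W]; exact mem_toS.2 hc3) hb
          · have h6 := ((full_iff hA hI hfull _).1 h2).2
            rw [hins, hc3] at h6
            exact Bool.noConfusion h6
          · rw [hins]
            exact hc3)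
    apply hmne
    apply Nat.eq_of_testBit_eq
    intro j
    rw [Bool.eq_iff_iff]
    constructor
    · exact hsub j
    · intro hj
      have h1 := hI.1 _ hj
      rw [← hBeq] at h1
      have h2 := (mem_filter.1 h1).2
      rwa [mkSt j (small j hj)] at h2

end Pool.Agent.H61.KU
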